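import Pool.Agent.MUB.Problem

/-!
# Basic notions and lemmas for the proof of the 4-multinet theorem
-/

set_option autoImplicit false

open scoped Classical Matrix
open Finset Matrix

namespace Pool.Agent.MUB

noncomputable section

/-- `|u|^2` -/
def nsq (u : Fin 3 → ℂ) : ℝ := ∑ i, Complex.normSq (u i)

/-- `|⟨u, v⟩|^2` for the hermitian inner product -/
def hip (u v : Fin 3 → ℂ) : ℝ := Complex.normSq (star u ⬝ᵥ v)

lemma nsq_nonneg (u : Fin 3 → ℂ) : 0 ≤ nsq u :=
  Finset.sum_nonneg (fun _ _ => Complex.normSq_nonneg _)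

lemma nsq_eq_zero {u : Fin 3 → ℂ} : nsq u = 0 ↔ u = 0 := by
  unfold nsq
  rw [Finset.sum_eq_zero_iff_of_nonneg (fun _ _ => Complex.normSq_nonneg _)]
  constructor
  · intro h
    funext i
    exact Complex.normSq_eq_zero.1 (h i (mem_univ _))
  · rintro rfl i _
    simp

lemma nsq_pos {u : Fin 3 → ℂ} (h : u ≠ 0) : 0 < nsq u :=
  lt_of_le_of_ne (nsq_nonneg u) (fun h0 => h (nsq_eq_zero.1 h0.symm))

lemma hip_nonneg (u v : Fin 3 → ℂ) : 0 ≤ hip u v := Complex.normSq_nonneg _

lemma hip_comm (u v : Fin 3 → ℂ) : hip u v = hip v u := by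
  unfold hip
  rw [← Complex.normSq_conj (star u ⬝ᵥ v)]
  congr 1
  simp [dotProduct, map_sum, mul_comm]

lemma nsq_smul (c : ℂ) (u : Fin 3 → ℂ) : nsq (c • u) = Complex.normSq c * nsq u := by
  unfold nsq
  rw [Finset.mul_sum]
  exact Finset.sum_congr rfl (fun i _ => by simp)

lemma hip_smul_right (c : ℂ) (u v : Fin 3 → ℂ) : hip u (c • v) = Complex.normSq c * hip u v := by
  unfold hip
  rw [dotProduct_smul, smul_eq_mul, Complex.normSq_mul]

lemma hip_smul_left (c : ℂ) (u v : Fin 3 → ℂ) : hip (c • u) v = Complex.normSq c * hip u v := by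
  rw [hip_comm, hip_smul_right, hip_comm]

/-- the Lagrange identity -/
lemma lagrange (u v : Fin 3 → ℂ) :
    nsq (crossProduct u v) = nsq u * nsq v - hip u v := by
  have h : ∀ z : ℂ, Complex.normSq z = z.re * z.re + z.im * z.im := Complex.normSq_apply
  simp only [nsq, hip, h, dotProduct, Fin.sum_univ_three, Pi.star_apply, RCLike.star_def,
    cross_apply, Matrix.cons_val_zero, Matrix.cons_val_one, Matrix.cons_val,
    Complex.sub_re, Complex.sub_im, Complex.add_re, Complex.add_im, Complex.mul_re,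
    Complex.mul_im, Complex.conj_re, Complex.conj_im]
  ring

lemma hip_le (u v : Fin 3 → ℂ) : hip u v ≤ nsq u * nsq v := by
  have := lagrange u v
  have := nsq_nonneg (crossProduct u v)
  linarith

lemma hip_self (u : Fin 3 → ℂ) : hip u u = nsq u ^ 2 := by
  have h := lagrange u u
  rw [cross_self] at h
  have h0 : nsq (0 : Fin 3 → ℂ) = 0 := nsq_eq_zero.2 rfl
  rw [h0] at h
  nlinarith

/-- vector form of a weighted line arrangement in four classes satisfying the multinet axioms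
(1)-(3), such that not all lines pass through one base point; `a l` is the coefficient vector of
the line `l`, `e x` a vector representing the base point `x` -/
structure VNet (L X : Type) [Fintype L] [Fintype X] where
  cls : L → Fin 4
  m : L → ℝ
  a : L → Fin 3 → ℂ
  e : X → Fin 3 → ℂ
  n : X → ℝ
  d : ℝ
  m_pos : ∀ l, 0 < m l
  n_pos : ∀ x, 0 < n x
  n_lt : ∀ x, n x < d
  d_pos : 0 < d
  a_ne : ∀ l l', l ≠ l' → crossProduct (a l) (a l') ≠ 0
  e_ne : ∀ x, e x ≠ 0
  meet : ∀ l l', cls l ≠ cls l' → ∃! x, a l ⬝ᵥ e x = 0 ∧ a l' ⬝ᵥ e x = 0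
  sum_n : ∀ x i, ∑ l with (cls l = i ∧ a l ⬝ᵥ e x = 0), m l = n x
  sum_d : ∀ i, ∑ l with cls l = i, m l = d

/-- vector form of a 4-net, in a balanced hermitian metric -/
structure UNet (L X : Type) [Fintype L] [Fintype X] where
  cls : L → Fin 4
  a : L → Fin 3 → ℂ
  e : X → Fin 3 → ℂ
  /-- number of lines in each class -/
  N : ℕ
  /-- the line of class `i` through the base point `x` -/
  ln : X → Fin 4 → L
  N_two : 2 ≤ N
  card_cls : ∀ i, (univ.filter (fun l => cls l = i)).card = N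
  a_ne : ∀ l l', l ≠ l' → crossProduct (a l) (a l') ≠ 0
  e_ne : ∀ x, e x ≠ 0
  meet : ∀ l l', cls l ≠ cls l' → ∃! x, a l ⬝ᵥ e x = 0 ∧ a l' ⬝ᵥ e x = 0
  cls_ln : ∀ x i, cls (ln x i) = i
  ln_spec : ∀ x l, a l ⬝ᵥ e x = 0 ↔ ln x (cls l) = l
  unit : ∀ l, nsq (a l) = 1
  bal : ∀ i v, ∑ l with cls l = i, hip (a l) v = N / 3 * nsq v
  loc : ∀ x v, v ⬝ᵥ e x = 0 → ∑ i, hip (a (ln x i)) v = 2 * nsq v

/-- the function minimised by a balanced metric -/
def ff {L : Type} [Fintype L] (a : L → Fin 3 → ℂ) (m : L → ℝ) (g : Matrix (Fin 3) (Fin 3) ℂ) :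
    ℝ :=
  ∑ l, m l * Real.log (nsq (g *ᵥ a l)) - (∑ l, m l) / 3 * Real.log (Complex.normSq g.det)

end

end Pool.Agent.MUB
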