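import Pool.Agent.MUB.Stmts

/-!
# MUB, module CNT: counting in a vector multinet
-/

set_option autoImplicit false

open scoped Classical Matrix LinearAlgebra.Projectivization
open Finset Matrix

namespace Pool.Agent.MUB

namespace CNT_

lemma wedge (a b e : Fin 3 → ℂ) (ha : a ⬝ᵥ e = 0) (hb : b ⬝ᵥ e = 0) (i j : Fin 3) :
    crossProduct a b i * e j = crossProduct a b j * e i := by
  simp only [dotProduct, Fin.sum_univ_three] at ha hb
  rw [cross_apply]
  fin_cases i <;> fin_cases j <;> simp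
  · linear_combination b 2 * ha - a 2 * hb
  · linear_combination a 1 * hb - b 1 * ha
  · linear_combination a 2 * hb - b 2 * ha
  · linear_combination b 0 * ha - a 0 * hb
  · linear_combination b 1 * ha - a 1 * hb
  · linear_combination a 0 * hb - b 0 * ha

/-- if `a`, `b` are independent and both orthogonal to `e` and `f` then every `c` orthogonal to
`f` is orthogonal to `e` -/
lemma geom (a b c e f : Fin 3 → ℂ) (hab : crossProduct a b ≠ 0) (hf : f ≠ 0)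
    (hae : a ⬝ᵥ e = 0) (hbe : b ⬝ᵥ e = 0) (haf : a ⬝ᵥ f = 0) (hbf : b ⬝ᵥ f = 0)
    (hcf : c ⬝ᵥ f = 0) : c ⬝ᵥ e = 0 := by
  have he := wedge a b e hae hbe
  have hff := wedge a b f haf hbf
  obtain ⟨i, hi⟩ : ∃ i, crossProduct a b i ≠ 0 := by
    by_contra h
    push Not at h
    exact hab (funext h)
  have hfi : f i ≠ 0 := by
    intro h0
    refine hf (funext fun j => ?_)
    have := hff i j
    rw [h0, mul_zero] at this
    exact (mul_eq_zero.1 this).resolve_left hi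
  have key : ∀ g : Fin 3 → ℂ, (∀ i j, crossProduct a b i * g j = crossProduct a b j * g i) →
      crossProduct a b i * (c ⬝ᵥ g) = (c ⬝ᵥ crossProduct a b) * g i := by
    intro g hg
    have h0 := hg i 0
    have h1 := hg i 1
    have h2 := hg i 2
    simp only [dotProduct, Fin.sum_univ_three]
    linear_combination c 0 * h0 + c 1 * h1 + c 2 * h2
  have k1 := key f hff
  have k2 := key e he
  rw [hcf, mul_zero] at k1
  have hcw : c ⬝ᵥ crossProduct a b = 0 := by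
    rcases mul_eq_zero.1 k1.symm with h | h
    · exact h
    · exact absurd h hfi
  rw [hcw, zero_mul] at k2
  exact (mul_eq_zero.1 k2).resolve_left hi

variable {L X : Type} [Fintype L] [Fintype X]

lemma one_pt (N : VNet L X) (l l' : L) (h : N.cls l ≠ N.cls l') :
    ∑ x, (if N.a l ⬝ᵥ N.e x = 0 ∧ N.a l' ⬝ᵥ N.e x = 0 then (1 : ℝ) else 0) = 1 := by
  obtain ⟨x, hx, hu⟩ := N.meet l l' h
  rw [Finset.sum_eq_single x]
  · rw [if_pos hx]
  · intro y _ hy
    rw [if_neg]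
    intro h'
    exact hy (hu y h')
  · intro h'
    exact absurd (mem_univ x) h'

lemma sum_on (N : VNet L X) (l : L) : ∑ x with N.a l ⬝ᵥ N.e x = 0, N.n x = N.d := by
  obtain ⟨i, hi⟩ : ∃ i : Fin 4, i ≠ N.cls l := exists_ne _
  rw [← N.sum_d i, Finset.sum_filter, Finset.sum_filter]
  have h1 : ∀ x, (if N.a l ⬝ᵥ N.e x = 0 then N.n x else 0) =
      ∑ l', (if N.cls l' = i then N.m l' *
        (if N.a l ⬝ᵥ N.e x = 0 ∧ N.a l' ⬝ᵥ N.e x = 0 then (1 : ℝ) else 0) else 0) := by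
    intro x
    by_cases hx : N.a l ⬝ᵥ N.e x = 0
    · rw [if_pos hx, ← N.sum_n x i, Finset.sum_filter]
      refine Finset.sum_congr rfl (fun l' _ => ?_)
      by_cases h1 : N.cls l' = i
      · by_cases h2 : N.a l' ⬝ᵥ N.e x = 0
        · rw [if_pos ⟨h1, h2⟩, if_pos h1, if_pos ⟨hx, h2⟩, mul_one]
        · rw [if_neg (fun h => h2 h.2), if_pos h1, if_neg (fun h => h2 h.2), mul_zero]
      · rw [if_neg (fun h => h1 h.1), if_neg h1]
    · rw [if_neg hx]
      symm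
      refine Finset.sum_eq_zero (fun l' _ => ?_)
      have h0 : ¬ (N.a l ⬝ᵥ N.e x = 0 ∧ N.a l' ⬝ᵥ N.e x = 0) := fun h => hx h.1
      rw [if_neg h0, mul_zero, ite_self]
  rw [Finset.sum_congr rfl (fun x _ => h1 x), Finset.sum_comm]
  refine Finset.sum_congr rfl (fun l' _ => ?_)
  by_cases h1 : N.cls l' = i
  · simp only [if_pos h1]
    rw [← Finset.mul_sum, one_pt N l l' (fun h => hi (by rw [h, h1])), mul_one]
  · simp only [if_neg h1]
    exact Finset.sum_const_zero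

lemma sum_sq (N : VNet L X) : ∑ x, N.n x ^ 2 = N.d ^ 2 := by
  have h1 : ∀ x, N.n x ^ 2 = ∑ l, (if N.cls l = 0 then N.m l *
      (if N.a l ⬝ᵥ N.e x = 0 then N.n x else 0) else 0) := by
    intro x
    have h0 : N.n x ^ 2 = (∑ l with (N.cls l = 0 ∧ N.a l ⬝ᵥ N.e x = 0), N.m l) * N.n x := by
      rw [N.sum_n x 0, sq]
    rw [h0, Finset.sum_filter, Finset.sum_mul]
    refine Finset.sum_congr rfl (fun l _ => ?_)
    by_cases h1 : N.cls l = 0
    · by_cases h2 : N.a l ⬝ᵥ N.e x = 0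
      · rw [if_pos ⟨h1, h2⟩, if_pos h1, if_pos h2]
      · rw [if_neg (fun h => h2 h.2), if_pos h1, if_neg h2, mul_zero, zero_mul]
    · rw [if_neg (fun h => h1 h.1), if_neg h1, zero_mul]
  rw [Finset.sum_congr rfl (fun x _ => h1 x), Finset.sum_comm]
  have h2 : ∀ l, ∑ x, (if N.cls l = 0 then N.m l *
      (if N.a l ⬝ᵥ N.e x = 0 then N.n x else 0) else 0) =
      (if N.cls l = 0 then N.m l else 0) * N.d := by
    intro l
    by_cases h1 : N.cls l = 0
    · simp only [if_pos h1]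
      rw [← Finset.mul_sum, ← Finset.sum_filter, sum_on]
    · simp only [if_neg h1]
      rw [zero_mul]
      exact Finset.sum_const_zero
  rw [Finset.sum_congr rfl (fun l _ => h2 l), ← Finset.sum_mul, ← Finset.sum_filter, N.sum_d 0, sq]

lemma two_pts (N : VNet L X) (x y : X) (l : L) (hx : ¬ N.a l ⬝ᵥ N.e x = 0)
    (hy : N.a l ⬝ᵥ N.e y = 0) :
    ∑ l' with (N.cls l' ≠ 0 ∧ N.a l' ⬝ᵥ N.e x = 0 ∧ N.a l' ⬝ᵥ N.e y = 0), N.m l' ≤ N.n y := by
  rcases Finset.eq_empty_or_nonempty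
    (univ.filter (fun l' => N.cls l' ≠ 0 ∧ N.a l' ⬝ᵥ N.e x = 0 ∧ N.a l' ⬝ᵥ N.e y = 0)) with h | h
  · rw [h, Finset.sum_empty]
    exact (N.n_pos y).le
  · obtain ⟨l0, h0⟩ := h
    rw [mem_filter] at h0
    rw [← N.sum_n y (N.cls l0)]
    refine Finset.sum_le_sum_of_subset_of_nonneg (fun l' h' => ?_) (fun l' _ _ => (N.m_pos l').le)
    rw [mem_filter] at h'
    have he : l' = l0 := by
      by_contra hne
      exact hx (geom (N.a l') (N.a l0) (N.a l) (N.e x) (N.e y) (N.a_ne l' l0 hne) (N.e_ne y)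
        h'.2.2.1 h0.2.2.1 h'.2.2.2 h0.2.2.2 hy)
    rw [mem_filter]
    refine ⟨mem_univ _, by rw [he], h'.2.2.2⟩

lemma three_cls (N : VNet L X) (x : X) :
    ∑ l with (N.cls l ≠ 0 ∧ N.a l ⬝ᵥ N.e x = 0), N.m l = 3 * N.n x := by
  have h : 3 * N.n x = ∑ l with (N.cls l = 1 ∧ N.a l ⬝ᵥ N.e x = 0), N.m l +
      ∑ l with (N.cls l = 2 ∧ N.a l ⬝ᵥ N.e x = 0), N.m l +
      ∑ l with (N.cls l = 3 ∧ N.a l ⬝ᵥ N.e x = 0), N.m l := by
    rw [N.sum_n x 1, N.sum_n x 2, N.sum_n x 3]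
    ring
  rw [h]
  simp only [Finset.sum_filter]
  rw [← Finset.sum_add_distrib, ← Finset.sum_add_distrib]
  refine Finset.sum_congr rfl (fun l _ => ?_)
  generalize N.cls l = c
  by_cases hx : N.a l ⬝ᵥ N.e x = 0
  · fin_cases c <;> simp [hx]
  · simp [hx]

lemma exists_off (N : VNet L X) (x : X) : ∃ l, N.cls l = 0 ∧ ¬ N.a l ⬝ᵥ N.e x = 0 := by
  by_contra h
  push Not at h
  have h1 : N.n x = N.d := by
    rw [← N.sum_n x 0, ← N.sum_d 0]
    refine Finset.sum_congr ?_ (fun _ _ => rfl)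
    ext l
    rw [mem_filter, mem_filter]
    exact ⟨fun hl => ⟨hl.1, hl.2.1⟩, fun hl => ⟨hl.1, hl.2, h l hl.2⟩⟩
  exact absurd h1 (N.n_lt x).ne

lemma three_le (N : VNet L X) (x : X) : 3 * N.n x ≤ N.d := by
  obtain ⟨l, hl0, hlx⟩ := exists_off N x
  rw [← three_cls N x, ← sum_on N l]
  have h1 : ∑ l' with (N.cls l' ≠ 0 ∧ N.a l' ⬝ᵥ N.e x = 0), N.m l' =
      ∑ y with N.a l ⬝ᵥ N.e y = 0,
        ∑ l' with (N.cls l' ≠ 0 ∧ N.a l' ⬝ᵥ N.e x = 0 ∧ N.a l' ⬝ᵥ N.e y = 0), N.m l' := by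
    simp only [Finset.sum_filter]
    have h2 : ∀ y, (if N.a l ⬝ᵥ N.e y = 0 then
        ∑ l', (if N.cls l' ≠ 0 ∧ N.a l' ⬝ᵥ N.e x = 0 ∧ N.a l' ⬝ᵥ N.e y = 0 then N.m l' else 0)
          else 0) = ∑ l', (if N.cls l' ≠ 0 ∧ N.a l' ⬝ᵥ N.e x = 0 then N.m l' *
          (if N.a l ⬝ᵥ N.e y = 0 ∧ N.a l' ⬝ᵥ N.e y = 0 then (1 : ℝ) else 0) else 0) := by
      intro y
      by_cases hy : N.a l ⬝ᵥ N.e y = 0
      · rw [if_pos hy]
        refine Finset.sum_congr rfl (fun l' _ => ?_)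
        by_cases h1 : N.cls l' ≠ 0 ∧ N.a l' ⬝ᵥ N.e x = 0
        · by_cases h2 : N.a l' ⬝ᵥ N.e y = 0
          · rw [if_pos ⟨h1.1, h1.2, h2⟩, if_pos h1, if_pos ⟨hy, h2⟩, mul_one]
          · rw [if_neg (fun h => h2 h.2.2), if_pos h1, if_neg (fun h => h2 h.2), mul_zero]
        · rw [if_neg (fun h => h1 ⟨h.1, h.2.1⟩), if_neg h1]
      · rw [if_neg hy]
        symm
        refine Finset.sum_eq_zero (fun l' _ => ?_)
        have h0 : ¬ (N.a l ⬝ᵥ N.e y = 0 ∧ N.a l' ⬝ᵥ N.e y = 0) := fun h => hy h.1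
        rw [if_neg h0, mul_zero, ite_self]
    rw [Finset.sum_congr rfl (fun y _ => h2 y), Finset.sum_comm]
    refine Finset.sum_congr rfl (fun l' _ => ?_)
    by_cases h1 : N.cls l' ≠ 0 ∧ N.a l' ⬝ᵥ N.e x = 0
    · simp only [if_pos h1]
      rw [← Finset.mul_sum, one_pt N l l' (fun h => h1.1 (by rw [← h, hl0])), mul_one]
    · simp only [if_neg h1]
      exact Finset.sum_const_zero.symm
  rw [h1]
  refine Finset.sum_le_sum (fun y hy => ?_)
  exact two_pts N x y l hlx (mem_filter.1 hy).2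

lemma sum_all (N : VNet L X) : ∑ l, N.m l = 4 * N.d := by
  rw [← Finset.sum_fiberwise univ N.cls N.m, Fin.sum_univ_four, N.sum_d 0, N.sum_d 1, N.sum_d 2,
    N.sum_d 3]
  ring

end CNT_

theorem cnt_proof : Stmt_CNT := by
  intro L X _ _ N
  exact ⟨CNT_.sum_on N, CNT_.sum_sq N, CNT_.three_le N, CNT_.sum_all N⟩

end Pool.Agent.MUB
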