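import Pool.Agent.MUB.Stmts

/-!
# MUB, module CON
-/

set_option autoImplicit false

open scoped Classical Matrix LinearAlgebra.Projectivization ComplexOrder
open Finset Matrix

namespace Pool.Agent.MUB

namespace CON_

/-- two different points are on at most one common line -/
theorem line_unique {P Q H H' : Plane} (hPQ : Q ≠ P) (h1 : OnLine P H) (h2 : OnLine Q H)
    (h3 : OnLine P H') (h4 : OnLine Q H') : H = H' := by
  induction P using Projectivization.ind with | h v hv =>
  induction Q using Projectivization.ind with | h w hw =>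
  induction H using Projectivization.ind with | h a ha =>
  induction H' using Projectivization.ind with | h b hb =>
  unfold OnLine at h1 h2 h3 h4
  rw [Projectivization.orthogonal_mk] at h1 h2 h3 h4
  have hc : crossProduct v w ≠ 0 := by
    intro h0
    apply hPQ
    rw [Projectivization.mk_eq_mk_iff_crossProduct_eq_zero hw hv, ← cross_anticomm, h0, neg_zero]
  have key : ∀ (u : Fin 3 → ℂ) (hu : u ≠ 0), v ⬝ᵥ u = 0 → w ⬝ᵥ u = 0 →
      Projectivization.mk ℂ u hu = Projectivization.mk ℂ (crossProduct v w) hc := by
    intro u hu hvu hwu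
    rw [Projectivization.mk_eq_mk_iff_crossProduct_eq_zero hu hc,
      cross_cross_eq_smul_sub_smul', hvu, dotProduct_comm u w, hwu]
    simp
  rw [key a ha h1 h2, key b hb h3 h4]

theorem isClosed_line (H : Plane) : IsClosed {Q : Plane | OnLine Q H} := by
  induction H using Projectivization.ind with | h a ha =>
  rw [isClosed_coinduced]
  have : (fun v : {v : Fin 3 → ℂ // v ≠ 0} => Projectivization.mk ℂ v.1 v.2) ⁻¹'
      {Q : Plane | OnLine Q (Projectivization.mk ℂ a ha)} = {v | v.1 ⬝ᵥ a = 0} := by
    ext v
    simp only [Set.mem_preimage, Set.mem_setOf_eq]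
    unfold OnLine
    rw [Projectivization.orthogonal_mk]
  rw [this]
  refine isClosed_eq ?_ continuous_const
  unfold dotProduct
  exact continuous_finsetSum _ (fun i _ =>
    ((continuous_apply i).comp continuous_subtype_val).mul continuous_const)

/-- a line contains a second point -/
theorem exists_other (P H : Plane) (h : OnLine P H) : ∃ Q, Q ≠ P ∧ OnLine Q H := by
  induction P using Projectivization.ind with | h v hv =>
  induction H using Projectivization.ind with | h a ha =>
  unfold OnLine at h
  rw [Projectivization.orthogonal_mk] at h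
  have hsv : star v ≠ 0 := by
    intro h0
    apply hv
    have := congrArg star h0
    simpa using this
  have hc : crossProduct a (star v) ≠ 0 := by
    intro h0
    rw [← Projectivization.mk_eq_mk_iff_crossProduct_eq_zero ha hsv,
      Projectivization.mk_eq_mk_iff'] at h0
    obtain ⟨c, hc⟩ := h0
    have h2 : v ⬝ᵥ a = c * (v ⬝ᵥ star v) := by
      rw [← hc, dotProduct_smul, smul_eq_mul]
    rw [h] at h2
    have h3 : v ⬝ᵥ star v ≠ 0 := fun h4 => hv (dotProduct_self_star_eq_zero.1 h4)
    have h5 : c = 0 := by
      rcases mul_eq_zero.1 h2.symm with h6 | h6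
      · exact h6
      · exact absurd h6 h3
    rw [h5, zero_smul] at hc
    exact ha hc.symm
  refine ⟨Projectivization.mk ℂ (crossProduct a (star v)) hc, ?_, ?_⟩
  · intro h0
    rw [Projectivization.mk_eq_mk_iff'] at h0
    obtain ⟨c, hc2⟩ := h0
    have h1 : star v ⬝ᵥ crossProduct a (star v) = 0 := dot_cross_self a (star v)
    rw [← hc2, dotProduct_smul, smul_eq_mul] at h1
    have h3 : star v ⬝ᵥ v ≠ 0 := fun h4 => hv (dotProduct_star_self_eq_zero.1 h4)
    have h5 : c = 0 := by
      rcases mul_eq_zero.1 h1 with h6 | h6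
      · exact h6
      · exact absurd h6 h3
    rw [h5, zero_smul] at hc2
    exact hc hc2.symm
  · unfold OnLine
    rw [Projectivization.orthogonal_mk, dotProduct_comm]
    exact dot_self_cross a (star v)

end CON_

open CON_ in
theorem con_proof : Stmt_CON := by
  rintro N ⟨P, hPX, hP⟩
  refine ⟨P, ?_, ?_⟩
  · ext Q
    simp only [Set.mem_singleton_iff]
    constructor
    · intro hQ
      by_contra hne
      obtain ⟨i, j, H, hH, H', hH', hHH', h1, h2⟩ := N.X_sub Q hQ
      exact hHH' (line_unique hne (hP i H hH) h1 (hP j H' hH') h2)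
    · rintro rfl
      exact hPX
  · intro i
    obtain ⟨Q0, hQ0⟩ := (N.conn i).nonempty
    obtain ⟨hQ0, hQ0X⟩ := hQ0
    simp only [Set.mem_iUnion, Set.mem_setOf_eq] at hQ0
    obtain ⟨H, hH, hQ0H⟩ := hQ0
    have huniq : ∀ H' ∈ N.A i, H' = H := by
      by_contra hcon
      push Not at hcon
      obtain ⟨H', hH', hne⟩ := hcon
      have hpre := (N.conn i).isPreconnected
      rw [isPreconnected_closed_iff] at hpre
      have hX : ∀ Q, Q ≠ P → Q ∉ N.X := by
        intro Q hQne hQ
        obtain ⟨i, j, H, hH, H', hH', hHH', h1, h2⟩ := N.X_sub Q hQ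
        exact hHH' (line_unique hQne (hP i H hH) h1 (hP j H' hH') h2)
      have h1 := hpre {Q | OnLine Q H} (⋃ K ∈ (N.A i).erase H, {Q | OnLine Q K})
        (isClosed_line H)
        (Set.Finite.isClosed_biUnion (Finset.finite_toSet _) (fun K _ => isClosed_line K))
        ?_ ?_ ?_
      · obtain ⟨Q, ⟨hQ1, hQX⟩, hQH, hQK⟩ := h1
        simp only [Set.mem_iUnion, Set.mem_setOf_eq, Finset.mem_erase] at hQK hQH
        obtain ⟨K, ⟨hKH, hK⟩, hQK⟩ := hQK
        have hQP : Q ≠ P := by
          rintro rfl
          exact hQX hPX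
        exact hKH (line_unique hQP (hP i K hK) hQK (hP i H hH) hQH)
      · rintro Q ⟨hQ1, hQX⟩
        simp only [Set.mem_iUnion, Set.mem_setOf_eq] at hQ1
        obtain ⟨K, hK, hQK⟩ := hQ1
        by_cases hKH : K = H
        · left
          rw [hKH] at hQK
          exact hQK
        · right
          simp only [Set.mem_iUnion, Set.mem_setOf_eq, Finset.mem_erase]
          exact ⟨K, ⟨hKH, hK⟩, hQK⟩
      · obtain ⟨Q, hQP, hQH⟩ := exists_other P H (hP i H hH)
        refine ⟨Q, ⟨?_, hX Q hQP⟩, hQH⟩
        simp only [Set.mem_iUnion, Set.mem_setOf_eq]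
        exact ⟨H, hH, hQH⟩
      · obtain ⟨Q, hQP, hQH⟩ := exists_other P H' (hP i H' hH')
        refine ⟨Q, ⟨?_, hX Q hQP⟩, ?_⟩
        · simp only [Set.mem_iUnion, Set.mem_setOf_eq]
          exact ⟨H', hH', hQH⟩
        · simp only [Set.mem_iUnion, Set.mem_setOf_eq, Finset.mem_erase]
          exact ⟨H', ⟨hne, hH'⟩, hQH⟩
    have hA : N.A i = {H} := by
      ext K
      simp only [Finset.mem_singleton]
      constructor
      · exact huniq K
      · rintro rfl
        exact hH
    refine ⟨H, hA, hP i H hH, ?_⟩
    have := N.sum_m i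
    rw [hA, Finset.sum_singleton] at this
    exact this

end Pool.Agent.MUB
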