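import Pool.Agent.MUB.Stmts

/-!
# A minimiser is balanced
-/

set_option autoImplicit false

open scoped Classical Matrix
open Finset Matrix

namespace Pool.Agent.MUB

namespace CRI_

lemma nsq_add_smul (w v : Fin 3 → ℂ) (c : ℂ) :
    nsq (w + c • v) = nsq w + 2 * (c * (star w ⬝ᵥ v)).re + Complex.normSq c * nsq v := by
  simp only [nsq, dotProduct, Fin.sum_univ_three, Complex.normSq_apply, Pi.star_apply,
    RCLike.star_def, Pi.add_apply, Pi.smul_apply, smul_eq_mul, Complex.add_re, Complex.add_im,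
    Complex.mul_re, Complex.mul_im, Complex.conj_re, Complex.conj_im]
  ring

/-- the rank one perturbation of the identity -/
noncomputable def P (t : ℝ) (v : Fin 3 → ℂ) : Matrix (Fin 3) (Fin 3) ℂ :=
  fun i j => (if i = j then 1 else 0) + (t : ℂ) * (v i * star (v j))

lemma P_mulVec (t : ℝ) (v w : Fin 3 → ℂ) :
    P t v *ᵥ w = w + ((t : ℂ) * (star v ⬝ᵥ w)) • v := by
  funext i
  fin_cases i <;>
  simp [P, Matrix.mulVec, dotProduct, Fin.sum_univ_three] <;> ring

lemma det_P (t : ℝ) (v : Fin 3 → ℂ) : (P t v).det = 1 + (t : ℂ) * ((nsq v : ℝ) : ℂ) := by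
  have h : ((nsq v : ℝ) : ℂ) = ∑ i, v i * star (v i) := by
    unfold nsq
    push_cast
    refine Finset.sum_congr rfl (fun i _ => ?_)
    rw [Complex.normSq_eq_conj_mul_self, mul_comm]
    rfl
  rw [h, Matrix.det_fin_three]
  simp only [P, Fin.sum_univ_three]
  simp
  ring

lemma key {L : Type} [Fintype L] (a : L → Fin 3 → ℂ) (m : L → ℝ)
    (g : Matrix (Fin 3) (Fin 3) ℂ) (hm : ∀ l, 0 < m l) (ha : ∀ l, a l ≠ 0) (hg : g.det ≠ 0)
    (hmin : ∀ h : Matrix (Fin 3) (Fin 3) ℂ, h.det ≠ 0 → ff a m g ≤ ff a m h)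
    (v : Fin 3 → ℂ) (hv : nsq v = 1) :
    ∑ l, m l * (hip (g *ᵥ a l) v / nsq (g *ᵥ a l)) = (∑ l, m l) / 3 := by
  obtain ⟨τ, hτ⟩ : ∃ τ : L → ℝ, ∀ l, τ l = hip (g *ᵥ a l) v / nsq (g *ᵥ a l) := ⟨_, fun _ => rfl⟩
  have hga : ∀ l, g *ᵥ a l ≠ 0 := by
    intro l h
    exact ha l (Matrix.eq_zero_of_mulVec_eq_zero hg h)
  have hn : ∀ l, 0 < nsq (g *ᵥ a l) := fun l => nsq_pos (hga l)
  have t0 : ∀ l, 0 ≤ τ l := fun l => by
    rw [hτ]
    exact div_nonneg (hip_nonneg _ _) (hn l).le
  have t1 : ∀ l, τ l ≤ 1 := fun l => by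
    rw [hτ, div_le_one (hn l)]
    have := hip_le (g *ᵥ a l) v
    rwa [hv, mul_one] at this
  obtain ⟨S, hS⟩ : ∃ S, S = ∑ l, m l * τ l := ⟨_, rfl⟩
  obtain ⟨K, hK⟩ : ∃ K, K = (∑ l, m l) / 3 := ⟨_, rfl⟩
  have hS0 : 0 ≤ S := by
    rw [hS]
    exact Finset.sum_nonneg (fun l _ => mul_nonneg (hm l).le (t0 l))
  have hK0 : 0 ≤ K := by
    rw [hK]
    exact div_nonneg (Finset.sum_nonneg (fun l _ => (hm l).le)) (by norm_num)
  -- main inequality
  have main : ∀ s : ℝ, -1 < s → K * s ≤ s * (1 + s) * S := by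
    intro s hs
    have hs1 : 0 < 1 + s := by linarith
    obtain ⟨t, ht⟩ : ∃ t, t = Real.sqrt (1 + s) - 1 := ⟨_, rfl⟩
    have hst : (1 + t) ^ 2 = 1 + s := by
      rw [ht]
      have := Real.sq_sqrt hs1.le
      have h' : (1 + (Real.sqrt (1 + s) - 1)) = Real.sqrt (1 + s) := by ring
      rw [h', this]
    have ht1 : 0 < 1 + t := by
      rw [ht]
      have := Real.sqrt_pos.2 hs1
      linarith
    have hdet : (P t v * g).det = ((1 + t : ℝ) : ℂ) * g.det := by
      rw [Matrix.det_mul, det_P, hv]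
      push_cast
      ring
    have hdet0 : (P t v * g).det ≠ 0 := by
      rw [hdet]
      exact mul_ne_zero (Complex.ofReal_ne_zero.2 ht1.ne') hg
    have h1 := hmin (P t v * g) hdet0
    have hnsq : ∀ l, nsq ((P t v * g) *ᵥ a l) = nsq (g *ᵥ a l) * (1 + s * τ l) := by
      intro l
      rw [← Matrix.mulVec_mulVec, P_mulVec, nsq_add_smul, hv, mul_one]
      have e1 : star (g *ᵥ a l) ⬝ᵥ v = (starRingEnd ℂ) (star v ⬝ᵥ (g *ᵥ a l)) := by
        simp [dotProduct, map_sum, mul_comm]
      have e2 : (((t : ℂ) * (star v ⬝ᵥ (g *ᵥ a l))) * (star (g *ᵥ a l) ⬝ᵥ v)).re =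
          t * hip (g *ᵥ a l) v := by
        rw [e1, mul_assoc, Complex.mul_conj, hip_comm]
        unfold hip
        rw [← Complex.ofReal_mul, Complex.ofReal_re]
      have e3 : Complex.normSq ((t : ℂ) * (star v ⬝ᵥ (g *ᵥ a l))) = t ^ 2 * hip (g *ᵥ a l) v := by
        rw [Complex.normSq_mul, Complex.normSq_ofReal, hip_comm]
        unfold hip
        ring
      rw [e2, e3, hτ]
      have hne := (hn l).ne'
      have e4 : s = 2 * t + t ^ 2 := by linarith [hst]
      rw [e4]
      field_simp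
      ring
    have hpos : ∀ l, 0 < 1 + s * τ l := by
      intro l
      rcases le_or_gt 0 s with h | h
      · have := mul_nonneg h (t0 l)
        linarith
      · have : s ≤ s * τ l := by
          have := mul_le_mul_of_nonpos_left (t1 l) h.le
          linarith
        linarith
    have e5 : Complex.normSq (P t v * g).det = (1 + s) * Complex.normSq g.det := by
      rw [hdet, Complex.normSq_mul, Complex.normSq_ofReal, ← hst]
      ring
    have hg0 : 0 < Complex.normSq g.det := Complex.normSq_pos.2 hg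
    unfold ff at h1
    rw [e5, Real.log_mul hs1.ne' hg0.ne', ← hK] at h1
    have e6 : ∑ l, m l * Real.log (nsq ((P t v * g) *ᵥ a l)) =
        ∑ l, m l * Real.log (nsq (g *ᵥ a l)) + ∑ l, m l * Real.log (1 + s * τ l) := by
      rw [← Finset.sum_add_distrib]
      refine Finset.sum_congr rfl (fun l _ => ?_)
      rw [hnsq, Real.log_mul (hn l).ne' (hpos l).ne']
      ring
    rw [e6] at h1
    have e7 : ∑ l, m l * Real.log (1 + s * τ l) ≤ s * S := by
      rw [hS, Finset.mul_sum]
      refine Finset.sum_le_sum (fun l _ => ?_)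
      have := Real.log_le_sub_one_of_pos (hpos l)
      have h' : Real.log (1 + s * τ l) ≤ s * τ l := by linarith
      have := mul_le_mul_of_nonneg_left h' (hm l).le
      linarith
    have e8 := Real.one_sub_inv_le_log_of_pos hs1
    have e9 : K * (1 - (1 + s)⁻¹) ≤ s * S := by
      have := mul_le_mul_of_nonneg_left e8 hK0
      linarith
    have e10 := mul_le_mul_of_nonneg_right e9 hs1.le
    have e11 : K * (1 - (1 + s)⁻¹) * (1 + s) = K * s := by
      field_simp
      ring
    rw [e11] at e10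
    linarith
  have goal : S = K := by
    have hS1 : 0 < 2 * (S + 1) := by linarith
    rcases lt_trichotomy S K with h | h | h
    · exfalso
      obtain ⟨s, hs⟩ : ∃ s, s = (K - S) / (2 * (S + 1)) := ⟨_, rfl⟩
      have s0 : 0 < s := by rw [hs]; exact div_pos (by linarith) hS1
      have h1 := main s (by linarith)
      have h2 : K ≤ (1 + s) * S := by
        have h3 : s * K ≤ s * ((1 + s) * S) := by linarith
        exact le_of_mul_le_mul_left h3 s0
      have h4 : s * (2 * (S + 1)) = K - S := by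
        rw [hs]
        field_simp
      have h5 : s * S ≤ (K - S) / 2 - s := by linarith
      linarith
    · exact h
    · exfalso
      obtain ⟨s, hs⟩ : ∃ s, s = (S - K) / (2 * (S + 1)) := ⟨_, rfl⟩
      have s0 : 0 < s := by rw [hs]; exact div_pos (by linarith) hS1
      have s1 : s < 1 := by
        rw [hs, div_lt_one hS1]
        linarith
      have h1 := main (-s) (by linarith)
      have h2 : (1 - s) * S ≤ K := by
        have h3 : s * ((1 - s) * S) ≤ s * K := by linarith
        exact le_of_mul_le_mul_left h3 s0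
      have h4 : s * (2 * (S + 1)) = S - K := by
        rw [hs]
        field_simp
      have h5 : s * S = (S - K) / 2 - s := by linarith
      linarith
  rw [← hK, ← goal, hS]
  exact Finset.sum_congr rfl (fun l _ => by rw [hτ])

end CRI_

open CRI_ in
theorem cri_proof : Stmt_CRI := by
  intro L _ a m g hm ha hg hmin v
  by_cases hv : v = 0
  · subst hv
    have h0 : nsq (0 : Fin 3 → ℂ) = 0 := nsq_eq_zero.2 rfl
    rw [h0, mul_zero]
    refine Finset.sum_eq_zero (fun l _ => ?_)
    have : hip (g *ᵥ a l) 0 = 0 := by simp [hip]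
    rw [this, zero_div, mul_zero]
  · have hp := nsq_pos hv
    obtain ⟨r, hr⟩ : ∃ r : ℝ, r = (Real.sqrt (nsq v))⁻¹ := ⟨_, rfl⟩
    have hr2 : r ^ 2 * nsq v = 1 := by
      rw [hr, inv_pow, Real.sq_sqrt hp.le, inv_mul_cancel₀ hp.ne']
    have h1 : nsq ((r : ℂ) • v) = 1 := by
      rw [nsq_smul, Complex.normSq_ofReal, ← hr2]
      ring
    have h2 := key a m g hm ha hg hmin ((r : ℂ) • v) h1
    have h3 : ∀ l, m l * (hip (g *ᵥ a l) ((r : ℂ) • v) / nsq (g *ᵥ a l)) =
        r ^ 2 * (m l * (hip (g *ᵥ a l) v / nsq (g *ᵥ a l))) := by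
      intro l
      rw [hip_smul_right, Complex.normSq_ofReal]
      ring
    rw [Finset.sum_congr rfl (fun l _ => h3 l), ← Finset.mul_sum] at h2
    rw [← h2]
    calc ∑ l, m l * (hip (g *ᵥ a l) v / nsq (g *ᵥ a l)) =
        (r ^ 2 * nsq v) * ∑ l, m l * (hip (g *ᵥ a l) v / nsq (g *ᵥ a l)) := by rw [hr2, one_mul]
      _ = _ := by ring

end Pool.Agent.MUB
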