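import Mathlib

/-!
Classification of four mutually unbiased orthonormal bases of `C^3`.
-/

set_option autoImplicit false
open Matrix ComplexConjugate

namespace Pool.Agent.MUB

namespace Classify_

/-- A primitive cube root of unity. -/
noncomputable def om : ℂ := Complex.exp (2 * (Real.pi : ℂ) * Complex.I / 3)

/-- The vectors of the four classes of the Hesse configuration. -/
noncomputable def H (c : Fin 4) (a : Fin 3) : Fin 3 → ℂ :=
  if ((c : Fin 4) : ℕ) = 3 then (Pi.single a (1 : ℂ) : Fin 3 → ℂ)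
  else ![(1 : ℂ), Complex.exp (2 * (Real.pi : ℂ) * Complex.I / 3) ^ (a : ℕ),
         Complex.exp (2 * (Real.pi : ℂ) * Complex.I / 3) ^ ((c : ℕ) + 2 * (a : ℕ))]

lemma om_prim : IsPrimitiveRoot om 3 := by
  have h := Complex.isPrimitiveRoot_exp 3 (by norm_num)
  have e : (2 * (Real.pi : ℂ) * Complex.I / ((3 : ℕ) : ℂ)) = 2 * (Real.pi : ℂ) * Complex.I / 3 := by
    norm_num
  rw [e] at h
  exact h

lemma om_cube : om ^ 3 = 1 := om_prim.pow_eq_one

lemma om_ne_one : om ≠ 1 := om_prim.ne_one (by norm_num)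

lemma om_ne_zero : om ≠ 0 := by
  intro h
  have := om_cube
  rw [h] at this
  norm_num at this

lemma om_sum : 1 + om + om ^ 2 = 0 := by
  have h := om_cube
  have h1 : (om - 1) * (1 + om + om ^ 2) = 0 := by linear_combination h
  rcases mul_eq_zero.mp h1 with h2 | h2
  · exact absurd (sub_eq_zero.mp h2) om_ne_one
  · exact h2

lemma om_sq_ne_one : om ^ 2 ≠ 1 := by
  intro h
  have h1 := om_cube
  have : om = 1 := by
    have h2 : om ^ 3 = om ^ 2 * om := by ring
    rw [h2, h, one_mul] at h1
    exact h1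
  exact om_ne_one this

/-- Every cube root of unity is a power of `om`. -/
lemma cube_root (z : ℂ) (hz : z ^ 3 = 1) : ∃ k : Fin 3, z = om ^ (k : ℕ) := by
  have hs := om_sum
  have hc := om_cube
  have h : (z - 1) * ((z - om) * (z - om ^ 2)) = 0 := by
    linear_combination hz + (- z ^ 2 + z) * hs + (z - 1) * hc
  rcases mul_eq_zero.mp h with h1 | h1
  · exact ⟨0, by simpa using sub_eq_zero.mp h1⟩
  · rcases mul_eq_zero.mp h1 with h2 | h2
    · exact ⟨1, by simpa using sub_eq_zero.mp h2⟩
    · exact ⟨2, by simpa using sub_eq_zero.mp h2⟩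

lemma om_pow_inj (j k : Fin 3) (h : om ^ (j : ℕ) = om ^ (k : ℕ)) : j = k := by
  have := om_prim.pow_inj j.2 k.2 h
  exact Fin.ext this

lemma om_pow_mod (n : ℕ) : om ^ n = om ^ (n % 3) := by
  conv_lhs => rw [← Nat.div_add_mod n 3]
  rw [pow_add, pow_mul, om_cube, one_pow, one_mul]

/-- `1 + x + y = 0` with unimodular `x`, `y`. -/
lemma two_unit (x y : ℂ) (hx : conj x * x = 1) (hy : conj y * y = 1) (h : 1 + x + y = 0) :
    x * y = 1 ∧ x ^ 3 = 1 := by
  have h' : 1 + conj x + conj y = 0 := by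
    have := congrArg conj h
    simpa using this
  have h1 : x * y = 1 := by
    have e : x * y * (1 + conj x + conj y) = x * y + (conj x * x) * y + (conj y * y) * x := by ring
    rw [h', hx, hy] at e
    linear_combination -e - h
  refine ⟨h1, ?_⟩
  have h2 : x ^ 2 + x + 1 = 0 := by
    linear_combination x * h - h1
  linear_combination (x - 1) * h2

/-- The key step: `p + conj q + conj p q = 0`. -/
lemma key_zero (p q : ℂ) (hp : conj p * p = 1) (hq : conj q * q = 1)
    (hs : p + conj q + conj p * q = 0) : p ^ 3 = 1 ∧ q ^ 3 = 1 ∧ p * q ≠ 1 := by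
  have hs' : conj p + q + p * conj q = 0 := by
    have := congrArg conj hs
    simpa using this
  have hp0 : p ≠ 0 := by
    intro h
    rw [h] at hp
    simp at hp
  have hq0 : q ≠ 0 := by
    intro h
    rw [h] at hq
    simp at hq
  have hcp : conj p = p⁻¹ := eq_inv_of_mul_eq_one_left hp
  have hcq : conj q = q⁻¹ := eq_inv_of_mul_eq_one_left hq
  rw [hcp, hcq] at hs hs'
  have e1 : p ^ 2 * q + p + q ^ 2 = 0 := by
    have : p ^ 2 * q + p + q ^ 2 = (p * q) * (p + q⁻¹ + p⁻¹ * q) := by
      field_simp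
    rw [this, hs, mul_zero]
  have e2 : q + p * q ^ 2 + p ^ 2 = 0 := by
    have : q + p * q ^ 2 + p ^ 2 = (p * q) * (p⁻¹ + q + p * q⁻¹) := by
      field_simp
    rw [this, hs', mul_zero]
  have e3 : p ^ 3 = 1 := by
    have : q * (p ^ 3 - 1) = 0 := by
      linear_combination p * e1 - e2
    rcases mul_eq_zero.mp this with h | h
    · exact absurd h hq0
    · exact sub_eq_zero.mp h
  have e4 : q ^ 3 = 1 := by
    have : p * (q ^ 3 - 1) = 0 := by
      linear_combination q * e2 - e1
    rcases mul_eq_zero.mp this with h | h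
    · exact absurd h hp0
    · exact sub_eq_zero.mp h
  refine ⟨e3, e4, ?_⟩
  intro h
  have h3 : 3 * p = 0 := by
    have hq2 : q = p ^ 2 := by
      have : q = p ^ 3 * q := by rw [e3, one_mul]
      rw [this]
      linear_combination p ^ 2 * h
    rw [hq2] at e1
    linear_combination e1 - 2 * p * e3
  rcases mul_eq_zero.mp h3 with h4 | h4
  · norm_num at h4
  · exact hp0 h4


/-- Three conditions `|1 + x p + x^2 q|^2 = 3` (for `x` a cube root of unity) force
`p + conj q + conj p q = 0`. -/
lemma three_cond (p q : ℂ) (hp : conj p * p = 1) (hq : conj q * q = 1)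
    (h : ∀ k : Fin 3, Complex.normSq (1 + om ^ (k : ℕ) * p + om ^ (2 * (k : ℕ)) * q) = 3) :
    p + conj q + conj p * q = 0 := by
  have hco : conj om = om ^ 2 := by
    have h1 : Complex.normSq om = 1 := by
      have h2 : ‖om‖ = 1 := om_prim.norm'_eq_one (by norm_num)
      rw [Complex.normSq_eq_norm_sq, h2]; norm_num
    have h3 : conj om * om = 1 := by
      rw [mul_comm, Complex.mul_conj, h1]; norm_num
    have h4 := om_cube
    have : om * (conj om - om ^ 2) = 0 := by linear_combination h3 - h4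
    rcases mul_eq_zero.mp this with h5 | h5
    · exact absurd h5 om_ne_zero
    · exact sub_eq_zero.mp h5
  have hc := om_cube
  have hs := om_sum
  have H : ∀ k : Fin 3, (1 + om ^ (k : ℕ) * p + om ^ (2 * (k : ℕ)) * q) *
      conj (1 + om ^ (k : ℕ) * p + om ^ (2 * (k : ℕ)) * q) = 3 := by
    intro k
    rw [Complex.mul_conj, h k]
    norm_num
  have H0 := H 0
  have H1 := H 1
  simp only [Fin.val_zero, Fin.val_one, pow_zero, mul_zero, mul_one, one_mul, pow_one, map_add,
    map_mul, map_one, map_pow, hco] at H0 H1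
  set s := p + conj q + conj p * q with hsdef
  have hsc : conj s = conj p + q + p * conj q := by
    rw [hsdef]; simp
  have E0 : s + conj s = 0 := by
    rw [hsc, hsdef]
    linear_combination H0 - hp - hq
  have E1 : om * s + om ^ 2 * conj s = 0 := by
    rw [hsc, hsdef]
    linear_combination H1 - (om ^ 3) * hp - (om ^ 6) * hq - 2 * hc -
      (om * conj q + om * conj p * q + om ^ 2 * p * conj q + om ^ 3) * hc
  have E2 : om * (1 - om) * s = 0 := by
    linear_combination E1 - om ^ 2 * E0
  rcases mul_eq_zero.mp E2 with h1 | h1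
  · rcases mul_eq_zero.mp h1 with h2 | h2
    · exact absurd h2 om_ne_zero
    · exact absurd (sub_eq_zero.mp h2).symm om_ne_one
  · exact h1


/-- The normal form in terms of the two free coordinates. -/
lemma normal (P Q : Fin 3 → Fin 3 → ℂ)
    (hP : ∀ i a, conj (P i a) * P i a = 1) (hQ : ∀ i a, conj (Q i a) * Q i a = 1)
    (ho : ∀ i a b, a ≠ b → 1 + conj (P i a) * P i b + conj (Q i a) * Q i b = 0)
    (hc : ∀ i j a b, i ≠ j →
      Complex.normSq (1 + conj (P i a) * P j b + conj (Q i a) * Q j b) = 3)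
    (hP0 : P 0 0 = 1) (hQ0 : Q 0 0 = 1) :
    ∃ (σ : Fin 3 → Fin 3) (τ : Fin 3 → Fin 3 → Fin 3), Function.Injective σ ∧
      (∀ i, Function.Injective (τ i)) ∧
      ∀ i a, P i a = om ^ (τ i a : ℕ) ∧ Q i a = om ^ ((σ i : ℕ) + 2 * (τ i a : ℕ)) := by
  have hP1 : ∀ i a, P i a ≠ 0 := by
    intro i a h
    have := hP i a
    rw [h] at this
    simp at this
  have hQ1 : ∀ i a, Q i a ≠ 0 := by
    intro i a h
    have := hQ i a
    rw [h] at this
    simp at this
  -- the ratio facts inside a class
  have hrat : ∀ i a b, a ≠ b → P i b * Q i b = P i a * Q i a ∧ P i b ≠ P i a := by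
    intro i a b hab
    have h := ho i a b hab
    have hx : conj (conj (P i a) * P i b) * (conj (P i a) * P i b) = 1 := by
      have e : conj (conj (P i a) * P i b) * (conj (P i a) * P i b) =
          (conj (P i a) * P i a) * (conj (P i b) * P i b) := by
        simp only [map_mul, Complex.conj_conj]; ring
      rw [e, hP, hP, one_mul]
    have hy : conj (conj (Q i a) * Q i b) * (conj (Q i a) * Q i b) = 1 := by
      have e : conj (conj (Q i a) * Q i b) * (conj (Q i a) * Q i b) =
          (conj (Q i a) * Q i a) * (conj (Q i b) * Q i b) := by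
        simp only [map_mul, Complex.conj_conj]; ring
      rw [e, hQ, hQ, one_mul]
    obtain ⟨h1, h2⟩ := two_unit _ _ hx hy h
    constructor
    · have e : P i b * Q i b = (P i a * Q i a) *
          ((conj (P i a) * P i b) * (conj (Q i a) * Q i b)) := by
        have e1 : (P i a * Q i a) * ((conj (P i a) * P i b) * (conj (Q i a) * Q i b)) =
          (conj (P i a) * P i a) * (conj (Q i a) * Q i a) * (P i b * Q i b) := by ring
        rw [e1, hP, hQ]; ring
      rw [e, h1, mul_one]
    · intro hpe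
      rw [hpe, hP, one_mul] at h1
      rw [hpe, hP, h1] at h
      norm_num at h
  -- class 0
  have h0 : ∀ a, P 0 a ^ 3 = 1 ∧ Q 0 a = P 0 a ^ 2 := by
    intro a
    have hpq : P 0 a * Q 0 a = 1 := by
      by_cases ha : a = 0
      · rw [ha, hP0, hQ0, one_mul]
      · rw [(hrat 0 0 a (fun h => ha h.symm)).1, hP0, hQ0, one_mul]
    have h3 : P 0 a ^ 3 = 1 := by
      by_cases ha : a = 0
      · rw [ha, hP0, one_pow]
      · have h := ho 0 0 a (fun h => ha h.symm)
        rw [hP0, hQ0] at h
        simp only [map_one, one_mul] at h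
        exact (two_unit _ _ (hP 0 a) (hQ 0 a) h).2
    refine ⟨h3, ?_⟩
    have : P 0 a * (Q 0 a - P 0 a ^ 2) = 0 := by linear_combination hpq - h3
    rcases mul_eq_zero.mp this with h4 | h4
    · exact absurd h4 (hP1 0 a)
    · exact sub_eq_zero.mp h4
  have hinj : ∀ i, Function.Injective (P i) := by
    intro i a b h
    by_contra hab
    exact (hrat i a b hab).2 h.symm
  choose τ0 hτ0 using fun a => cube_root (P 0 a) (h0 a).1
  have hτ0i : Function.Injective τ0 := by
    intro a b h
    apply hinj 0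
    rw [hτ0 a, hτ0 b, h]
  have hτ0s : Function.Surjective τ0 := Finite.surjective_of_injective hτ0i
  -- the other classes
  have hoth : ∀ i a, i ≠ 0 → P i a ^ 3 = 1 ∧ Q i a ^ 3 = 1 ∧ P i a * Q i a ≠ 1 := by
    intro i a hi
    apply key_zero _ _ (hP i a) (hQ i a)
    apply three_cond _ _ (hP i a) (hQ i a)
    intro k
    -- choose the vector of class 0 whose conjugate is om^k
    have hcj : ∀ b, conj (P 0 b) = P 0 b ^ 2 := by
      intro b
      have : P 0 b * (conj (P 0 b) - P 0 b ^ 2) = 0 := by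
        linear_combination hP 0 b - (h0 b).1
      rcases mul_eq_zero.mp this with h4 | h4
      · exact absurd h4 (hP1 0 b)
      · exact sub_eq_zero.mp h4
    have hcq : ∀ b, conj (Q 0 b) = P 0 b := by
      intro b
      rw [(h0 b).2, map_pow, hcj]
      linear_combination P 0 b * (h0 b).1
    obtain ⟨k', hk'⟩ := cube_root ((om ^ (k : ℕ)) ^ 2) (by
      rw [← pow_mul, ← pow_mul, show (k : ℕ) * (2 * 3) = 3 * (k * 2) by ring, pow_mul, om_cube,
        one_pow])
    obtain ⟨b, hb⟩ := hτ0s k'
    have hPb : P 0 b = (om ^ (k : ℕ)) ^ 2 := by rw [hτ0 b, hb, hk']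
    have hz3 : (om ^ (k : ℕ)) ^ 3 = 1 := by
      rw [← pow_mul, mul_comm, pow_mul, om_cube, one_pow]
    have h := hc 0 i b a (fun h => hi h.symm)
    rw [hcj, hcq, hPb] at h
    have e1 : ((om ^ (k : ℕ)) ^ 2) ^ 2 = om ^ (k : ℕ) := by
      linear_combination (om ^ (k : ℕ)) * hz3
    rw [e1] at h
    rw [mul_comm 2 (k : ℕ), pow_mul]
    exact h
  have hcube : ∀ i a, P i a ^ 3 = 1 ∧ (P i a * Q i a) ^ 3 = 1 := by
    intro i a
    by_cases hi : i = 0
    · subst hi
      obtain ⟨h1, h2⟩ := h0 a
      refine ⟨h1, ?_⟩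
      rw [h2]
      linear_combination (P 0 a ^ 6 + P 0 a ^ 3 + 1) * h1
    · obtain ⟨h1, h2, -⟩ := hoth i a hi
      refine ⟨h1, ?_⟩
      rw [mul_pow, h1, h2, one_mul]
  choose τ hτ using fun i a => cube_root (P i a) (hcube i a).1
  choose σ hσ using fun i => cube_root (P i 0 * Q i 0) (hcube i 0).2
  have hPQ : ∀ i a, P i a * Q i a = om ^ (σ i : ℕ) := by
    intro i a
    rw [← hσ i]
    by_cases ha : a = 0
    · rw [ha]
    · exact (hrat i 0 a (fun h => ha h.symm)).1
  have hτi : ∀ i, Function.Injective (τ i) := by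
    intro i a b h
    apply hinj i
    rw [hτ i a, hτ i b, h]
  have hfin : ∀ i a, P i a = om ^ (τ i a : ℕ) ∧
      Q i a = om ^ ((σ i : ℕ) + 2 * (τ i a : ℕ)) := by
    intro i a
    refine ⟨hτ i a, ?_⟩
    have h1 := hPQ i a
    have h2 := (hcube i a).1
    rw [pow_add, pow_mul', ← hτ i a, ← h1]
    linear_combination (- Q i a) * h2
  refine ⟨σ, τ, ?_, hτi, hfin⟩
  intro i j hij
  by_contra hne
  have hsurj : Function.Surjective (τ j) := Finite.surjective_of_injective (hτi j)
  obtain ⟨b, hb⟩ := hsurj (τ i 0)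
  have h := hc i j 0 b hne
  have e1 : P j b = P i 0 := by rw [hτ j b, hb, ← hτ i 0]
  have e2 : Q j b = Q i 0 := by
    rw [(hfin j b).2, (hfin i 0).2, hb, hij]
  rw [e1, e2, hP, hQ] at h
  norm_num [Complex.normSq_apply] at h

end Classify_

open Classify_ in
/-- Four mutually unbiased orthonormal bases of `C^3` are carried by an invertible linear map onto
the four classes of the Hesse configuration, up to scalars. -/
theorem classify (u : Fin 4 → Fin 3 → (Fin 3 → ℂ))
    (hon : ∀ i a b, star (u i a) ⬝ᵥ u i b = if a = b then 1 else 0)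
    (hub : ∀ i j a b, i ≠ j → Complex.normSq (star (u i a) ⬝ᵥ u j b) = 1 / 3) :
    ∃ (g : (Fin 3 → ℂ) ≃ₗ[ℂ] (Fin 3 → ℂ)) (σ : Equiv.Perm (Fin 4))
      (τ : Fin 4 → Equiv.Perm (Fin 3)),
      ∀ i a, ∃ t : ℂ, t ≠ 0 ∧ g (u i a) = t • H (σ i) (τ i a) := by
  classical
  -- the unitary matrix with rows `star (u 3 a)`
  set U : Matrix (Fin 3) (Fin 3) ℂ := Matrix.of (fun a c => star (u 3 a c)) with hU
  have hUU : U * Uᴴ = 1 := by
    ext a b
    have h := hon 3 a b
    simp only [Matrix.mul_apply, Matrix.conjTranspose_apply, hU, Matrix.of_apply, star_star,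
      Matrix.one_apply]
    rw [← h]
    simp only [dotProduct, Pi.star_apply]
  have hUU' : Uᴴ * U = 1 := mul_eq_one_comm.mp hUU
  have hinner : ∀ x y : Fin 3 → ℂ, star (U *ᵥ x) ⬝ᵥ (U *ᵥ y) = star x ⬝ᵥ y := by
    intro x y
    rw [Matrix.star_mulVec, ← Matrix.dotProduct_mulVec, Matrix.mulVec_mulVec, hUU',
      Matrix.one_mulVec]
  -- coordinates
  set w : Fin 4 → Fin 3 → (Fin 3 → ℂ) := fun i a => U *ᵥ u i a with hw
  have hwc : ∀ i a b, w i a b = star (u 3 b) ⬝ᵥ u i a := by
    intro i a b
    simp only [hw, Matrix.mulVec, dotProduct, hU, Matrix.of_apply, Pi.star_apply]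
  have hw3 : ∀ a, w 3 a = Pi.single a 1 := by
    intro a
    ext b
    rw [hwc, hon, Pi.single_apply]
  have hwn : ∀ i a b, i ≠ 3 → Complex.normSq (w i a b) = 1 / 3 := by
    intro i a b hi
    rw [hwc]
    exact hub 3 i b a (fun h => hi h.symm)
  have hw0 : ∀ i a b, i ≠ 3 → w i a b ≠ 0 := by
    intro i a b hi h
    have := hwn i a b hi
    rw [h] at this
    norm_num at this
  have hconj : ∀ i a b, i ≠ 3 → conj (w i a b) * w i a b = 1 / 3 := by
    intro i a b hi
    rw [mul_comm, Complex.mul_conj, hwn i a b hi]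
    norm_num
  -- the first vector of class 0
  set x : Fin 3 → ℂ := w 0 0 with hx
  have hx0 : ∀ b, x b ≠ 0 := fun b => hw0 0 0 b (by decide)
  have hxc : ∀ b, conj (x b) * x b = 1 / 3 := fun b => hconj 0 0 b (by decide)
  -- normalised coordinates
  set e : Fin 3 → Fin 4 := fun i => Fin.castSucc i with he
  have he3 : ∀ i, e i ≠ 3 := by
    intro i
    fin_cases i <;> decide
  set z : Fin 3 → Fin 3 → (Fin 3 → ℂ) := fun i a b => w (e i) a b / x b with hz
  have hz0 : ∀ i a b, z i a b ≠ 0 := fun i a b => div_ne_zero (hw0 _ a b (he3 i)) (hx0 b)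
  have hzc : ∀ i a b, conj (z i a b) * z i a b = 1 := by
    intro i a b
    have h1 := hconj (e i) a b (he3 i)
    have h2 := hxc b
    simp only [hz, map_div₀]
    rw [div_mul_div_comm, h1, h2]
    norm_num
  have hzi : ∀ i j a b, ∑ c, conj (z i a c) * z j b c = 3 * (star (u (e i) a) ⬝ᵥ u (e j) b) := by
    intro i j a b
    have h1 : star (u (e i) a) ⬝ᵥ u (e j) b = ∑ c, conj (w (e i) a c) * w (e j) b c := by
      rw [← hinner]
      simp only [dotProduct, Pi.star_apply, hw]
      rfl
    rw [h1, Finset.mul_sum]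
    apply Finset.sum_congr rfl
    intro c _
    have h2 := hxc c
    have h3 : conj (x c) ≠ 0 := by
      intro h
      rw [h] at h2
      norm_num at h2
    simp only [hz, map_div₀]
    rw [div_mul_div_comm, h2]
    ring
  -- the two free coordinates
  set P : Fin 3 → Fin 3 → ℂ := fun i a => z i a 1 / z i a 0 with hPd
  set Q : Fin 3 → Fin 3 → ℂ := fun i a => z i a 2 / z i a 0 with hQd
  have hcz : ∀ i a b, conj (z i a b) ≠ 0 := by
    intro i a b h
    have := hzc i a b
    rw [h] at this
    simp at this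
  have hP : ∀ i a, conj (P i a) * P i a = 1 := by
    intro i a
    simp only [hPd, map_div₀]
    rw [div_mul_div_comm, hzc, hzc, div_one]
  have hQ : ∀ i a, conj (Q i a) * Q i a = 1 := by
    intro i a
    simp only [hQd, map_div₀]
    rw [div_mul_div_comm, hzc, hzc, div_one]
  have hsum : ∀ i j a b, 1 + conj (P i a) * P j b + conj (Q i a) * Q j b =
      (∑ c, conj (z i a c) * z j b c) / (conj (z i a 0) * z j b 0) := by
    intro i j a b
    have h1 := hcz i a 0
    have h2 := hz0 j b 0
    simp only [hPd, hQd, map_div₀, Fin.sum_univ_three]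
    field_simp
  have ho : ∀ i a b, a ≠ b → 1 + conj (P i a) * P i b + conj (Q i a) * Q i b = 0 := by
    intro i a b hab
    rw [hsum, hzi, hon, if_neg hab, mul_zero, zero_div]
  have hnz : ∀ i a b, Complex.normSq (z i a b) = 1 := by
    intro i a b
    have h := hzc i a b
    rw [mul_comm, Complex.mul_conj] at h
    exact_mod_cast h
  have hc : ∀ i j a b, i ≠ j →
      Complex.normSq (1 + conj (P i a) * P j b + conj (Q i a) * Q j b) = 3 := by
    intro i j a b hij
    have hij' : e i ≠ e j := by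
      intro h
      exact hij (Fin.castSucc_injective 3 h)
    rw [hsum, hzi, map_div₀, map_mul, map_mul, hub _ _ _ _ hij', Complex.normSq_conj, hnz, hnz]
    norm_num [Complex.normSq_apply]
  have hP0 : P 0 0 = 1 := by
    have h1 : ∀ b, z 0 0 b = 1 := by
      intro b
      exact div_self (hx0 b)
    simp only [hPd, h1, div_one]
  have hQ0 : Q 0 0 = 1 := by
    have h1 : ∀ b, z 0 0 b = 1 := by
      intro b
      exact div_self (hx0 b)
    simp only [hQd, h1, div_one]
  obtain ⟨σ, τ, hσ, hτ, hPQ⟩ := normal P Q hP hQ ho hc hP0 hQ0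
  -- the linear map
  have hdet : IsUnit U.det := by
    have h := congrArg Matrix.det hUU
    rw [Matrix.det_mul, Matrix.det_one] at h
    exact IsUnit.of_mul_eq_one _ h
  set D : Matrix (Fin 3) (Fin 3) ℂ := Matrix.diagonal (fun b => (x b)⁻¹) with hD
  have hDdet : IsUnit D.det := by
    rw [hD, Matrix.det_diagonal]
    rw [isUnit_iff_ne_zero]
    exact Finset.prod_ne_zero_iff.mpr (fun b _ => inv_ne_zero (hx0 b))
  have hDU : IsUnit (D * U).det := by
    rw [Matrix.det_mul]
    exact hDdet.mul hdet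
  have hg : ∀ v, (D * U) *ᵥ v = fun b => (U *ᵥ v) b / x b := by
    intro v
    rw [← Matrix.mulVec_mulVec]
    ext b
    rw [hD, Matrix.mulVec_diagonal]
    rw [div_eq_inv_mul]
  -- the permutations
  set s : Fin 4 → Fin 4 := ![e (σ 0), e (σ 1), e (σ 2), 3] with hs
  set r : Fin 4 → Fin 3 → Fin 3 := ![τ 0, τ 1, τ 2, id] with hr
  have hcase : ∀ i : Fin 4, i = 3 ∨ ∃ j : Fin 3, i = e j := by
    intro i
    fin_cases i
    · exact Or.inr ⟨0, rfl⟩
    · exact Or.inr ⟨1, rfl⟩
    · exact Or.inr ⟨2, rfl⟩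
    · exact Or.inl rfl
  have hse : ∀ j, s (e j) = e (σ j) := by
    intro j
    fin_cases j <;> rfl
  have hs3 : s 3 = 3 := rfl
  have hre : ∀ j, r (e j) = τ j := by
    intro j
    fin_cases j <;> rfl
  have hr3 : r 3 = id := rfl
  have hsi : Function.Injective s := by
    intro i j h
    rcases hcase i with hi | ⟨i', hi⟩ <;> rcases hcase j with hj | ⟨j', hj⟩
    · rw [hi, hj]
    · rw [hi, hj, hs3, hse] at h
      exact absurd h.symm (he3 _)
    · rw [hi, hj, hs3, hse] at h
      exact absurd h (he3 _)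
    · rw [hi, hj, hse, hse] at h
      rw [hi, hj, hσ (Fin.castSucc_injective 3 h)]
  have hri : ∀ i, Function.Injective (r i) := by
    intro i
    rcases hcase i with hi | ⟨i', hi⟩
    · rw [hi, hr3]; exact Function.injective_id
    · rw [hi, hre]; exact hτ i'
  refine ⟨Matrix.toLinearEquiv' (D * U) (Matrix.invertibleOfIsUnitDet _ hDU),
    Equiv.ofBijective s (Finite.injective_iff_bijective.mp hsi),
    fun i => Equiv.ofBijective (r i) (Finite.injective_iff_bijective.mp (hri i)), ?_⟩
  intro i a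
  have hgv : ∀ v, (Matrix.toLinearEquiv' (D * U) (Matrix.invertibleOfIsUnitDet _ hDU)) v =
      fun b => (U *ᵥ v) b / x b := by
    intro v
    rw [← hg]
    rfl
  rw [hgv]
  simp only [Equiv.ofBijective_apply]
  rcases hcase i with hi | ⟨j, hi⟩
  · refine ⟨(x a)⁻¹, inv_ne_zero (hx0 a), ?_⟩
    rw [hi, hs3, hr3]
    have h1 : U *ᵥ u 3 a = Pi.single a 1 := hw3 a
    rw [h1]
    ext b
    have h2 : H 3 (id a) = Pi.single a 1 := by
      unfold H
      rw [if_pos (by decide)]
      rfl
    rw [h2, Pi.smul_apply, smul_eq_mul, Pi.single_apply]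
    split_ifs with h3
    · rw [h3]; ring
    · ring
  · refine ⟨z j a 0, hz0 j a 0, ?_⟩
    rw [hi, hse, hre]
    have h3 : H (e (σ j)) (τ j a) = ![(1 : ℂ), P j a, Q j a] := by
      unfold H
      have h4 : ((e (σ j) : Fin 4) : ℕ) = (σ j : ℕ) := rfl
      rw [if_neg (by rw [h4]; exact (σ j).2.ne), (hPQ j a).1, (hPQ j a).2, h4]
      rfl
    rw [h3]
    ext b
    have h5 : (U *ᵥ u (e j) a) b / x b = z j a b := rfl
    rw [h5]
    have h6 := hz0 j a 0
    fin_cases b
    · simp
    · simp only [hPd, Pi.smul_apply, smul_eq_mul]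
      change z j a 1 = z j a 0 * (z j a 1 / z j a 0)
      field_simp
    · simp only [hQd, Pi.smul_apply, smul_eq_mul]
      change z j a 2 = z j a 0 * (z j a 2 / z j a 0)
      field_simp

end Pool.Agent.MUB
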