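import Pool.Agent.MUB.Stmts

/-!
# Module DIM of project MUB (MP_51574c_co): three lines in each class
-/

set_option autoImplicit false

open scoped Classical Matrix LinearAlgebra.Projectivization ComplexOrder
open Finset Matrix

namespace Pool.Agent.MUB

namespace DIM_

/-- the projector on the line spanned by `u` (for a unit vector `u`) -/
noncomputable def P (u : Fin 3 → ℂ) : Matrix (Fin 3) (Fin 3) ℂ := Matrix.vecMulVec u (star u)

lemma P_apply (u : Fin 3 → ℂ) (i j : Fin 3) : P u i j = u i * star (u j) := rfl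

lemma P_conj (u : Fin 3 → ℂ) : (P u)ᴴ = P u := by
  ext i j
  simp [P_apply, Matrix.conjTranspose_apply, mul_comm]

lemma trace_P (u v : Fin 3 → ℂ) : Matrix.trace (P u * P v) = (hip u v : ℂ) := by
  unfold hip
  rw [Complex.normSq_eq_conj_mul_self]
  simp only [Matrix.trace, Matrix.diag_apply, Matrix.mul_apply, P_apply, dotProduct,
    Fin.sum_univ_three, Pi.star_apply, RCLike.star_def, map_add, map_mul, Complex.conj_conj]
  ring

lemma cramer3 (A1 A2 A3 A4 : Fin 3 → ℂ) :
    (A3 ⬝ᵥ crossProduct A1 A2) • A4 = (A4 ⬝ᵥ crossProduct A2 A3) • A1 +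
      (A4 ⬝ᵥ crossProduct A3 A1) • A2 + (A4 ⬝ᵥ crossProduct A1 A2) • A3 := by
  funext i
  fin_cases i <;>
    simp [cross_apply, dotProduct, Fin.sum_univ_three] <;> ring

/-- evaluation of the form of a matrix -/
lemma eval_P (u v w : Fin 3 → ℂ) :
    star v ⬝ᵥ (P u *ᵥ w) = star (star u ⬝ᵥ v) * (star u ⬝ᵥ w) := by
  simp only [Matrix.mulVec, P_apply, dotProduct, Fin.sum_univ_three, Pi.star_apply,
    star_add, star_mul', star_star]
  ring

lemma cross_star (u v : Fin 3 → ℂ) :
    crossProduct (star u) (star v) = star (crossProduct u v) := by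
  funext i
  fin_cases i <;> simp [cross_apply]

lemma cross_zero_of_smul {A B : Fin 3 → ℂ} {c d : ℂ} (hc : c ≠ 0) (h : c • A = d • B) :
    crossProduct A B = 0 := by
  have h1 : c • crossProduct A B = 0 := by
    have : crossProduct (c • A) B = crossProduct (d • B) B := by rw [h]
    rw [LinearMap.map_smul₂, LinearMap.map_smul₂, cross_self, smul_zero] at this
    exact this
  exact (smul_eq_zero.1 h1).resolve_left hc

/-- linear independence of the differences of four projectors -/
lemma indep (u : Fin 3 → Fin 3 → ℂ) (z : Fin 3 → ℂ)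
    (hdet : star (u 2) ⬝ᵥ crossProduct (star (u 0)) (star (u 1)) ≠ 0)
    (hz : ∀ k, crossProduct z (u k) ≠ 0) :
    LinearIndependent ℂ (fun k : Fin 3 => P (u k) - P z) := by
  rw [Fintype.linearIndependent_iff]
  intro c hc
  have key : ∀ v w : Fin 3 → ℂ, ∑ k, c k * (star (star (u k) ⬝ᵥ v) * (star (u k) ⬝ᵥ w)) =
      (∑ k, c k) * (star (star z ⬝ᵥ v) * (star z ⬝ᵥ w)) := by
    intro v w
    have h1 : star v ⬝ᵥ ((∑ k, c k • (P (u k) - P z)) *ᵥ w) = 0 := by
      rw [hc]; simp
    rw [Matrix.sum_mulVec, dotProduct_sum] at h1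
    simp only [Matrix.smul_mulVec, Matrix.sub_mulVec, dotProduct_smul, dotProduct_sub, eval_P,
      smul_eq_mul] at h1
    rw [Finset.sum_mul, ← sub_eq_zero, ← Finset.sum_sub_distrib, ← h1]
    exact Finset.sum_congr rfl (fun k _ => by ring)
  -- dual basis
  set D := star (u 2) ⬝ᵥ crossProduct (star (u 0)) (star (u 1)) with hD
  obtain ⟨V, hV, hVc⟩ : ∃ V : Fin 3 → Fin 3 → ℂ,
      (∀ k p, star (u k) ⬝ᵥ V p = if k = p then D else 0) ∧
      (∀ w : Fin 3 → ℂ, D • star w = ∑ p, (star w ⬝ᵥ V p) • star (u p)) := by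
    refine ⟨![crossProduct (star (u 1)) (star (u 2)), crossProduct (star (u 2)) (star (u 0)),
      crossProduct (star (u 0)) (star (u 1))], ?_, ?_⟩
    · intro k p
      fin_cases k <;> fin_cases p <;>
        simp [hD, cross_apply, dotProduct, Fin.sum_univ_three] <;> ring
    · intro w
      rw [hD, cramer3 (star (u 0)) (star (u 1)) (star (u 2)) (star w)]
      simp [Fin.sum_univ_three]
  have hpp : ∀ p, c p * (star D * D) = (∑ k, c k) * (star (star z ⬝ᵥ V p) * (star z ⬝ᵥ V p)) := by
    intro p
    rw [← key (V p) (V p)]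
    rw [Finset.sum_eq_single p]
    · simp [hV]
    · intro k _ hk
      simp [hV, hk]
    · intro h; exact absurd (mem_univ p) h
  have hpq : ∀ p q, p ≠ q → (∑ k, c k) * (star (star z ⬝ᵥ V p) * (star z ⬝ᵥ V q)) = 0 := by
    intro p q hpq
    rw [← key (V p) (V q)]
    apply Finset.sum_eq_zero
    intro k _
    rw [hV, hV]
    by_cases h1 : k = p
    · have h2 : k ≠ q := by rw [h1]; exact hpq
      simp [h2]
    · simp [h1]
  have hDD : star D * D ≠ 0 := mul_ne_zero (star_ne_zero.2 hdet) hdet
  by_cases hC : (∑ k, c k) = 0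
  · intro p
    have := hpp p
    rw [hC, zero_mul] at this
    exact (mul_eq_zero.1 this).resolve_right hDD
  · exfalso
    have hpq' : ∀ p q, p ≠ q → star z ⬝ᵥ V p = 0 ∨ star z ⬝ᵥ V q = 0 := by
      intro p q h
      have := (mul_eq_zero.1 (hpq p q h)).resolve_left hC
      rcases mul_eq_zero.1 this with h1 | h1
      · exact Or.inl (star_eq_zero.1 h1)
      · exact Or.inr h1
    -- some r such that all the others are zero
    obtain ⟨r, hr⟩ : ∃ r : Fin 3, ∀ p, p ≠ r → star z ⬝ᵥ V p = 0 := by
      by_cases hall : ∀ p, star z ⬝ᵥ V p = 0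
      · exact ⟨0, fun p _ => hall p⟩
      · push Not at hall
        obtain ⟨r, hr⟩ := hall
        exact ⟨r, fun p hp => (hpq' p r hp).resolve_right hr⟩
    have h1 : D • star z = (star z ⬝ᵥ V r) • star (u r) := by
      rw [hVc z, Finset.sum_eq_single r]
      · intro p _ hp
        rw [hr p hp, zero_smul]
      · intro h; exact absurd (mem_univ r) h
    have h2 := cross_zero_of_smul hdet h1
    rw [cross_star] at h2
    exact hz r (star_eq_zero.1 h2)

/-- four suitable lines in each class -/
lemma four (L : Type) [Fintype L] (S : Finset L) (a : L → Fin 3 → ℂ) (N : ℕ) (hN : 2 ≤ N)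
    (hS : S.card = N)
    (ha : ∀ l l', l ≠ l' → crossProduct (a l) (a l') ≠ 0)
    (hb : ∀ v, ∑ l ∈ S, hip (a l) v = N / 3 * nsq v) :
    ∃ t : Fin 3 → L, (∀ k, t k ∈ S) ∧ Function.Injective t ∧
      star (a (t 2)) ⬝ᵥ crossProduct (star (a (t 0))) (star (a (t 1))) ≠ 0 := by
  obtain ⟨l0, h0, l1, h1, h01⟩ := Finset.one_lt_card.1 (by omega : 1 < S.card)
  set v := crossProduct (star (a l0)) (star (a l1)) with hv
  have hv0 : v ≠ 0 := by
    rw [hv, cross_star]
    exact star_ne_zero.2 (ha l0 l1 h01)
  have hpos : 0 < ∑ l ∈ S, hip (a l) v := by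
    rw [hb]
    have := nsq_pos hv0
    have hN' : (0 : ℝ) < N := by
      have : 0 < N := by omega
      exact_mod_cast this
    positivity
  obtain ⟨l2, h2, h2'⟩ := Finset.exists_ne_zero_of_sum_ne_zero hpos.ne'
  have h2'' : star (a l2) ⬝ᵥ v ≠ 0 := by
    intro h
    apply h2'
    unfold hip
    rw [h, map_zero]
  have h20 : l2 ≠ l0 := by
    rintro rfl
    exact h2'' (dot_self_cross _ _)
  have h21 : l2 ≠ l1 := by
    rintro rfl
    exact h2'' (dot_cross_self _ _)
  refine ⟨![l0, l1, l2], ?_, ?_, h2''⟩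
  · intro k
    fin_cases k
    · exact h0
    · exact h1
    · exact h2
  · intro i j hij
    fin_cases i <;> fin_cases j <;> simp_all

end DIM_

open DIM_ in
theorem dim_proof : Stmt_DIM := by
  intro L _ cls a N hN hcard ha hunit hhip hbal
  -- N ≥ 3
  have hfour : ∀ i, ∃ t : Fin 3 → L, (∀ k, cls (t k) = i) ∧ Function.Injective t ∧
      star (a (t 2)) ⬝ᵥ crossProduct (star (a (t 0))) (star (a (t 1))) ≠ 0 := by
    intro i
    obtain ⟨t, ht, hti, htd⟩ := four L (univ.filter (fun l => cls l = i)) a N hN (hcard i) ha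
      (fun v => hbal i v)
    exact ⟨t, fun k => by simpa using ht k, hti, htd⟩
  have h3 : 3 ≤ N := by
    obtain ⟨t, ht, hti, -⟩ := hfour 0
    rw [← hcard 0]
    calc 3 = (univ.image t).card := by
          rw [Finset.card_image_of_injective _ hti]; simp
      _ ≤ _ := Finset.card_le_card (by
          intro l hl
          obtain ⟨k, -, rfl⟩ := Finset.mem_image.1 hl
          simp [ht k])
  by_contra hne
  have h4 : 4 ≤ N := by omega
  have hfour' : ∀ i, ∃ (t : Fin 3 → L) (z : L), (∀ k, cls (t k) = i) ∧ cls z = i ∧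
      LinearIndependent ℂ (fun k : Fin 3 => P (a (t k)) - P (a z)) := by
    intro i
    obtain ⟨t, ht, hti, htd⟩ := hfour i
    obtain ⟨z, hz, hz'⟩ : ∃ z ∈ univ.filter (fun l => cls l = i), z ∉ univ.image t := by
      apply Finset.exists_mem_notMem_of_card_lt_card
      rw [hcard i, Finset.card_image_of_injective _ hti]
      simp only [card_univ, Fintype.card_fin]
      omega
    refine ⟨t, z, ht, by simpa using hz, ?_⟩
    apply indep (fun k => a (t k)) (a z) htd
    intro k
    apply ha
    rintro rfl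
    exact hz' (Finset.mem_image_of_mem _ (mem_univ k))
  choose t z ht hz hli using hfour'
  let E : Fin 4 → Fin 3 → Matrix (Fin 3) (Fin 3) ℂ := fun i k => P (a (t i k)) - P (a (z i))
  have hEconj : ∀ i k, (E i k)ᴴ = E i k := by
    intro i k
    simp only [E, Matrix.conjTranspose_sub, P_conj]
  have htr : ∀ i j, i ≠ j → ∀ k k', Matrix.trace (E i k * E j k') = 0 := by
    intro i j hij k k'
    simp only [E, sub_mul, mul_sub, Matrix.trace_sub, trace_P]
    rw [hhip, hhip, hhip, hhip]
    · push_cast; ring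
    · rw [hz, hz]; exact hij
    · rw [hz, ht]; exact hij
    · rw [ht, hz]; exact hij
    · rw [ht, ht]; exact hij
  have hLI : LinearIndependent ℂ (fun p : Fin 4 × Fin 3 => E p.1 p.2) := by
    rw [Fintype.linearIndependent_iff]
    intro g hg
    rw [Fintype.sum_prod_type] at hg
    have hS : ∀ i, ∑ k, g (i, k) • E i k = 0 := by
      intro i
      rw [← Matrix.trace_conjTranspose_mul_self_eq_zero_iff]
      have h1 : (∑ k, g (i, k) • E i k)ᴴ * (∑ j, ∑ k, g (j, k) • E j k) = 0 := by
        rw [hg, mul_zero]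
      have h2 := congrArg Matrix.trace h1
      rw [Finset.mul_sum, Matrix.trace_sum, Matrix.trace_zero, Finset.sum_eq_single i] at h2
      · exact h2
      · intro j _ hji
        rw [Matrix.conjTranspose_sum, Finset.sum_mul_sum, Matrix.trace_sum]
        apply Finset.sum_eq_zero
        intro k _
        rw [Matrix.trace_sum]
        apply Finset.sum_eq_zero
        intro k' _
        rw [Matrix.conjTranspose_smul, hEconj, Matrix.smul_mul, Matrix.mul_smul,
          Matrix.trace_smul, Matrix.trace_smul, htr i j (Ne.symm hji), smul_zero, smul_zero]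
      · intro h; exact absurd (mem_univ i) h
    rintro ⟨i, k⟩
    exact Fintype.linearIndependent_iff.1 (hli i) (fun k => g (i, k)) (hS i) k
  have := hLI.fintype_card_le_finrank
  simp only [Fintype.card_prod, Fintype.card_fin, Module.finrank_matrix, Module.finrank_self]
    at this
  omega

end Pool.Agent.MUB
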