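import Pool.Agent.MUB.Stmts

/-!
# In a balanced metric all the inequalities are equalities
-/

set_option autoImplicit false

open scoped Classical Matrix LinearAlgebra.Projectivization
open Finset Matrix

namespace Pool.Agent.MUB

namespace EQU_

variable {L X : Type} [Fintype L] [Fintype X]

/-- weight of a pair of lines -/
noncomputable def PP (N : VNet L X) (l l' : L) : ℝ := N.m l * N.m l' * hip (N.a l) (N.a l')

/-- the total weight of the pairs of a set of lines -/
noncomputable def WW (N : VNet L X) (S : Finset L) : ℝ := ∑ l ∈ S, ∑ l' ∈ S, PP N l l'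

/-- the total weight of the pairs of different classes -/
noncomputable def CC (N : VNet L X) (S : Finset L) : ℝ :=
  ∑ l ∈ S, ∑ l' ∈ S, if N.cls l ≠ N.cls l' then PP N l l' else 0

lemma split (N : VNet L X) (S : Finset L) :
    WW N S = CC N S + ∑ i, WW N (S.filter (fun l => N.cls l = i)) := by
  have h : ∑ i, WW N (S.filter (fun l => N.cls l = i)) =
      ∑ l ∈ S, ∑ l' ∈ S, if N.cls l ≠ N.cls l' then 0 else PP N l l' := by
    unfold WW
    simp_rw [Finset.sum_filter]
    rw [Finset.sum_comm]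
    refine Finset.sum_congr rfl (fun l _ => ?_)
    rw [Finset.sum_ite_eq univ (N.cls l)
      (fun i => ∑ l' ∈ S, if N.cls l' = i then PP N l l' else 0), if_pos (mem_univ _)]
    refine Finset.sum_congr rfl (fun l' _ => ?_)
    by_cases hc : N.cls l' = N.cls l
    · rw [if_pos hc, if_neg (by rw [hc]; simp)]
    · rw [if_neg hc, if_pos (fun h => hc h.symm)]
  rw [h]
  unfold WW CC
  rw [← Finset.sum_add_distrib]
  refine Finset.sum_congr rfl (fun l _ => ?_)
  rw [← Finset.sum_add_distrib]
  refine Finset.sum_congr rfl (fun l' _ => ?_)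
  split_ifs <;> ring

/-- the lines on a base point -/
noncomputable def on (N : VNet L X) (x : X) : Finset L := univ.filter (fun l => N.a l ⬝ᵥ N.e x = 0)

lemma double (N : VNet L X) : ∑ x, CC N (on N x) = CC N univ := by
  have h : ∀ x, CC N (on N x) = ∑ l, ∑ l', if N.a l ⬝ᵥ N.e x = 0 ∧ N.a l' ⬝ᵥ N.e x = 0 then
      (if N.cls l ≠ N.cls l' then PP N l l' else 0) else 0 := by
    intro x
    unfold CC on
    simp_rw [Finset.sum_filter]
    refine Finset.sum_congr rfl (fun l _ => ?_)
    by_cases h1 : N.a l ⬝ᵥ N.e x = 0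
    · rw [if_pos h1]
      refine Finset.sum_congr rfl (fun l' _ => ?_)
      by_cases h2 : N.a l' ⬝ᵥ N.e x = 0
      · rw [if_pos h2, if_pos (show N.a l ⬝ᵥ N.e x = 0 ∧ N.a l' ⬝ᵥ N.e x = 0 from ⟨h1, h2⟩)]
      · rw [if_neg h2, if_neg (fun h => h2 h.2)]
    · rw [if_neg h1]
      symm
      apply Finset.sum_eq_zero
      intro l' _
      rw [if_neg (fun h => h1 h.1)]
  simp_rw [h]
  rw [Finset.sum_comm]
  unfold CC
  refine Finset.sum_congr rfl (fun l _ => ?_)
  rw [Finset.sum_comm]
  refine Finset.sum_congr rfl (fun l' _ => ?_)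
  by_cases hc : N.cls l ≠ N.cls l'
  · rw [if_pos hc]
    obtain ⟨x, hx, hu⟩ := N.meet l l' hc
    rw [Finset.sum_eq_single x]
    · rw [if_pos hx]
    · intro y _ hy
      rw [if_neg (fun h => hy (hu y h))]
    · intro h
      exact absurd (mem_univ x) h
  · rw [if_neg hc]
    apply Finset.sum_eq_zero
    intro x _
    split_ifs <;> rfl

lemma fil_eq (N : VNet L X) (x : X) (i : Fin 4) :
    (on N x).filter (fun l => N.cls l = i) =
      univ.filter (fun l => N.cls l = i ∧ N.a l ⬝ᵥ N.e x = 0) := by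
  ext l
  unfold on
  rw [mem_filter, mem_filter, mem_filter]
  tauto

lemma sum_on (N : VNet L X) (x : X) : ∑ l ∈ on N x, N.m l = 4 * N.n x := by
  have h := Finset.sum_fiberwise (on N x) N.cls N.m
  rw [← h]
  have h2 : ∀ i, ∑ l ∈ (on N x).filter (fun l => N.cls l = i), N.m l = N.n x := by
    intro i
    rw [fil_eq]
    exact N.sum_n x i
  rw [Finset.sum_congr rfl (fun i _ => h2 i), Finset.sum_const, card_univ, Fintype.card_fin,
    nsmul_eq_mul]
  norm_num

end EQU_

open EQU_ in
theorem equ_proof (h1 : Stmt_CNT) (h2 : Stmt_WEL) : Stmt_EQU := by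
  intro L X _ _ N hu hb
  obtain ⟨c1, c2, c3, c4⟩ := h1 L X N
  -- total
  have hP0 : ∀ l l', 0 ≤ PP N l l' := fun l l' =>
    mul_nonneg (mul_nonneg (N.m_pos l).le (N.m_pos l').le) (hip_nonneg _ _)
  have hhip : ∀ l l', hip (N.a l) (N.a l') ≤ 1 := by
    intro l l'
    have := hip_le (N.a l) (N.a l')
    rw [hu, hu, mul_one] at this
    exact this
  have htot : WW N univ = 16 * N.d ^ 2 / 3 := by
    have e1 : ∀ l, ∑ l', PP N l l' = N.m l * (4 * N.d / 3) := by
      intro l
      have e2 := hb (N.a l)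
      rw [hu, mul_one] at e2
      rw [← e2, Finset.mul_sum]
      refine Finset.sum_congr rfl (fun l' _ => ?_)
      unfold PP
      rw [hip_comm]
      ring
    unfold WW
    rw [Finset.sum_congr rfl (fun l _ => e1 l), ← Finset.sum_mul, c4]
    ring
  have hWform : ∀ S : Finset L, WW N S =
      ∑ l ∈ S, ∑ l' ∈ S, N.m l * N.m l' * hip (N.a l) (N.a l') := fun S => rfl
  -- the class sums
  have hA : ∀ i, 0 ≤ WW N (univ.filter (fun l => N.cls l = i)) - N.d ^ 2 / 3 := by
    intro i
    have := (h2 L (univ.filter (fun l => N.cls l = i)) N.a N.m (fun l _ => hu l)).1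
    rw [N.sum_d i, ← hWform] at this
    linarith
  have hB : ∀ x, 0 ≤ WW N (on N x) - 8 * N.n x ^ 2 := by
    intro x
    have := ((h2 L (on N x) N.a N.m (fun l _ => hu l)).2.2 (N.e x) (N.e_ne x)
      (fun l hl => (mem_filter.1 hl).2)).1
    rw [sum_on, ← hWform] at this
    have e : (4 * N.n x) ^ 2 / 2 = 8 * N.n x ^ 2 := by ring
    rw [e] at this
    linarith
  have hDform : ∀ x i, N.n x ^ 2 - WW N ((on N x).filter (fun l => N.cls l = i)) =
      ∑ l ∈ (on N x).filter (fun l => N.cls l = i),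
        ∑ l' ∈ (on N x).filter (fun l => N.cls l = i),
          N.m l * N.m l' * (1 - hip (N.a l) (N.a l')) := by
    intro x i
    have e : N.n x ^ 2 = ∑ l ∈ (on N x).filter (fun l => N.cls l = i),
        ∑ l' ∈ (on N x).filter (fun l => N.cls l = i), N.m l * N.m l' := by
      rw [← Finset.sum_mul_sum, fil_eq, N.sum_n]
      ring
    rw [e, hWform, ← Finset.sum_sub_distrib]
    refine Finset.sum_congr rfl (fun l _ => ?_)
    rw [← Finset.sum_sub_distrib]
    refine Finset.sum_congr rfl (fun l' _ => ?_)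
    ring
  have hDterm : ∀ l l', 0 ≤ N.m l * N.m l' * (1 - hip (N.a l) (N.a l')) := fun l l' =>
    mul_nonneg (mul_nonneg (N.m_pos l).le (N.m_pos l').le) (by have := hhip l l'; linarith)
  have hD : ∀ x i, 0 ≤ N.n x ^ 2 - WW N ((on N x).filter (fun l => N.cls l = i)) := by
    intro x i
    rw [hDform]
    exact Finset.sum_nonneg (fun l _ => Finset.sum_nonneg (fun l' _ => hDterm l l'))
  -- the identity
  have hid : ∑ i, (WW N (univ.filter (fun l => N.cls l = i)) - N.d ^ 2 / 3) +
      (∑ x, (WW N (on N x) - 8 * N.n x ^ 2) +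
        ∑ x, ∑ i, (N.n x ^ 2 - WW N ((on N x).filter (fun l => N.cls l = i)))) = 0 := by
    have e1 := split N univ
    rw [htot] at e1
    have e2 : ∀ x, WW N (on N x) - ∑ i, WW N ((on N x).filter (fun l => N.cls l = i)) =
        CC N (on N x) := by
      intro x
      have := split N (on N x)
      linarith
    have e3 : ∑ x, (WW N (on N x) - ∑ i, WW N ((on N x).filter (fun l => N.cls l = i))) =
        CC N univ := by
      rw [Finset.sum_congr rfl (fun x _ => e2 x), double]
    rw [Finset.sum_sub_distrib] at e3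
    have e4 : ∑ i : Fin 4, (WW N (univ.filter (fun l => N.cls l = i)) - N.d ^ 2 / 3) =
        ∑ i : Fin 4, WW N (univ.filter (fun l => N.cls l = i)) - 4 * (N.d ^ 2 / 3) := by
      rw [Finset.sum_sub_distrib, Finset.sum_const, card_univ, Fintype.card_fin, nsmul_eq_mul]
      norm_num
    have e5 : ∑ x, (WW N (on N x) - 8 * N.n x ^ 2) = ∑ x, WW N (on N x) - 8 * N.d ^ 2 := by
      rw [Finset.sum_sub_distrib, ← Finset.mul_sum, c2]
    have e6 : ∑ x, ∑ i : Fin 4, (N.n x ^ 2 - WW N ((on N x).filter (fun l => N.cls l = i))) =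
        4 * N.d ^ 2 - ∑ x, ∑ i, WW N ((on N x).filter (fun l => N.cls l = i)) := by
      rw [← c2, Finset.mul_sum, ← Finset.sum_sub_distrib]
      refine Finset.sum_congr rfl (fun x _ => ?_)
      rw [Finset.sum_sub_distrib, Finset.sum_const, card_univ, Fintype.card_fin, nsmul_eq_mul]
      norm_num
    rw [e4, e5, e6]
    linarith
  have sA : 0 ≤ ∑ i, (WW N (univ.filter (fun l => N.cls l = i)) - N.d ^ 2 / 3) :=
    Finset.sum_nonneg (fun i _ => hA i)
  have sB : 0 ≤ ∑ x, (WW N (on N x) - 8 * N.n x ^ 2) := Finset.sum_nonneg (fun x _ => hB x)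
  have sD : 0 ≤ ∑ x, ∑ i, (N.n x ^ 2 - WW N ((on N x).filter (fun l => N.cls l = i))) :=
    Finset.sum_nonneg (fun x _ => Finset.sum_nonneg (fun i _ => hD x i))
  have zA : ∀ i, WW N (univ.filter (fun l => N.cls l = i)) - N.d ^ 2 / 3 = 0 := by
    intro i
    exact (Finset.sum_eq_zero_iff_of_nonneg (fun i _ => hA i)).1 (by linarith) i (mem_univ i)
  have zB : ∀ x, WW N (on N x) - 8 * N.n x ^ 2 = 0 := by
    intro x
    exact (Finset.sum_eq_zero_iff_of_nonneg (fun x _ => hB x)).1 (by linarith) x (mem_univ x)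
  have zD : ∀ x i, N.n x ^ 2 - WW N ((on N x).filter (fun l => N.cls l = i)) = 0 := by
    intro x i
    have := (Finset.sum_eq_zero_iff_of_nonneg
      (fun x _ => Finset.sum_nonneg (fun i _ => hD x i))).1 (by linarith) x (mem_univ x)
    exact (Finset.sum_eq_zero_iff_of_nonneg (fun i _ => hD x i)).1 this i (mem_univ i)
  -- two lines of one class on a base point are equal
  have huniq : ∀ x l l', N.a l ⬝ᵥ N.e x = 0 → N.a l' ⬝ᵥ N.e x = 0 → N.cls l = N.cls l' →
      l = l' := by
    intro x l l' hl hl' hc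
    by_contra hne
    have h0 := zD x (N.cls l')
    rw [hDform] at h0
    have m1 : l ∈ (on N x).filter (fun k => N.cls k = N.cls l') :=
      mem_filter.2 ⟨mem_filter.2 ⟨mem_univ _, hl⟩, hc⟩
    have m2 : l' ∈ (on N x).filter (fun k => N.cls k = N.cls l') :=
      mem_filter.2 ⟨mem_filter.2 ⟨mem_univ _, hl'⟩, rfl⟩
    have h3 := (Finset.sum_eq_zero_iff_of_nonneg
      (fun l _ => Finset.sum_nonneg (fun l' _ => hDterm l l'))).1 h0 l m1
    have h4 := (Finset.sum_eq_zero_iff_of_nonneg (fun l' _ => hDterm l l')).1 h3 l' m2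
    have h5 : 1 - hip (N.a l) (N.a l') = 0 := by
      rcases mul_eq_zero.1 h4 with h | h
      · exact absurd h (mul_pos (N.m_pos l) (N.m_pos l')).ne'
      · exact h
    have h6 := lagrange (N.a l) (N.a l')
    rw [hu, hu] at h6
    have h7 : nsq (crossProduct (N.a l) (N.a l')) = 0 := by linarith
    exact N.a_ne l l' hne (nsq_eq_zero.1 h7)
  have hex : ∀ x i, ∃! l, N.cls l = i ∧ N.a l ⬝ᵥ N.e x = 0 := by
    intro x i
    have hne : (univ.filter (fun l => N.cls l = i ∧ N.a l ⬝ᵥ N.e x = 0)).Nonempty := by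
      rw [Finset.nonempty_iff_ne_empty]
      intro h0
      have h3 := N.sum_n x i
      rw [h0, Finset.sum_empty] at h3
      exact (N.n_pos x).ne h3
    obtain ⟨l, hl⟩ := hne
    have hl2 := (mem_filter.1 hl).2
    exact ⟨l, hl2, fun l' hl' => huniq x l' l hl'.2 hl2.2 (hl'.1.trans hl2.1.symm)⟩
  have hmn : ∀ l x, N.a l ⬝ᵥ N.e x = 0 → N.m l = N.n x := by
    intro l x hl
    have h3 := N.sum_n x (N.cls l)
    have h4 : univ.filter (fun k => N.cls k = N.cls l ∧ N.a k ⬝ᵥ N.e x = 0) = {l} := by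
      ext k
      rw [mem_filter, mem_singleton]
      constructor
      · rintro ⟨_, h5, h6⟩
        exact huniq x k l h6 hl h5
      · rintro rfl
        exact ⟨mem_univ _, rfl, hl⟩
    rw [h4, Finset.sum_singleton] at h3
    exact h3
  refine ⟨hex, hmn, ?_, ?_⟩
  · intro i v
    have h3 := (h2 L (univ.filter (fun l => N.cls l = i)) N.a N.m (fun l _ => hu l)).2.1
    rw [N.sum_d i, ← hWform] at h3
    exact h3 (by have := zA i; linarith) v
  · intro x v hv
    have h3 := ((h2 L (on N x) N.a N.m (fun l _ => hu l)).2.2 (N.e x) (N.e_ne x)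
      (fun l hl => (mem_filter.1 hl).2)).2
    rw [sum_on, ← hWform] at h3
    have h4 := h3 (by have := zB x; linarith) v hv
    have h5 : ∑ l ∈ on N x, N.m l * hip (N.a l) v = N.n x * ∑ l ∈ on N x, hip (N.a l) v := by
      rw [Finset.mul_sum]
      refine Finset.sum_congr rfl (fun l hl => ?_)
      rw [hmn l x (mem_filter.1 hl).2]
    rw [h5] at h4
    have h6 := N.n_pos x
    have h7 : N.n x * ∑ l ∈ on N x, hip (N.a l) v = N.n x * (2 * nsq v) := by
      rw [h4]
      ring
    exact mul_left_cancel₀ h6.ne' h7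

end Pool.Agent.MUB
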