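import Pool.Agent.MUB.Stmts

/-!
# FIN (MP_51574c_co): final assembly
-/

set_option autoImplicit false

open scoped Classical Matrix LinearAlgebra.Projectivization
open Finset Matrix

namespace Pool.Agent.MUB

namespace FIN_

lemma onLine_mk {v a : Fin 3 → ℂ} (hv : v ≠ 0) (ha : a ≠ 0) :
    OnLine (Projectivization.mk ℂ v hv) (Projectivization.mk ℂ a ha) ↔ v ⬝ᵥ a = 0 := Iff.rfl

lemma onLine_iff (P H : Plane) : OnLine P H ↔ P.rep ⬝ᵥ H.rep = 0 := by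
  conv_lhs => rw [← P.mk_rep, ← H.mk_rep]
  exact onLine_mk _ _

/-- the dual transformation -/
lemma exists_dual (G : (Fin 3 → ℂ) ≃ₗ[ℂ] (Fin 3 → ℂ)) :
    ∃ f : (Fin 3 → ℂ) ≃ₗ[ℂ] (Fin 3 → ℂ), ∀ v a, f v ⬝ᵥ G a = v ⬝ᵥ a := by
  have h1 : ∀ a, G a = (LinearMap.toMatrix' G.toLinearMap) *ᵥ a := by
    intro a
    rw [← Matrix.toLin'_apply, Matrix.toLin'_toMatrix']
    rfl
  have h2 : ∀ a, G.symm a = (LinearMap.toMatrix' G.symm.toLinearMap) *ᵥ a := by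
    intro a
    rw [← Matrix.toLin'_apply, Matrix.toLin'_toMatrix']
    rfl
  set M := LinearMap.toMatrix' G.toLinearMap with hM
  set M' := LinearMap.toMatrix' G.symm.toLinearMap with hM'
  have h3 : ∀ v a, (M'ᵀ *ᵥ v) ⬝ᵥ G a = v ⬝ᵥ a := by
    intro v a
    rw [mulVec_transpose, ← dotProduct_mulVec, ← h2, LinearEquiv.symm_apply_apply]
  have h4 : ∀ v a, (Mᵀ *ᵥ v) ⬝ᵥ G.symm a = v ⬝ᵥ a := by
    intro v a
    rw [mulVec_transpose, ← dotProduct_mulVec, ← h1, LinearEquiv.apply_symm_apply]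
  have h5 : ∀ u w : Fin 3 → ℂ, (∀ a, u ⬝ᵥ a = w ⬝ᵥ a) → u = w := by
    intro u w h
    funext i
    have := h (Pi.single i 1)
    simpa using this
  refine ⟨LinearEquiv.ofLinearMap (Matrix.toLin' M'ᵀ) (Matrix.toLin' Mᵀ) ?_ ?_, ?_⟩
  · apply LinearMap.ext
    intro v
    simp only [LinearMap.comp_apply, Matrix.toLin'_apply, LinearMap.id_apply]
    apply h5
    intro a
    have h6 := h3 (Mᵀ *ᵥ v) (G.symm a)
    rw [LinearEquiv.apply_symm_apply] at h6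
    rw [h6, h4]
  · apply LinearMap.ext
    intro v
    simp only [LinearMap.comp_apply, Matrix.toLin'_apply, LinearMap.id_apply]
    apply h5
    intro a
    have h6 := h4 (M'ᵀ *ᵥ v) (G a)
    rw [LinearEquiv.symm_apply_apply] at h6
    rw [h6, h3]
  · intro v a
    exact h3 v a

/-- the balanced metric -/
lemma balanced (hW : Stmt_WTS) (hM : Stmt_MIN) (hC : Stmt_CRI) (hT : Stmt_TRA)
    (L X : Type) [Fintype L] [Fintype X] (V : VNet L X) (ha : ∀ l, V.a l ≠ 0) :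
    ∃ (g : Matrix (Fin 3) (Fin 3) ℂ) (N' : VNet L X), g.det ≠ 0 ∧
      N'.cls = V.cls ∧ N'.m = V.m ∧ N'.n = V.n ∧ N'.d = V.d ∧
      (∀ l x, N'.a l ⬝ᵥ N'.e x = 0 ↔ V.a l ⬝ᵥ V.e x = 0) ∧
      (∀ l, ∃ c : ℂ, c ≠ 0 ∧ N'.a l = c • (g *ᵥ V.a l)) ∧
      (∀ l, nsq (N'.a l) = 1) ∧
      ∀ v, ∑ l, N'.m l * hip (N'.a l) v = 4 * N'.d / 3 * nsq v := by
  obtain ⟨J, hJ, hJ', t, w, K, hK, hw, hdet, hid, hlink⟩ := hW L X V
  obtain ⟨g, hg, hmin⟩ := hM L J V.a V.m t w K V.m_pos ha hK hw hdet hid hlink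
  have hbal := hC L V.a V.m g V.m_pos ha hg hmin
  obtain ⟨N', h1⟩ := hT L X V g hg hbal
  exact ⟨g, N', hg, h1⟩

end FIN_

open FIN_

theorem fin_proof (hCNT : Stmt_CNT) (hWTS : Stmt_WTS) (hMIN : Stmt_MIN) (hCRI : Stmt_CRI)
    (hTRA : Stmt_TRA) (hEQU : Stmt_EQU) (hUNE : Stmt_UNE) (hORT : Stmt_ORT) (hMUB : Stmt_MUB)
    (hCON : Stmt_CON) (hVNT : Stmt_VNT) (hHPT : Stmt_HPT) (hHES : Stmt_HES) : Stmt_FIN := by
  obtain ⟨Hs, hsA, hsX, hsm, hsd⟩ := hHES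
  refine ⟨Hs, ⟨hsA, hsX, hsm, hsd⟩, fun N hloc => ?_⟩
  obtain ⟨L, X, fL, fX, V, φ, ψ, hφ, hVa, hVe, hA, hX, hm, hd⟩ :=
    hVNT N (fun h => hloc (hCON N h))
  have hane : ∀ l, V.a l ≠ 0 := fun l => by rw [hVa]; exact (φ l).rep_nonzero
  obtain ⟨g, V', hg, e1, e2, e3, e4, hinc, hsc, hunit, hbal⟩ :=
    balanced hWTS hMIN hCRI hTRA L X V hane
  obtain ⟨q1, q2, q3, q4⟩ := hEQU L X V' hunit hbal
  obtain ⟨U, m0, u1, u2, u3, u4, u5⟩ := hUNE L X V' hunit q1 q2 q3 q4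
  obtain ⟨lab, hlab1, hlab2, hlab3, hlab4⟩ := hORT L X U
  obtain ⟨g2, σ, τ, hg2⟩ := hMUB (fun i a => U.a (lab i a)) hlab3 hlab4
  -- the transformation of the covectors
  have hgu : IsUnit g.det := isUnit_iff_ne_zero.2 hg
  let g1 : (Fin 3 → ℂ) ≃ₗ[ℂ] (Fin 3 → ℂ) := Matrix.toLinearEquiv' g
    ⟨g⁻¹, Matrix.nonsing_inv_mul g hgu, Matrix.mul_nonsing_inv g hgu⟩
  have hg1 : ∀ v, g1 v = g *ᵥ v := fun v => rfl
  let G : (Fin 3 → ℂ) ≃ₗ[ℂ] (Fin 3 → ℂ) := g1.trans g2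
  have hG : ∀ v, G v = g2 (g *ᵥ v) := fun v => rfl
  -- images of the lines
  have himg : ∀ l : L, ∃ s : ℂ, s ≠ 0 ∧ G (V.a l) = s • g2 (U.a l) := by
    intro l
    obtain ⟨c, hc, h⟩ := hsc l
    refine ⟨c⁻¹, inv_ne_zero hc, ?_⟩
    rw [hG, u2, h, map_smul, smul_smul, inv_mul_cancel₀ hc, one_smul]
  have himg2 : ∀ i a, ∃ s : ℂ, s ≠ 0 ∧ G ((φ (lab i a)).rep) = s • hv (σ i) (τ i a) := by
    intro i a
    obtain ⟨s, hs, h⟩ := himg (lab i a)
    obtain ⟨t, ht, h'⟩ := hg2 i a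
    refine ⟨s * t, mul_ne_zero hs ht, ?_⟩
    rw [← hVa, h, h', smul_smul]
  obtain ⟨f, hf⟩ := exists_dual G
  -- transformation of incidences
  let GP : Plane → Plane := Projectivization.map G.toLinearMap G.injective
  let fP : Plane → Plane := Projectivization.map f.toLinearMap f.injective
  have hGinj : Function.Injective GP := Projectivization.map_injective _ _
  have hon : ∀ P H : Plane, OnLine P H ↔ OnLine (fP P) (GP H) := by
    intro P H
    have h1 : fP P = Projectivization.mk ℂ (f P.rep)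
        ((map_ne_zero_iff f f.injective).2 P.rep_nonzero) := by
      show Projectivization.map f.toLinearMap f.injective P = _
      conv_lhs => rw [← P.mk_rep]
      rw [Projectivization.map_mk]
      rfl
    have h2 : GP H = Projectivization.mk ℂ (G H.rep)
        ((map_ne_zero_iff G G.injective).2 H.rep_nonzero) := by
      show Projectivization.map G.toLinearMap G.injective H = _
      conv_lhs => rw [← H.mk_rep]
      rw [Projectivization.map_mk]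
      rfl
    rw [h1, h2, onLine_mk, onLine_iff, hf]
  have hGline : ∀ i a, GP (φ (lab i a)) = hesseLine (σ i) (τ i a) := by
    intro i a
    obtain ⟨s, hs, h⟩ := himg2 i a
    show Projectivization.map G.toLinearMap G.injective (φ (lab i a)) = _
    conv_lhs => rw [← (φ (lab i a)).mk_rep]
    rw [Projectivization.map_mk]
    unfold hesseLine
    rw [Projectivization.mk_eq_mk_iff']
    exact ⟨s, h.symm⟩
  have hAG : ∀ i H, H ∈ N.A i ↔ GP H ∈ hesseClass (σ i) := by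
    intro i H
    rw [hA]
    unfold hesseClass
    rw [mem_image]
    constructor
    · rintro ⟨l, hl, rfl⟩
      rw [← e1, ← u1] at hl
      obtain ⟨a, ha⟩ := (hlab2 i l).1 hl
      exact ⟨τ i a, mem_univ _, by rw [← ha, hGline]⟩
    · rintro ⟨j, _, hj⟩
      refine ⟨lab i ((τ i).symm j), ?_, ?_⟩
      · rw [← e1, ← u1]
        exact (hlab2 i _).2 ⟨_, rfl⟩
      · apply hGinj
        rw [hGline, Equiv.apply_symm_apply, hj]
  -- the base points
  have hXA : ∀ P, P ∈ N.X ↔ ∃ i j, i ≠ j ∧ ∃ H ∈ N.A i, ∃ H' ∈ N.A j,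
      OnLine P H ∧ OnLine P H' := by
    intro P
    constructor
    · intro hP
      obtain ⟨x, rfl⟩ := (hX P).1 hP
      have hline : ∀ i, φ (U.ln x i) ∈ N.A i ∧ OnLine (ψ x) (φ (U.ln x i)) := by
        intro i
        refine ⟨(hA i _).2 ⟨_, by rw [← e1, ← u1, U.cls_ln], rfl⟩, ?_⟩
        have h1 : U.a (U.ln x i) ⬝ᵥ U.e x = 0 :=
          (U.ln_spec x (U.ln x i)).2 (by rw [U.cls_ln])
        rw [u2, u3, hinc, hVa, hVe] at h1
        rw [onLine_iff, dotProduct_comm]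
        exact h1
      exact ⟨0, 1, by decide, _, (hline 0).1, _, (hline 1).1, (hline 0).2, (hline 1).2⟩
    · rintro ⟨i, j, hij, H, hH, H', hH', h1, h2⟩
      exact N.meet i j hij H hH H' hH' P h1 h2
  have hPX : ∀ P, P ∈ N.X ↔ fP P ∈ hessePoints := by
    intro P
    rw [hXA, hHPT.2.2.1]
    constructor
    · rintro ⟨i, j, hij, H, hH, H', hH', h1, h2⟩
      exact ⟨σ i, σ j, fun h => hij (σ.injective h), GP H, (hAG i H).1 hH, GP H',
        (hAG j H').1 hH', (hon P H).1 h1, (hon P H').1 h2⟩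
    · rintro ⟨c, c', hcc, H, hH, H', hH', h1, h2⟩
      have hsurj : ∀ c H, H ∈ hesseClass c → ∃ i H0, σ i = c ∧ H0 ∈ N.A i ∧ GP H0 = H := by
        intro c H hH
        unfold hesseClass at hH
        rw [mem_image] at hH
        obtain ⟨j, _, rfl⟩ := hH
        refine ⟨σ.symm c, φ (lab (σ.symm c) ((τ (σ.symm c)).symm j)), σ.apply_symm_apply c,
          ?_, ?_⟩
        · rw [hA]
          exact ⟨_, by rw [← e1, ← u1]; exact (hlab2 _ _).2 ⟨_, rfl⟩, rfl⟩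
        · rw [hGline, σ.apply_symm_apply, Equiv.apply_symm_apply]
      obtain ⟨i, H0, hi, hH0, rfl⟩ := hsurj c H hH
      obtain ⟨j, H1, hj, hH1, rfl⟩ := hsurj c' H' hH'
      exact ⟨i, j, fun h => hcc (by rw [← hi, ← hj, h]), H0, hH0, H1, hH1,
        (hon P H0).2 h1, (hon P H1).2 h2⟩
  -- multiplicities
  let l0 : L := lab 0 0
  have hl0 : φ l0 ∈ N.A 0 := (hA 0 _).2 ⟨l0, by
    rw [← e1, ← u1]; exact (hlab2 _ _).2 ⟨_, rfl⟩, rfl⟩
  have hmm : ∀ l, N.m (φ l) = N.m (φ l0) := by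
    intro l
    have h1 := u4 l
    have h2 := u4 l0
    rw [e2] at h1 h2
    rw [hm] at h1 h2
    exact_mod_cast h1.trans h2.symm
  refine ⟨f, σ, 1, N.m (φ l0), one_pos, N.m_pos 0 _ hl0, ?_, ?_⟩
  · intro P
    rw [hsX]
    exact hPX P
  · intro H
    refine ⟨GP H, fun P => hon P H, fun i => ⟨?_, ?_⟩⟩
    · rw [hsA]
      exact hAG i H
    · intro hH
      obtain ⟨l, _, rfl⟩ := (hA i H).1 hH
      rw [hsm, one_mul, mul_one, hmm]

end Pool.Agent.MUB
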