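import Pool.Agent.MUB.Stmts

/-!
# MUB: module HES (the Hesse configuration is a multinet)
-/

set_option autoImplicit false

open scoped Classical Matrix LinearAlgebra.Projectivization
open Finset Matrix

namespace Pool.Agent.MUB

namespace HES_

lemma onLine_mk_rep {v : Fin 3 → ℂ} (hv : v ≠ 0) (H : Plane) :
    OnLine (Projectivization.mk ℂ v hv) H ↔ v ⬝ᵥ H.rep = 0 := by
  have h := Projectivization.orthogonal_mk hv H.rep_nonzero
  rw [H.mk_rep] at h
  exact h

lemma onLine_rep (P H : Plane) : OnLine P H ↔ P.rep ⬝ᵥ H.rep = 0 := by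
  have h := onLine_mk_rep P.rep_nonzero H
  rw [P.mk_rep] at h
  exact h

lemma cross_ne {P Q : Plane} (h : P ≠ Q) : crossProduct P.rep Q.rep ≠ 0 := by
  intro h0
  apply h
  have h1 := (Projectivization.mk_eq_mk_iff_crossProduct_eq_zero P.rep_nonzero Q.rep_nonzero).2 h0
  rwa [P.mk_rep, Q.mk_rep] at h1

lemma cont_mk : Continuous (fun v : {v : Fin 3 → ℂ // v ≠ 0} =>
    Projectivization.mk ℂ v.1 v.2) := continuous_coinduced_rng

lemma par {n a : Fin 3 → ℂ} (hn : n ≠ 0) (h : crossProduct n a = 0) : ∃ κ : ℂ, κ • n = a := by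
  by_contra hcon
  push Not at hcon
  have h1 := (LinearIndependent.pair_iff' hn).2 hcon
  exact (crossProduct_ne_zero_iff_linearIndependent.2 h1) h

lemma in_span {u w a v : Fin 3 → ℂ} (huw : crossProduct u w ≠ 0) (ha : a ≠ 0)
    (h1 : u ⬝ᵥ a = 0) (h2 : w ⬝ᵥ a = 0) (h3 : v ⬝ᵥ a = 0) :
    ∃ α β : ℂ, v = α • u + β • w := by
  have hpar : crossProduct (crossProduct u w) a = 0 := by
    rw [cross_cross_eq_smul_sub_smul, h1, h2, zero_smul, zero_smul, sub_zero]
  obtain ⟨κ, hκ⟩ := par huw hpar
  have hκ0 : κ ≠ 0 := by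
    rintro rfl
    rw [zero_smul] at hκ
    exact ha hκ.symm
  have hdet : Matrix.det ![v, u, w] = 0 := by
    rw [← triple_product_eq_det]
    rw [← hκ, dotProduct_smul, smul_eq_mul] at h3
    exact (mul_eq_zero.1 h3).resolve_left hκ0
  have hLI : LinearIndependent ℂ ![u, w] := crossProduct_ne_zero_iff_linearIndependent.1 huw
  have hmem : v ∈ Submodule.span ℂ (Set.range ![u, w]) := by
    by_contra hcon
    have h4 : LinearIndependent ℂ (Fin.cons v ![u, w] : Fin 3 → Fin 3 → ℂ) :=
      linearIndependent_finCons.2 ⟨hLI, hcon⟩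
    have h5 : IsUnit (Matrix.of ![v, u, w]) := Matrix.linearIndependent_rows_iff_isUnit.1 h4
    have h6 := (Matrix.isUnit_iff_isUnit_det _).1 h5
    exact h6.ne_zero hdet
  obtain ⟨c, hc⟩ := (Submodule.mem_span_range_iff_exists_fun ℂ).1 hmem
  refine ⟨c 0, c 1, ?_⟩
  rw [← hc, Fin.sum_univ_two]
  rfl

lemma conn_line {X : Set Plane} {H P Q : Plane} (hPQ : P ≠ Q) (hP : OnLine P H)
    (hQ : OnLine Q H) (hPX : P ∈ X) {C : Finset Plane} (hC : H ∉ C)
    (hX : ∀ R ∈ X, ∃ H' ∈ C, OnLine R H') : IsConnected ({R | OnLine R H} \ X) := by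
  set w := P.rep with hw
  set u := Q.rep with hu
  set a := H.rep with ha
  have ha0 : a ≠ 0 := H.rep_nonzero
  have hw0 : w ≠ 0 := P.rep_nonzero
  have huw : crossProduct u w ≠ 0 := cross_ne hPQ.symm
  have hwa : w ⬝ᵥ a = 0 := (onLine_rep P H).1 hP
  have hua : u ⬝ᵥ a = 0 := (onLine_rep Q H).1 hQ
  have hne : ∀ t : ℂ, u + t • w ≠ 0 := by
    intro t h0
    apply huw
    have h1 : u = (-t) • w := by
      rw [neg_smul]
      exact eq_neg_of_add_eq_zero_left h0
    rw [h1, map_smul, LinearMap.smul_apply, cross_self, smul_zero]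
  let f : ℂ → Plane := fun t => Projectivization.mk ℂ (u + t • w) (hne t)
  have hf : Continuous f := by
    have h1 : Continuous (fun t : ℂ => (⟨u + t • w, hne t⟩ : {v : Fin 3 → ℂ // v ≠ 0})) := by
      apply Continuous.subtype_mk
      fun_prop
    exact cont_mk.comp h1
  let T : Set ℂ := {t | f t ∈ X}
  have hT : T.Countable := by
    have h1 : T ⊆ ⋃ H' ∈ C, {t : ℂ | (u + t • w) ⬝ᵥ H'.rep = 0} := by
      intro t ht
      obtain ⟨H', hH', h2⟩ := hX (f t) ht
      rw [Set.mem_iUnion₂]
      exact ⟨H', hH', (onLine_mk_rep (hne t) H').1 h2⟩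
    refine Set.Countable.mono h1 ?_
    refine Set.Countable.biUnion (s := (C : Set Plane)) (Finset.countable_toSet C)
      (fun H' hH' => ?_)
    apply Set.Subsingleton.countable
    intro t ht s hs
    by_contra hts
    simp only [Set.mem_ofPred_eq, add_dotProduct, smul_dotProduct, smul_eq_mul] at ht hs
    have h2 : (t - s) * (w ⬝ᵥ H'.rep) = 0 := by
      calc (t - s) * (w ⬝ᵥ H'.rep) = (u ⬝ᵥ H'.rep + t * (w ⬝ᵥ H'.rep))
            - (u ⬝ᵥ H'.rep + s * (w ⬝ᵥ H'.rep)) := by ring
        _ = 0 := by rw [ht, hs, sub_zero]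
    have h3 : w ⬝ᵥ H'.rep = 0 := (mul_eq_zero.1 h2).resolve_left (sub_ne_zero.2 hts)
    have h4 : u ⬝ᵥ H'.rep = 0 := by
      rw [h3, mul_zero, add_zero] at ht
      exact ht
    -- `H' = H`
    have h5 : H = H' := by
      by_contra hHH
      have h6 := cross_ne hHH
      have h7 : crossProduct (crossProduct H.rep H'.rep) u = 0 := by
        rw [cross_cross_eq_smul_sub_smul, dotProduct_comm, hua, dotProduct_comm _ u, h4,
          zero_smul, zero_smul, sub_zero]
      have h8 : crossProduct (crossProduct H.rep H'.rep) w = 0 := by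
        rw [cross_cross_eq_smul_sub_smul, dotProduct_comm, hwa, dotProduct_comm _ w, h3,
          zero_smul, zero_smul, sub_zero]
      obtain ⟨κ, hκ⟩ := par h6 h7
      obtain ⟨κ', hκ'⟩ := par h6 h8
      apply huw
      rw [← hκ, ← hκ', map_smul, map_smul, LinearMap.smul_apply, cross_self, smul_zero,
        smul_zero]
    exact hC (h5 ▸ hH')
  have himg : ({R | OnLine R H} \ X) = f '' Tᶜ := by
    ext R
    constructor
    · rintro ⟨hR, hRX⟩
      have hR' : R.rep ⬝ᵥ a = 0 := (onLine_rep R H).1 hR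
      obtain ⟨α, β, hαβ⟩ := in_span huw ha0 hua hwa hR'
      have hα : α ≠ 0 := by
        rintro rfl
        apply hRX
        rw [zero_smul, zero_add] at hαβ
        have h1 : R = P := by
          rw [← R.mk_rep, ← P.mk_rep]
          exact (Projectivization.mk_eq_mk_iff' ℂ _ _ _ _).2 ⟨β, hαβ.symm⟩
        rw [h1]
        exact hPX
      have h2 : f (α⁻¹ * β) = R := by
        rw [← R.mk_rep]
        apply (Projectivization.mk_eq_mk_iff' ℂ _ _ _ _).2
        refine ⟨α⁻¹, ?_⟩
        rw [hαβ, smul_add, smul_smul, smul_smul, inv_mul_cancel₀ hα, one_smul]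
      refine ⟨α⁻¹ * β, ?_, h2⟩
      intro h3
      apply hRX
      rw [← h2]
      exact h3
    · rintro ⟨t, ht, rfl⟩
      refine ⟨?_, ht⟩
      show OnLine (Projectivization.mk ℂ (u + t • w) (hne t)) H
      rw [onLine_mk_rep (hne t) H, add_dotProduct, smul_dotProduct, ← ha, hua, hwa, smul_zero,
        add_zero]
  rw [himg]
  refine IsConnected.image ?_ f hf.continuousOn
  apply Set.Countable.isConnected_compl_of_one_lt_rank _ hT
  rw [Complex.rank_real_complex]
  norm_num

lemma exists_ne_mem {c : Fin 4} (hcard : (hesseClass c).card = 3) :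
    ∃ H ∈ hesseClass c, ∃ H' ∈ hesseClass c, H ≠ H' := by
  have h1 : 1 < (hesseClass c).card := by rw [hcard]; norm_num
  obtain ⟨a, ha, b, hb, hab⟩ := Finset.one_lt_card.1 h1
  exact ⟨a, ha, b, hb, hab⟩

end HES_

open HES_

theorem hes_proof (h1 : Stmt_HPT) : Stmt_HES := by
  obtain ⟨hcard, hdisj, hX, huniq⟩ := h1
  have hcls : ∀ c c', c ≠ c' → ∀ H ∈ hesseClass c, H ∉ hesseClass c' := fun c c' hcc H hH hH' =>
    (Finset.disjoint_left.1 (hdisj c c' hcc)) hH hH'
  refine ⟨{ A := hesseClass
            m := fun _ => 1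
            X := hessePoints
            d := 3
            disj := hdisj
            m_pos := fun _ _ _ => Nat.one_pos
            X_sub := ?_
            sum_m := ?_
            meet := ?_
            mult := ?_
            conn := ?_ }, rfl, rfl, fun _ => rfl, rfl⟩
  · intro P hP
    obtain ⟨c, c', hcc, H, hH, H', hH', h2, h3⟩ := (hX P).1 hP
    refine ⟨c, c', H, hH, H', hH', ?_, h2, h3⟩
    rintro rfl
    exact hcls c c' hcc H hH hH'
  · intro i
    rw [Finset.sum_const, hcard i, smul_eq_mul, mul_one]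
  · intro i j hij H hH H' hH' P h2 h3
    exact (hX P).2 ⟨i, j, hij, H, hH, H', hH', h2, h3⟩
  · have key : ∀ P ∈ hessePoints, ∀ i, ∑ H ∈ hesseClass i with OnLine P H, 1 = 1 := by
      intro P hP i
      obtain ⟨H, ⟨hH, hPH⟩, hu⟩ := huniq P hP i
      have h2 : (hesseClass i).filter (fun H => OnLine P H) = {H} := by
        ext H'
        rw [Finset.mem_filter, Finset.mem_singleton]
        constructor
        · exact fun h => hu H' h
        · rintro rfl
          exact ⟨hH, hPH⟩
      rw [h2, Finset.sum_singleton]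
    intro P hP i j
    rw [key P hP i, key P hP j]
  · intro i
    -- another class
    obtain ⟨j, hij⟩ : ∃ j : Fin 4, i ≠ j := by
      by_cases h : i = 0
      · exact ⟨1, by rw [h]; decide⟩
      · exact ⟨0, h⟩
    have hXj : ∀ R ∈ hessePoints, ∃ H' ∈ hesseClass j, OnLine R H' := by
      intro R hR
      obtain ⟨H', h, -⟩ := huniq R hR j
      exact ⟨H', h.1, h.2⟩
    have hconn : ∀ H ∈ hesseClass i, IsConnected ({P | OnLine P H} \ hessePoints) := by
      intro H hH
      obtain ⟨H1, hH1, H2, hH2, h12⟩ := exists_ne_mem (hcard j)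
      have hne1 : H ≠ H1 := fun h => hcls i j hij H hH (h ▸ hH1)
      have hne2 : H ≠ H2 := fun h => hcls i j hij H hH (h ▸ hH2)
      have hP1 : OnLine (Projectivization.cross H H1) H := Projectivization.cross_orthogonal_left hne1
      have hP1' : OnLine (Projectivization.cross H H1) H1 :=
        Projectivization.cross_orthogonal_right hne1
      have hP2 : OnLine (Projectivization.cross H H2) H := Projectivization.cross_orthogonal_left hne2
      have hP2' : OnLine (Projectivization.cross H H2) H2 :=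
        Projectivization.cross_orthogonal_right hne2
      have hPX : Projectivization.cross H H1 ∈ hessePoints :=
        (hX _).2 ⟨i, j, hij, H, hH, H1, hH1, hP1, hP1'⟩
      have hPP : Projectivization.cross H H1 ≠ Projectivization.cross H H2 := by
        intro h
        obtain ⟨H', -, hu⟩ := huniq _ hPX j
        have e1 := hu H1 ⟨hH1, hP1'⟩
        have e2 := hu H2 ⟨hH2, by rw [h]; exact hP2'⟩
        exact h12 (e1.trans e2.symm)
      exact conn_line hPP hP1 hP2 hPX (hcls i j hij H hH) hXj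
    have hset : (⋃ H ∈ hesseClass i, {P | OnLine P H}) \ hessePoints =
        ⋃ H ∈ (hesseClass i : Set Plane), ({P | OnLine P H} \ hessePoints) := by
      ext P
      simp only [Set.mem_sdiff, Set.mem_iUnion, Set.mem_ofPred_eq, exists_prop, Finset.mem_coe]
      constructor
      · rintro ⟨⟨H, hH, h2⟩, h3⟩
        exact ⟨H, hH, h2, h3⟩
      · rintro ⟨H, hH, h2, h3⟩
        exact ⟨⟨H, hH, h2⟩, h3⟩
    show IsConnected ((⋃ H ∈ hesseClass i, {P | OnLine P H}) \ hessePoints)
    rw [hset]
    apply IsConnected.biUnion_of_reflTransGen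
    · obtain ⟨H1, hH1, -⟩ := exists_ne_mem (hcard i)
      exact ⟨H1, hH1⟩
    · exact hconn
    · intro H hH H' hH'
      by_cases hHH : H = H'
      · rw [hHH]
      · apply Relation.ReflTransGen.single
        refine ⟨?_, hH⟩
        have hP1 : OnLine (Projectivization.cross H H') H :=
          Projectivization.cross_orthogonal_left hHH
        have hP2 : OnLine (Projectivization.cross H H') H' :=
          Projectivization.cross_orthogonal_right hHH
        have hPX : Projectivization.cross H H' ∉ hessePoints := by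
          intro h
          obtain ⟨H'', -, hu⟩ := huniq _ h i
          exact hHH ((hu H ⟨hH, hP1⟩).trans (hu H' ⟨hH', hP2⟩).symm)
        exact ⟨_, ⟨hP1, hPX⟩, ⟨hP2, hPX⟩⟩

end Pool.Agent.MUB
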