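import Pool.Agent.MUB.Stmts

set_option autoImplicit false

open scoped Classical Matrix LinearAlgebra.Projectivization
open Finset Matrix

namespace Pool.Agent.MUB

namespace HPT_

lemma prim : IsPrimitiveRoot om 3 := by
  have h := Complex.isPrimitiveRoot_exp 3 (by norm_num)
  have e : (2 * (Real.pi : ℂ) * Complex.I / ((3 : ℕ) : ℂ)) = 2 * (Real.pi : ℂ) * Complex.I / 3 := by
    norm_num
  rw [e] at h
  exact h

lemma cube : om ^ 3 = 1 := prim.pow_eq_one

lemma sum : 1 + om + om ^ 2 = 0 := by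
  have h := cube
  have h1 : (om - 1) * (1 + om + om ^ 2) = 0 := by linear_combination h
  rcases mul_eq_zero.mp h1 with h2 | h2
  · exact absurd (sub_eq_zero.mp h2) (prim.ne_one (by norm_num))
  · exact h2

lemma pow_inj {j k : ℕ} (hj : j < 3) (hk : k < 3) (h : om ^ j = om ^ k) : j = k :=
  prim.pow_inj hj hk h

lemma lt3 {c : Fin 4} (h : c ≠ 3) : (c : ℕ) < 3 := by
  have h1 := c.2
  have h2 : (c : ℕ) ≠ 3 := fun h3 => h (Fin.ext h3)
  omega

lemma hv_three (j : Fin 3) : hv 3 j = Pi.single j 1 := by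
  unfold hv
  rw [if_pos rfl]

lemma hv_lt {c : Fin 4} (h : c ≠ 3) (j : Fin 3) :
    hv c j = ![1, om ^ (j : ℕ), om ^ ((c : ℕ) + 2 * (j : ℕ))] := by
  unfold hv
  rw [if_neg h]

lemma on_iff (P : Plane) (c : Fin 4) (j : Fin 3) :
    OnLine P (hesseLine c j) ↔ P.rep ⬝ᵥ hv c j = 0 := by
  have h : P = Projectivization.mk ℂ P.rep P.rep_nonzero := (P.mk_rep).symm
  unfold OnLine hesseLine
  conv_lhs => rw [h]
  rw [Projectivization.orthogonal_mk]

/-- two lines are equal iff their vectors are proportional -/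
lemma line_eq {c c' : Fin 4} {j j' : Fin 3} (h : hesseLine c j = hesseLine c' j') :
    ∃ a : ℂ, a ≠ 0 ∧ ∀ i, a * hv c' j' i = hv c j i := by
  unfold hesseLine at h
  rw [Projectivization.mk_eq_mk_iff] at h
  obtain ⟨a, ha⟩ := h
  refine ⟨(a : ℂ), a.ne_zero, fun i => ?_⟩
  have := congrFun ha i
  simpa [Units.smul_def] using this

lemma line_inj {c c' : Fin 4} {j j' : Fin 3} (h : hesseLine c j = hesseLine c' j') :
    c = c' ∧ j = j' := by
  obtain ⟨a, ha0, ha⟩ := line_eq h
  by_cases hc : c = 3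
  · subst hc
    by_cases hc' : c' = 3
    · subst hc'
      refine ⟨rfl, ?_⟩
      by_contra hne
      have h1 := ha j'
      rw [hv_three, hv_three, Pi.single_eq_same, Pi.single_eq_of_ne (fun h => hne h.symm)] at h1
      rw [mul_one] at h1
      exact ha0 h1
    · exfalso
      rw [hv_three, hv_lt hc'] at ha
      have hom : om ≠ 0 := om_ne
      have h0 := ha 0
      have h1 := ha 1
      fin_cases j
      · simp [ha0, hom] at h1
      · simp [ha0] at h0
      · simp [ha0] at h0
  · by_cases hc' : c' = 3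
    · subst hc'
      exfalso
      rw [hv_three, hv_lt hc] at ha
      have hom : om ≠ 0 := om_ne
      have h0 := ha 0
      have h1 := ha 1
      fin_cases j'
      · have h2 : (0 : ℂ) = om ^ (j : ℕ) := by simpa using h1
        exact pow_ne_zero _ hom h2.symm
      · simp at h0
      · simp at h0
    · rw [hv_lt hc, hv_lt hc'] at ha
      have h0 := ha 0
      have h1 := ha 1
      have h2 := ha 2
      simp only [Matrix.cons_val_zero, mul_one] at h0
      subst h0
      simp only [Matrix.cons_val_one, Matrix.cons_val_zero, one_mul] at h1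
      have hj : (j' : ℕ) = j := pow_inj j'.2 j.2 h1
      have h3 : om ^ ((c' : ℕ) + 2 * (j' : ℕ)) = om ^ ((c : ℕ) + 2 * (j : ℕ)) := by
        simpa using h2
      rw [hj, pow_add, pow_add] at h3
      have h4 : om ^ (c' : ℕ) = om ^ (c : ℕ) := mul_right_cancel₀ (pow_ne_zero _ om_ne) h3
      have hcc : (c' : ℕ) = c := pow_inj (lt3 hc') (lt3 hc) h4
      exact ⟨(Fin.ext hcc).symm, (Fin.ext hj).symm⟩

/-- the form `x + om^j y + om^(c+2j) z` -/
noncomputable def L (c j : ℕ) (x y z : ℂ) : ℂ := x + om ^ j * y + om ^ (c + 2 * j) * z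

lemma on_lt {c : Fin 4} (h : c ≠ 3) (P : Plane) (j : Fin 3) :
    OnLine P (hesseLine c j) ↔ L c j (P.rep 0) (P.rep 1) (P.rep 2) = 0 := by
  rw [on_iff, hv_lt h]
  unfold L
  simp only [dotProduct, Fin.sum_univ_three, Matrix.cons_val_zero, Matrix.cons_val_one,
    Matrix.cons_val]
  constructor
  · intro h1
    rw [← h1]
    ring
  · intro h1
    rw [← h1]
    ring

lemma on_three (P : Plane) (j : Fin 3) : OnLine P (hesseLine 3 j) ↔ P.rep j = 0 := by
  rw [on_iff, hv_three, dotProduct_single, mul_one]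

lemma prod_L (c : ℕ) (x y z : ℂ) :
    L c 0 x y z * L c 1 x y z * L c 2 x y z =
      x ^ 3 + y ^ 3 + z ^ 3 - 3 * om ^ c * (x * y * z) := by
  have hs := sum
  have hc := cube
  have hcc : (om ^ c) ^ 3 = 1 := by
    rw [← pow_mul, mul_comm, pow_mul, hc, one_pow]
  unfold L
  rw [pow_add, pow_add, pow_add]
  generalize om ^ c = t at *
  have h2 : om ^ 2 = -1 - om := by linear_combination hs
  have h4 : om ^ 4 = om := by linear_combination om * hc
  simp only [mul_zero, pow_zero, mul_one, pow_one, one_mul]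
  norm_num
  rw [h4, h2]
  have hz : z ^ 3 = (t * z) ^ 3 := by rw [mul_pow, hcc, one_mul]
  rw [hz]
  have h3 : om ^ 3 = 1 := hc
  ring_nf
  simp only [h2]
  ring_nf

lemma exists_L (c : ℕ) (x y z : ℂ) :
    (∃ j : Fin 3, L c j x y z = 0) ↔ x ^ 3 + y ^ 3 + z ^ 3 - 3 * om ^ c * (x * y * z) = 0 := by
  rw [← prod_L]
  constructor
  · rintro ⟨j, hj⟩
    fin_cases j
    · simp at hj
      rw [hj]; ring
    · simp at hj
      rw [hj]; ring
    · simp at hj
      rw [hj]; ring
  · intro h
    rcases mul_eq_zero.1 h with h | h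
    · rcases mul_eq_zero.1 h with h | h
      · exact ⟨0, by simpa using h⟩
      · exact ⟨1, by simpa using h⟩
    · exact ⟨2, by simpa using h⟩

lemma sum_x (c : ℕ) (x y z : ℂ) : 3 * x = L c 0 x y z + L c 1 x y z + L c 2 x y z := by
  have hs := sum
  have hc := cube
  unfold L
  rw [pow_add, pow_add, pow_add]
  generalize om ^ c = t at *
  linear_combination (-(y + t * z)) * hs - (t * z * om) * hc

lemma sum_y (c : ℕ) (x y z : ℂ) :
    3 * y = L c 0 x y z + om ^ 2 * L c 1 x y z + om * L c 2 x y z := by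
  have hs := sum
  have hc := cube
  unfold L
  rw [pow_add, pow_add, pow_add]
  generalize om ^ c = t at *
  linear_combination (-(x + t * z)) * hs - (2 * y + t * z * om + t * z * om ^ 2) * hc

lemma sum_z (c : ℕ) (x y z : ℂ) :
    3 * (om ^ c * z) = L c 0 x y z + om * L c 1 x y z + om ^ 2 * L c 2 x y z := by
  have hs := sum
  have hc := cube
  unfold L
  rw [pow_add, pow_add, pow_add]
  generalize om ^ c = t at *
  linear_combination (-(x + y)) * hs - (t * z + y * om + t * z * (1 + om ^ 3)) * hc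

/-- if two of the forms vanish and `xyz = 0` then `x = y = z = 0` -/
lemma two_L {c : ℕ} {j k : Fin 3} (hjk : j ≠ k) {x y z : ℂ} (h1 : L c j x y z = 0)
    (h2 : L c k x y z = 0) (h : x * y * z = 0) : x = 0 ∧ y = 0 ∧ z = 0 := by
  have hx := sum_x c x y z
  have hy := sum_y c x y z
  have hz := sum_z c x y z
  have hom : om ≠ 0 := om_ne
  have hc : om ^ c ≠ 0 := pow_ne_zero _ hom
  have key : ∀ a b d w : ℂ, a ≠ 0 → b ≠ 0 → d ≠ 0 → 3 * x = a * w → 3 * y = b * w →
      3 * (om ^ c * z) = d * w → x = 0 ∧ y = 0 ∧ z = 0 := by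
    intro a b d w ha hb hd e1 e2 e3
    have hw : w = 0 := by
      have : (a * b * d) * w ^ 3 = 0 := by
        have e4 : (a * b * d) * w ^ 3 = (a * w) * (b * w) * (d * w) := by ring
        rw [e4, ← e1, ← e2, ← e3]
        linear_combination 27 * om ^ c * h
      rcases mul_eq_zero.1 this with h5 | h5
      · exact absurd h5 (mul_ne_zero (mul_ne_zero ha hb) hd)
      · exact pow_eq_zero_iff (by norm_num) |>.1 h5
    rw [hw, mul_zero] at e1 e2 e3
    refine ⟨?_, ?_, ?_⟩
    · simpa using e1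
    · simpa using e2
    · rcases mul_eq_zero.1 e3 with h6 | h6
      · norm_num at h6
      · exact (mul_eq_zero.1 h6).resolve_left hc
  fin_cases j <;> fin_cases k <;> simp at hjk h1 h2
  · rw [h1, h2] at hx hy hz
    exact key 1 om (om ^ 2) (L c 2 x y z) one_ne_zero hom (pow_ne_zero _ hom)
      (by rw [hx]; ring) (by rw [hy]; ring) (by rw [hz]; ring)
  · rw [h1, h2] at hx hy hz
    exact key 1 (om ^ 2) om (L c 1 x y z) one_ne_zero (pow_ne_zero _ hom) hom
      (by rw [hx]; ring) (by rw [hy]; ring) (by rw [hz]; ring)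
  · rw [h1, h2] at hx hy hz
    exact key 1 om (om ^ 2) (L c 2 x y z) one_ne_zero hom (pow_ne_zero _ hom)
      (by rw [hx]; ring) (by rw [hy]; ring) (by rw [hz]; ring)
  · rw [h1, h2] at hx hy hz
    exact key 1 1 1 (L c 0 x y z) one_ne_zero one_ne_zero one_ne_zero
      (by rw [hx]; ring) (by rw [hy]; ring) (by rw [hz]; ring)
  · rw [h1, h2] at hx hy hz
    exact key 1 (om ^ 2) om (L c 1 x y z) one_ne_zero (pow_ne_zero _ hom) hom
      (by rw [hx]; ring) (by rw [hy]; ring) (by rw [hz]; ring)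
  · rw [h1, h2] at hx hy hz
    exact key 1 1 1 (L c 0 x y z) one_ne_zero one_ne_zero one_ne_zero
      (by rw [hx]; ring) (by rw [hy]; ring) (by rw [hz]; ring)

/-- the form vanishing on the lines of the class -/
noncomputable def G (c : Fin 4) (x y z : ℂ) : ℂ :=
  if c = 3 then x * y * z else x ^ 3 + y ^ 3 + z ^ 3 - 3 * om ^ (c : ℕ) * (x * y * z)

lemma ex_iff (P : Plane) (c : Fin 4) :
    (∃ j, OnLine P (hesseLine c j)) ↔ G c (P.rep 0) (P.rep 1) (P.rep 2) = 0 := by
  unfold G
  by_cases hc : c = 3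
  · subst hc
    rw [if_pos rfl]
    simp only [on_three]
    constructor
    · rintro ⟨j, hj⟩
      fin_cases j
      · simp at hj
        rw [hj]; ring
      · simp at hj
        rw [hj]; ring
      · simp at hj
        rw [hj]; ring
    · intro h
      rcases mul_eq_zero.1 h with h | h
      · rcases mul_eq_zero.1 h with h | h
        · exact ⟨0, h⟩
        · exact ⟨1, h⟩
      · exact ⟨2, h⟩
  · rw [if_neg hc, ← exists_L]
    exact exists_congr (fun j => on_lt hc P j)

lemma mem_class (c : Fin 4) (H : Plane) : H ∈ hesseClass c ↔ ∃ j, hesseLine c j = H := by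
  unfold hesseClass
  simp

lemma rep_zero (P : Plane) (h0 : P.rep 0 = 0) (h1 : P.rep 1 = 0) (h2 : P.rep 2 = 0) : False := by
  apply P.rep_nonzero
  funext i
  fin_cases i
  · exact h0
  · exact h1
  · exact h2

end HPT_

open HPT_ in
theorem hpt_proof : Stmt_HPT := by
  have hmem : ∀ P : Plane, P ∈ hessePoints ↔
      P.rep 0 ^ 3 + P.rep 1 ^ 3 + P.rep 2 ^ 3 = 0 ∧ P.rep 0 * P.rep 1 * P.rep 2 = 0 := by
    intro P
    rfl
  have hall : ∀ P ∈ hessePoints, ∀ c, ∃ j, OnLine P (hesseLine c j) := by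
    intro P hP c
    rw [hmem] at hP
    rw [ex_iff]
    unfold G
    split_ifs
    · exact hP.2
    · rw [hP.1, hP.2]; ring
  refine ⟨?_, ?_, ?_, ?_⟩
  · intro c
    unfold hesseClass
    rw [card_image_of_injective _ (fun j j' h => (line_inj h).2)]
    simp
  · intro c c' hcc
    rw [Finset.disjoint_left]
    intro H hH hH'
    obtain ⟨j, hj⟩ := (mem_class _ _).1 hH
    obtain ⟨j', hj'⟩ := (mem_class _ _).1 hH'
    exact hcc (line_inj (hj.trans hj'.symm)).1
  · intro P
    constructor
    · intro hP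
      obtain ⟨j, hj⟩ := hall P hP 0
      obtain ⟨j', hj'⟩ := hall P hP 1
      exact ⟨0, 1, by decide, _, (mem_class _ _).2 ⟨j, rfl⟩, _, (mem_class _ _).2 ⟨j', rfl⟩, hj, hj'⟩
    · rintro ⟨c, c', hcc, H, hH, H', hH', h1, h2⟩
      obtain ⟨j, rfl⟩ := (mem_class _ _).1 hH
      obtain ⟨j', rfl⟩ := (mem_class _ _).1 hH'
      have e1 := (ex_iff P c).1 ⟨j, h1⟩
      have e2 := (ex_iff P c').1 ⟨j', h2⟩
      rw [hmem]
      unfold G at e1 e2
      split_ifs at e1 e2 with h3 h4 h4
      · exact absurd (h3.trans h4.symm) hcc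
      · exact ⟨by rw [e1] at e2; linear_combination e2, e1⟩
      · exact ⟨by rw [e2] at e1; linear_combination e1, e2⟩
      · have hne : om ^ (c : ℕ) - om ^ (c' : ℕ) ≠ 0 := by
          intro h5
          exact hcc (Fin.ext (pow_inj (lt3 h3) (lt3 h4) (sub_eq_zero.1 h5)))
        have h6 : (om ^ (c : ℕ) - om ^ (c' : ℕ)) * (P.rep 0 * P.rep 1 * P.rep 2) = 0 := by
          linear_combination (1 / 3 : ℂ) * e2 - (1 / 3 : ℂ) * e1
        have h7 := (mul_eq_zero.1 h6).resolve_left hne
        exact ⟨by rw [h7] at e1; linear_combination e1, h7⟩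
  · intro P hP c
    obtain ⟨j, hj⟩ := hall P hP c
    refine ⟨hesseLine c j, ⟨(mem_class _ _).2 ⟨j, rfl⟩, hj⟩, ?_⟩
    rintro H ⟨hH, hPH⟩
    obtain ⟨k, rfl⟩ := (mem_class _ _).1 hH
    by_contra hne
    have hjk : j ≠ k := fun h => hne (by rw [h])
    rw [hmem] at hP
    by_cases hc : c = 3
    · subst hc
      rw [on_three] at hj hPH
      have hcube := hP.1
      have h0 : ∀ w : ℂ, w ^ 3 = 0 → w = 0 := fun w h => pow_eq_zero_iff (by norm_num) |>.1 h
      fin_cases j <;> fin_cases k <;> simp at hjk hj hPH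
      · exact rep_zero P hj hPH (h0 _ (by rw [hj, hPH] at hcube; linear_combination hcube))
      · exact rep_zero P hj (h0 _ (by rw [hj, hPH] at hcube; linear_combination hcube)) hPH
      · exact rep_zero P hPH hj (h0 _ (by rw [hj, hPH] at hcube; linear_combination hcube))
      · exact rep_zero P (h0 _ (by rw [hj, hPH] at hcube; linear_combination hcube)) hj hPH
      · exact rep_zero P hPH (h0 _ (by rw [hj, hPH] at hcube; linear_combination hcube)) hj
      · exact rep_zero P (h0 _ (by rw [hj, hPH] at hcube; linear_combination hcube)) hPH hj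
    · rw [on_lt hc] at hj hPH
      obtain ⟨e0, e1, e2⟩ := two_L hjk hj hPH hP.2
      exact rep_zero P e0 e1 e2

end Pool.Agent.MUB
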