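import Pool.Agent.MUB.Stmts

set_option autoImplicit false

open scoped Classical Matrix LinearAlgebra.Projectivization
open Finset Matrix

namespace Pool.Agent.MUB

namespace MIN_

lemma nsq_star (u : Fin 3 → ℂ) : nsq (star u) = nsq u := by
  unfold nsq
  refine Finset.sum_congr rfl (fun i _ => ?_)
  rw [Pi.star_apply, RCLike.star_def, Complex.normSq_conj]

lemma cauchy (u v : Fin 3 → ℂ) : Complex.normSq (u ⬝ᵥ v) ≤ nsq u * nsq v := by
  have h := hip_le (star u) v
  rw [nsq_star] at h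
  unfold hip at h
  rwa [star_star] at h

lemma hadamard (B : Matrix (Fin 3) (Fin 3) ℂ) :
    Complex.normSq B.det ≤ ∏ i, nsq (B i) := by
  have h1 : B = ![B 0, B 1, B 2] := by
    funext i
    fin_cases i <;> rfl
  have h2 : B.det = B 0 ⬝ᵥ crossProduct (B 1) (B 2) := by
    rw [triple_product_eq_det]
    exact congrArg Matrix.det h1
  rw [h2]
  have h3 := cauchy (B 0) (crossProduct (B 1) (B 2))
  have h4 : nsq (crossProduct (B 1) (B 2)) ≤ nsq (B 1) * nsq (B 2) := by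
    have := lagrange (B 1) (B 2)
    have := hip_nonneg (B 1) (B 2)
    linarith
  rw [Fin.prod_univ_three]
  have h5 := mul_le_mul_of_nonneg_left h4 (nsq_nonneg (B 0))
  calc _ ≤ _ := h3
    _ ≤ _ := h5
    _ = _ := by ring

lemma rows {L : Type} (a : L → Fin 3 → ℂ) (s : Fin 3 → L) (g : Matrix (Fin 3) (Fin 3) ℂ) :
    (Matrix.of fun i => g *ᵥ a (s i)) = (Matrix.of fun i => a (s i)) * gᵀ := by
  ext i k
  simp [Matrix.mul_apply, Matrix.mulVec, dotProduct, mul_comm]

lemma had2 {L : Type} (a : L → Fin 3 → ℂ) (s : Fin 3 → L) (g : Matrix (Fin 3) (Fin 3) ℂ)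
    (hg : g.det = 1) :
    Complex.normSq (Matrix.det (Matrix.of fun i => a (s i))) ≤ ∏ i, nsq (g *ᵥ a (s i)) := by
  have h := hadamard (Matrix.of fun i => g *ᵥ a (s i))
  rw [rows, Matrix.det_mul, Matrix.det_transpose, hg, mul_one] at h
  rw [← rows] at h
  exact h

lemma mulVec_ne {g : Matrix (Fin 3) (Fin 3) ℂ} (hg : g.det ≠ 0) {u : Fin 3 → ℂ} (hu : u ≠ 0) :
    g *ᵥ u ≠ 0 := by
  intro h
  exact hu (Matrix.eq_zero_of_mulVec_eq_zero hg h)

lemma cont_nsq (u : Fin 3 → ℂ) :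
    Continuous (fun g : Matrix (Fin 3) (Fin 3) ℂ => nsq (g *ᵥ u)) := by
  unfold nsq Matrix.mulVec dotProduct
  refine continuous_finset_sum _ (fun i _ => ?_)
  refine Complex.continuous_normSq.comp ?_
  refine continuous_finset_sum _ (fun k _ => ?_)
  exact (continuous_apply_apply i k).mul continuous_const

lemma contOn {L : Type} [Fintype L] (a : L → Fin 3 → ℂ) (m : L → ℝ) (ha : ∀ l, a l ≠ 0) :
    ContinuousOn (ff a m) {g : Matrix (Fin 3) (Fin 3) ℂ | g.det = 1} := by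
  unfold ff
  refine ContinuousOn.sub ?_ ?_
  · refine continuousOn_finset_sum _ (fun l _ => ?_)
    refine ContinuousOn.mul continuousOn_const ?_
    refine ContinuousOn.log (cont_nsq (a l)).continuousOn ?_
    intro g hg
    have hg' : g.det ≠ 0 := by
      rw [Set.mem_setOf_eq] at hg
      rw [hg]
      exact one_ne_zero
    exact (nsq_pos (mulVec_ne hg' (ha l))).ne'
  · refine ContinuousOn.mul continuousOn_const ?_
    refine ContinuousOn.log ?_ ?_
    · exact (Complex.continuous_normSq.comp (continuous_id.matrix_det)).continuousOn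
    · intro g hg
      rw [Set.mem_setOf_eq] at hg
      simp [hg]

lemma ff_scale {L : Type} [Fintype L] (a : L → Fin 3 → ℂ) (m : L → ℝ) (ha : ∀ l, a l ≠ 0)
    (h : Matrix (Fin 3) (Fin 3) ℂ) (hh : h.det ≠ 0) (c : ℂ) (hc : c ≠ 0) :
    ff a m (c • h) = ff a m h := by
  unfold ff
  have hcn : Complex.normSq c ≠ 0 := by
    rwa [Ne, Complex.normSq_eq_zero]
  have hdn : Complex.normSq h.det ≠ 0 := by
    rwa [Ne, Complex.normSq_eq_zero]
  have h1 : ∀ l, Real.log (nsq ((c • h) *ᵥ a l)) =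
      Real.log (Complex.normSq c) + Real.log (nsq (h *ᵥ a l)) := by
    intro l
    rw [Matrix.smul_mulVec, nsq_smul, Real.log_mul hcn (nsq_pos (mulVec_ne hh (ha l))).ne']
  have h2 : Real.log (Complex.normSq (c • h).det) =
      3 * Real.log (Complex.normSq c) + Real.log (Complex.normSq h.det) := by
    rw [Matrix.det_smul, Fintype.card_fin, Complex.normSq_mul, map_pow,
      Real.log_mul (pow_ne_zero _ hcn) hdn, Real.log_pow]
    norm_num
  simp only [h1, h2, mul_add, Finset.sum_add_distrib, ← Finset.sum_mul]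
  ring

lemma bdd {L J : Type} [Fintype L] [Fintype J] [Nonempty J] (a : L → Fin 3 → ℂ) (m : L → ℝ)
    (t : J → Fin 3 → L) (w : J → ℝ) (K : ℝ)
    (ha : ∀ l, a l ≠ 0) (hw : ∀ j, 0 < w j)
    (hdet : ∀ j, Matrix.det (Matrix.of fun i => a (t j i)) ≠ 0)
    (hsum : ∀ F : L → ℝ, ∑ j, w j * ∑ i, F (t j i) = K * ∑ l, m l * F l)
    (hlink : ∀ l l', ∃ j j', ∀ F : L → ℝ, F l - F l' = ∑ i, F (t j i) - ∑ i, F (t j' i))
    (hK : 0 < K) (F0 : ℝ) :
    ∃ R : ℝ, ∀ g : Matrix (Fin 3) (Fin 3) ℂ, g.det = 1 → ff a m g ≤ F0 →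
      ∀ l, nsq (g *ᵥ a l) ≤ R := by
  set c : J → ℝ := fun j => Real.log (Complex.normSq (Matrix.det (Matrix.of fun i => a (t j i))))
    with hc
  set E : ℝ := |K * F0| + ∑ j, w j * |c j| with hE
  set C1 : ℝ := ∑ j, E / w j + ∑ j, |c j| with hC1
  have hE0 : 0 ≤ E := add_nonneg (abs_nonneg _)
    (Finset.sum_nonneg (fun j _ => mul_nonneg (hw j).le (abs_nonneg _)))
  have hs1 : 0 ≤ ∑ j, |c j| := Finset.sum_nonneg (fun j _ => abs_nonneg _)
  have hs2 : 0 ≤ ∑ j, E / w j := Finset.sum_nonneg (fun j _ => div_nonneg hE0 (hw j).le)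
  refine ⟨Real.exp (7 * C1 / 3), ?_⟩
  intro g hg hf
  have hg0 : g.det ≠ 0 := by rw [hg]; exact one_ne_zero
  have hpos : ∀ l, 0 < nsq (g *ᵥ a l) := fun l => nsq_pos (mulVec_ne hg0 (ha l))
  set N : L → ℝ := fun l => Real.log (nsq (g *ᵥ a l)) with hN
  have hff : ff a m g = ∑ l, m l * N l := by
    unfold ff
    rw [hg]
    simp [hN]
  have hlow : ∀ j, c j ≤ ∑ i, N (t j i) := by
    intro j
    have h1 := had2 a (t j) g hg
    have h2 : 0 < Complex.normSq (Matrix.det (Matrix.of fun i => a (t j i))) :=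
      Complex.normSq_pos.2 (hdet j)
    have h3 := Real.log_le_log h2 h1
    rw [Real.log_prod (fun i _ => (hpos _).ne')] at h3
    exact h3
  have hup : ∀ j, w j * ∑ i, N (t j i) ≤ E := by
    intro j
    have h1 := hsum N
    rw [← hff] at h1
    have h2 : K * ff a m g ≤ K * F0 := mul_le_mul_of_nonneg_left hf hK.le
    have h3 := Finset.add_sum_erase Finset.univ (fun j => w j * ∑ i, N (t j i)) (Finset.mem_univ j)
    have h4 : -∑ j' ∈ Finset.univ.erase j, w j' * |c j'| ≤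
        ∑ j' ∈ Finset.univ.erase j, w j' * ∑ i, N (t j' i) := by
      rw [← Finset.sum_neg_distrib]
      refine Finset.sum_le_sum (fun j' _ => ?_)
      have := hlow j'
      have := neg_abs_le (c j')
      nlinarith [hw j']
    have h5 : ∑ j' ∈ Finset.univ.erase j, w j' * |c j'| ≤ ∑ j', w j' * |c j'| :=
      Finset.sum_le_sum_of_subset_of_nonneg (Finset.erase_subset _ _)
        (fun j' _ _ => mul_nonneg (hw j').le (abs_nonneg _))
    have h6 := le_abs_self (K * F0)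
    linarith
  have hup2 : ∀ j, ∑ i, N (t j i) ≤ C1 := by
    intro j
    have h1 : ∑ i, N (t j i) ≤ E / w j := by
      rw [le_div_iff₀ (hw j)]
      have := hup j
      linarith
    have h2 : E / w j ≤ ∑ j, E / w j :=
      Finset.single_le_sum (f := fun j => E / w j) (fun j _ => div_nonneg hE0 (hw j).le)
        (Finset.mem_univ j)
    linarith
  have hlow2 : ∀ j, -C1 ≤ ∑ i, N (t j i) := by
    intro j
    have h1 := hlow j
    have h2 : |c j| ≤ ∑ j, |c j| :=
      Finset.single_le_sum (f := fun j => |c j|) (fun j _ => abs_nonneg _) (Finset.mem_univ j)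
    have h3 := neg_abs_le (c j)
    linarith
  have hdiff : ∀ l l', N l - N l' ≤ 2 * C1 := by
    intro l l'
    obtain ⟨j, j', h⟩ := hlink l l'
    rw [h N]
    have := hup2 j
    have := hlow2 j'
    linarith
  intro l
  obtain ⟨j0⟩ := (inferInstance : Nonempty J)
  have h1 := hup2 j0
  have h2 : ∑ i : Fin 3, (N l - N (t j0 i)) ≤ ∑ i : Fin 3, 2 * C1 :=
    Finset.sum_le_sum (fun i _ => hdiff _ _)
  rw [Finset.sum_sub_distrib] at h2
  simp only [Finset.sum_const, Finset.card_univ, Fintype.card_fin, nsmul_eq_mul] at h2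
  have h3 : N l ≤ 7 * C1 / 3 := by
    push_cast at h2
    linarith
  rw [← Real.log_le_iff_le_exp (hpos l)]
  exact h3

lemma bdd2 (A : Matrix (Fin 3) (Fin 3) ℂ) (hA : A.det ≠ 0) (R : ℝ) :
    ∃ B : ℝ, ∀ g : Matrix (Fin 3) (Fin 3) ℂ, (∀ i, nsq (g *ᵥ (A i)) ≤ R) →
      ∀ i j, ‖g i j‖ ≤ B := by
  refine ⟨∑ j, ∑ l, ‖A⁻¹ j l‖ * Real.sqrt R, ?_⟩
  intro g hg i j
  have h1 : gᵀ = A⁻¹ * (A * gᵀ) := by
    rw [← Matrix.mul_assoc, Matrix.nonsing_inv_mul _ (isUnit_iff_ne_zero.2 hA), Matrix.one_mul]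
  have h2 : g i j = ∑ l, A⁻¹ j l * (A * gᵀ) l i := by
    have := congrFun (congrFun h1 j) i
    rw [Matrix.transpose_apply, Matrix.mul_apply] at this
    exact this
  have h3 : ∀ l, ‖(A * gᵀ) l i‖ ≤ Real.sqrt R := by
    intro l
    apply Real.le_sqrt_of_sq_le
    have e1 : (A * gᵀ) l i = (g *ᵥ A l) i := by
      simp [Matrix.mul_apply, Matrix.mulVec, dotProduct, mul_comm]
    rw [e1, ← Complex.normSq_eq_norm_sq]
    refine le_trans ?_ (hg l)
    unfold nsq
    exact Finset.single_le_sum (f := fun k => Complex.normSq ((g *ᵥ A l) k))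
      (fun k _ => Complex.normSq_nonneg _) (Finset.mem_univ i)
  rw [h2]
  calc ‖∑ l, A⁻¹ j l * (A * gᵀ) l i‖ ≤ ∑ l, ‖A⁻¹ j l * (A * gᵀ) l i‖ := norm_sum_le _ _
    _ ≤ ∑ l, ‖A⁻¹ j l‖ * Real.sqrt R := by
        refine Finset.sum_le_sum (fun l _ => ?_)
        rw [norm_mul]
        exact mul_le_mul_of_nonneg_left (h3 l) (norm_nonneg _)
    _ ≤ ∑ j, ∑ l, ‖A⁻¹ j l‖ * Real.sqrt R :=
        Finset.single_le_sum (f := fun j => ∑ l, ‖A⁻¹ j l‖ * Real.sqrt R)
          (fun k _ => Finset.sum_nonneg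
            (fun l _ => mul_nonneg (norm_nonneg _) (Real.sqrt_nonneg _))) (Finset.mem_univ j)

end MIN_

open MIN_ in
theorem min_proof : Stmt_MIN := by
  intro L J _ _ _ a m t w K hm ha hK hw hdet hsum hlink
  obtain ⟨R, hR⟩ := bdd a m t w K ha hw hdet hsum hlink hK (ff a m 1)
  obtain ⟨j0⟩ := (inferInstance : Nonempty J)
  obtain ⟨B, hB⟩ := bdd2 (Matrix.of fun i => a (t j0 i)) (hdet j0) R
  set D : Set (Matrix (Fin 3) (Fin 3) ℂ) := {g | g.det = 1} with hD
  set S : Set (Matrix (Fin 3) (Fin 3) ℂ) := D ∩ (ff a m) ⁻¹' (Set.Iic (ff a m 1)) with hS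
  have hDc : IsClosed D := isClosed_eq continuous_id.matrix_det continuous_const
  have hcon : ContinuousOn (ff a m) D := contOn a m ha
  have hSc : IsClosed S := hcon.preimage_isClosed_of_isClosed hDc isClosed_Iic
  have hSb : S ⊆ Set.pi Set.univ (fun _ : Fin 3 => Set.pi Set.univ
      (fun _ : Fin 3 => Metric.closedBall (0 : ℂ) B)) := by
    intro g hg i _ j _
    rw [mem_closedBall_zero_iff]
    exact hB g (fun i => hR g hg.1 hg.2 _) i j
  have hcomp : IsCompact (Set.pi Set.univ (fun _ : Fin 3 => Set.pi Set.univ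
      (fun _ : Fin 3 => Metric.closedBall (0 : ℂ) B))) :=
    isCompact_univ_pi (fun _ => isCompact_univ_pi (fun _ => isCompact_closedBall _ _))
  have hSk : IsCompact S := IsCompact.of_isClosed_subset hcomp hSc hSb
  have h1S : (1 : Matrix (Fin 3) (Fin 3) ℂ) ∈ S :=
    ⟨Matrix.det_one, Set.mem_Iic.2 (le_refl (ff a m 1))⟩
  obtain ⟨g, hgS, hgmin⟩ := hSk.exists_isMinOn ⟨1, h1S⟩ (hcon.mono Set.inter_subset_left)
  have hg1 : g.det = 1 := hgS.1
  refine ⟨g, by rw [hg1]; exact one_ne_zero, ?_⟩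
  intro h hh
  obtain ⟨c, hc⟩ := IsAlgClosed.exists_pow_nat_eq (h.det)⁻¹ (show 0 < 3 by norm_num)
  have hc0 : c ≠ 0 := by
    rintro rfl
    rw [zero_pow (by norm_num)] at hc
    exact (inv_ne_zero hh) hc.symm
  have hch : (c • h).det = 1 := by
    rw [Matrix.det_smul, Fintype.card_fin, hc, inv_mul_cancel₀ hh]
  rw [← ff_scale a m ha h hh c hc0]
  by_cases hle : ff a m (c • h) ≤ ff a m 1
  · exact hgmin ⟨hch, hle⟩
  · have h2 : ff a m g ≤ ff a m 1 := hgS.2
    linarith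

end Pool.Agent.MUB
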