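import Pool.Agent.MUB.Stmts
import Pool.Agent.MUB.Classify

set_option autoImplicit false

open scoped Classical Matrix LinearAlgebra.Projectivization
open Finset Matrix

namespace Pool.Agent.MUB

theorem mub_proof : Stmt_MUB := by
  intro u hon hub
  obtain ⟨g, σ, τ, h⟩ := classify u hon hub
  refine ⟨g, σ, τ, ?_⟩
  intro i a
  obtain ⟨t, ht, h1⟩ := h i a
  refine ⟨t, ht, ?_⟩
  rw [h1]
  have h2 : Classify_.H (σ i) (τ i a) = hv (σ i) (τ i a) := by
    unfold Classify_.H hv om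
    by_cases h3 : σ i = 3
    · have h4 : ((σ i : Fin 4) : ℕ) = 3 := by rw [h3]; rfl
      rw [if_pos h4, if_pos h3]
    · have h4 : ¬ ((σ i : Fin 4) : ℕ) = 3 := fun h5 => h3 (Fin.ext h5)
      rw [if_neg h4, if_neg h3]
  rw [h2]

end Pool.Agent.MUB
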