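import Pool.Agent.MUB.Stmts

set_option autoImplicit false

open scoped Classical Matrix LinearAlgebra.Projectivization
open Finset Matrix

namespace Pool.Agent.MUB

namespace ORT_

lemma star_dot_self (u : Fin 3 → ℂ) : star u ⬝ᵥ u = (nsq u : ℂ) := by
  unfold nsq
  rw [Complex.ofReal_sum]
  unfold dotProduct
  refine Finset.sum_congr rfl (fun i _ => ?_)
  rw [Pi.star_apply, RCLike.star_def, Complex.normSq_eq_conj_mul_self]

end ORT_

theorem ort_proof (h1 : Stmt_THI) (h2 : Stmt_DIM) : Stmt_ORT := by
  intro L X _ _ U
  have hN : U.N = 3 := h2 L U.cls U.a U.N U.N_two U.card_cls U.a_ne U.unit (h1 L X U) U.bal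
  have hc : ∀ i, (univ.filter (fun l => U.cls l = i)).card = 3 := fun i => by
    rw [U.card_cls, hN]
  let e : ∀ i, {l // l ∈ univ.filter (fun l => U.cls l = i)} ≃ Fin 3 := fun i =>
    Finset.equivFinOfCardEq (hc i)
  refine ⟨fun i j => ((e i).symm j).1, ?_, ?_, ?_, ?_⟩
  · intro i a b hab
    exact (e i).symm.injective (Subtype.ext hab)
  · intro i l
    constructor
    · intro h
      refine ⟨e i ⟨l, by simp [h]⟩, ?_⟩
      simp
    · rintro ⟨j, rfl⟩
      exact (mem_filter.1 ((e i).symm j).2).2
  · intro i a b
    split_ifs with hab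
    · subst hab
      rw [ORT_.star_dot_self, U.unit]
      simp
    · set la := ((e i).symm a).1 with hla
      set lb := ((e i).symm b).1 with hlb
      have hla' : la ∈ univ.filter (fun l => U.cls l = i) := ((e i).symm a).2
      have hlb' : lb ∈ univ.filter (fun l => U.cls l = i) := ((e i).symm b).2
      have hne : la ≠ lb := fun h => hab ((e i).symm.injective (Subtype.ext h))
      have hbal := U.bal i (U.a lb)
      rw [hN, U.unit] at hbal
      have hsub : ({la, lb} : Finset L) ⊆ univ.filter (fun l => U.cls l = i) := by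
        intro l hl
        rw [mem_insert, mem_singleton] at hl
        rcases hl with rfl | rfl
        · exact hla'
        · exact hlb'
      have hle : ∑ l ∈ ({la, lb} : Finset L), hip (U.a l) (U.a lb) ≤
          ∑ l with U.cls l = i, hip (U.a l) (U.a lb) :=
        Finset.sum_le_sum_of_subset_of_nonneg hsub (fun _ _ _ => hip_nonneg _ _)
      rw [Finset.sum_pair hne, hip_self, U.unit, hbal] at hle
      have h0 : hip (U.a la) (U.a lb) = 0 := by
        have := hip_nonneg (U.a la) (U.a lb)
        norm_num at hle
        linarith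
      unfold hip at h0
      exact Complex.normSq_eq_zero.1 h0
  · intro i j a b hij
    refine h1 L X U _ _ ?_
    rw [(mem_filter.1 ((e i).symm a).2).2, (mem_filter.1 ((e j).symm b).2).2]
    exact hij

end Pool.Agent.MUB
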