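import Pool.Agent.MUB.Stmts

/-!
PEN: constant ratio of the products of opposite squared sines
-/

set_option autoImplicit false

open scoped Classical Matrix
open Finset Matrix

namespace Pool.Agent.MUB

noncomputable section

namespace PEN_

lemma exists_kappa {u v e : Fin 3 → ℂ} (he : e ≠ 0) (hu : u ⬝ᵥ e = 0) (hv : v ⬝ᵥ e = 0) :
    ∃ κ : ℂ, crossProduct u v = κ • e := by
  obtain ⟨i, hi⟩ := Function.ne_iff.mp he
  simp only [Pi.zero_apply] at hi
  simp only [dotProduct, Fin.sum_univ_three] at hu hv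
  have h01 : e 0 * (crossProduct u v) 1 = e 1 * (crossProduct u v) 0 := by
    simp [cross_apply]
    linear_combination (-v 2) * hu + u 2 * hv
  have h02 : e 0 * (crossProduct u v) 2 = e 2 * (crossProduct u v) 0 := by
    simp [cross_apply]
    linear_combination (v 1) * hu - u 1 * hv
  have h12 : e 1 * (crossProduct u v) 2 = e 2 * (crossProduct u v) 1 := by
    simp [cross_apply]
    linear_combination (-v 0) * hu + u 0 * hv
  have key : ∀ a : Fin 3, e i * (crossProduct u v) a = e a * (crossProduct u v) i := by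
    intro a
    fin_cases i <;> fin_cases a <;> simp only [Fin.zero_eta, Fin.mk_one, Fin.reduceFinMk] <;>
      first
        | rfl
        | exact h01
        | exact h02
        | exact h12
        | exact h01.symm
        | exact h02.symm
        | exact h12.symm
  refine ⟨(crossProduct u v) i / e i, ?_⟩
  funext a
  simp only [Pi.smul_apply, smul_eq_mul]
  field_simp
  linear_combination key a

/-- two forms vanishing at the same point of a line are proportional on the line -/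
lemma two_forms {b b1 b2 e v v' : Fin 3 → ℂ} (hb : b ≠ 0) (he : e ≠ 0)
    (h : b ⬝ᵥ e = 0) (h1 : b1 ⬝ᵥ e = 0) (h2 : b2 ⬝ᵥ e = 0) (hv : b ⬝ᵥ v = 0) (hv' : b ⬝ᵥ v' = 0) :
    (b1 ⬝ᵥ v) * (b2 ⬝ᵥ v') = (b1 ⬝ᵥ v') * (b2 ⬝ᵥ v) := by
  obtain ⟨κ, hκ⟩ := exists_kappa he h1 h2
  obtain ⟨μ, hμ⟩ := exists_kappa (u := v) (v := v') hb
    (by rw [dotProduct_comm]; exact hv) (by rw [dotProduct_comm]; exact hv')
  have := cross_dot_cross b1 b2 v v'
  rw [hκ, hμ, smul_dotProduct, dotProduct_smul, dotProduct_comm e b, h] at this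
  simp only [smul_zero] at this
  linear_combination -this

variable {L X : Type} [Fintype L] [Fintype X] (U : UNet L X)

lemma a_ne_zero (l : L) : U.a l ≠ 0 := by
  intro h
  have := U.unit l
  rw [h, nsq_eq_zero.2 rfl] at this
  exact zero_ne_one this

/-- the lines of class `c` correspond to the points of a line of another class -/
lemma prod_pts (l : L) (c : Fin 4) (hc : c ≠ U.cls l) (g : L → ℂ) :
    ∏ l1 with U.cls l1 = c, g l1 = ∏ x with U.a l ⬝ᵥ U.e x = 0, g (U.ln x c) := by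
  symm
  apply Finset.prod_bij (fun x _ => U.ln x c)
  · intro x _
    simp [U.cls_ln]
  · intro x hx y hy hxy
    simp only [mem_filter, mem_univ, true_and] at hx hy
    have hne : U.cls l ≠ U.cls (U.ln x c) := by
      rw [U.cls_ln]; exact hc.symm
    obtain ⟨z, _, hz⟩ := U.meet l (U.ln x c) hne
    have h1 : U.a (U.ln x c) ⬝ᵥ U.e x = 0 := (U.ln_spec x _).2 (by rw [U.cls_ln])
    have h2 : U.a (U.ln x c) ⬝ᵥ U.e y = 0 := by
      apply (U.ln_spec y _).2
      rw [U.cls_ln]
      exact hxy.symm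
    rw [hz x ⟨hx, h1⟩, hz y ⟨hy, h2⟩]
  · intro l1 hl1
    simp only [mem_filter, mem_univ, true_and] at hl1
    have hne : U.cls l ≠ U.cls l1 := by rw [hl1]; exact hc.symm
    obtain ⟨x, ⟨h1, h2⟩, _⟩ := U.meet l l1 hne
    refine ⟨x, by simpa using h1, ?_⟩
    have := (U.ln_spec x l1).1 h2
    rw [hl1] at this
    exact this
  · intro x _
    rfl

/-- the product of the forms of a class -/
def F (c : Fin 4) (v : Fin 3 → ℂ) : ℂ := ∏ l with U.cls l = c, (U.a l ⬝ᵥ v)

lemma F_swap (l : L) (j k : Fin 4) (hj : j ≠ U.cls l) (hk : k ≠ U.cls l) (v v' : Fin 3 → ℂ)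
    (hv : U.a l ⬝ᵥ v = 0) (hv' : U.a l ⬝ᵥ v' = 0) :
    F U j v * F U k v' = F U j v' * F U k v := by
  unfold F
  rw [prod_pts U l j hj, prod_pts U l k hk, prod_pts U l j hj, prod_pts U l k hk,
    ← prod_mul_distrib, ← prod_mul_distrib]
  apply prod_congr rfl
  intro x hx
  simp only [mem_filter, mem_univ, true_and] at hx
  have h1 : U.a (U.ln x j) ⬝ᵥ U.e x = 0 := (U.ln_spec x _).2 (by rw [U.cls_ln])
  have h2 : U.a (U.ln x k) ⬝ᵥ U.e x = 0 := (U.ln_spec x _).2 (by rw [U.cls_ln])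
  exact two_forms (a_ne_zero U l) (U.e_ne x) hx h1 h2 hv hv'

lemma F_cross_ne (l l' : L) (hll : l ≠ l') (hcls : U.cls l' = U.cls l) (c : Fin 4)
    (hc : c ≠ U.cls l) : F U c (crossProduct (U.a l) (U.a l')) ≠ 0 := by
  unfold F
  rw [Finset.prod_ne_zero_iff]
  intro l1 hl1 h0
  simp only [mem_filter, mem_univ, true_and] at hl1
  have hne : U.cls l ≠ U.cls l1 := by rw [hl1]; exact hc.symm
  obtain ⟨x, ⟨h1, h2⟩, _⟩ := U.meet l l1 hne
  set z := crossProduct (U.a l) (U.a l') with hz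
  have hz0 : z ≠ 0 := U.a_ne l l' hll
  have hl1ne : l ≠ l1 := fun h => hne (by rw [h])
  have hcr : crossProduct (U.a l) (U.a l1) ≠ 0 := U.a_ne l l1 hl1ne
  have hlz : U.a l ⬝ᵥ z = 0 := dot_self_cross _ _
  have hlz' : U.a l' ⬝ᵥ z = 0 := dot_cross_self _ _
  obtain ⟨κ, hκ⟩ := exists_kappa (U.e_ne x) h1 h2
  obtain ⟨μ, hμ⟩ := exists_kappa hz0 hlz h0
  have hκ0 : κ ≠ 0 := by
    intro h
    rw [h, zero_smul] at hκ
    exact hcr hκ
  have h3 : U.a l' ⬝ᵥ U.e x = 0 := by
    have h4 : U.a l' ⬝ᵥ (κ • U.e x) = 0 := by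
      rw [← hκ, hμ, dotProduct_smul, hlz', smul_zero]
    rw [dotProduct_smul, smul_eq_mul] at h4
    exact (mul_eq_zero.1 h4).resolve_left hκ0
  have e1 := (U.ln_spec x l).1 h1
  have e2 := (U.ln_spec x l').1 h3
  rw [hcls, e1] at e2
  exact hll e2

lemma exists_const (i j k : Fin 4) (hij : j ≠ i) (hik : k ≠ i) :
    ∃ C : ℂ, C ≠ 0 ∧ ∀ l, U.cls l = i → ∀ v, U.a l ⬝ᵥ v = 0 → F U j v = C * F U k v := by
  have hcard : 1 < (univ.filter (fun l => U.cls l = i)).card := by
    rw [U.card_cls i]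
    exact lt_of_lt_of_le one_lt_two U.N_two
  obtain ⟨l0, h0, l0', h0', hne⟩ := Finset.one_lt_card.1 hcard
  simp only [mem_filter, mem_univ, true_and] at h0 h0'
  have hj0 := F_cross_ne U l0 l0' hne (by rw [h0, h0']) j (by rw [h0]; exact hij)
  have hk0 := F_cross_ne U l0 l0' hne (by rw [h0, h0']) k (by rw [h0]; exact hik)
  set z0 := crossProduct (U.a l0) (U.a l0') with hz0
  have hbase : ∀ v, U.a l0 ⬝ᵥ v = 0 → F U j v = (F U j z0 / F U k z0) * F U k v := by
    intro v hv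
    have := F_swap U l0 j k (by rw [h0]; exact hij) (by rw [h0]; exact hik) v z0 hv
      (dot_self_cross _ _)
    field_simp
    linear_combination this
  refine ⟨F U j z0 / F U k z0, div_ne_zero hj0 hk0, ?_⟩
  intro l hl v hv
  by_cases hll : l = l0
  · rw [hll] at hv
    exact hbase v hv
  · set z := crossProduct (U.a l0) (U.a l) with hz
    have hkz : F U k z ≠ 0 :=
      F_cross_ne U l0 l (Ne.symm hll) (by rw [hl, h0]) k (by rw [h0]; exact hik)
    have e1 := hbase z (dot_self_cross _ _)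
    have e2 := F_swap U l j k (by rw [hl]; exact hij) (by rw [hl]; exact hik) v z hv
      (dot_cross_self _ _)
    rw [e1] at e2
    apply mul_right_cancel₀ hkz
    linear_combination e2

/-- the derivative of `F_c` at a base point -/
def pc (x : X) (c : Fin 4) : ℂ :=
  ∏ l ∈ (univ.filter (fun l => U.cls l = c)).erase (U.ln x c), (U.a l ⬝ᵥ U.e x)

lemma pc_ne (x : X) (c : Fin 4) : pc U x c ≠ 0 := by
  unfold pc
  rw [Finset.prod_ne_zero_iff]
  intro l hl h0
  simp only [mem_erase, mem_filter, mem_univ, true_and] at hl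
  have := (U.ln_spec x l).1 h0
  rw [hl.2] at this
  exact hl.1 this.symm

lemma deriv_rel (x : X) (i j k : Fin 4) (C : ℂ)
    (hC : ∀ l, U.cls l = i → ∀ v, U.a l ⬝ᵥ v = 0 → F U j v = C * F U k v)
    (w : Fin 3 → ℂ) (hw : U.a (U.ln x i) ⬝ᵥ w = 0) :
    (U.a (U.ln x j) ⬝ᵥ w) * pc U x j = C * ((U.a (U.ln x k) ⬝ᵥ w) * pc U x k) := by
  set P : Fin 4 → ℂ → ℂ := fun c t =>
    ∏ l ∈ (univ.filter (fun l => U.cls l = c)).erase (U.ln x c),
      (U.a l ⬝ᵥ U.e x + t * (U.a l ⬝ᵥ w)) with hP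
  have hx : ∀ c, U.a (U.ln x c) ⬝ᵥ U.e x = 0 := fun c =>
    (U.ln_spec x _).2 (by rw [U.cls_ln])
  have hF : ∀ c t, F U c (U.e x + t • w) = t * ((U.a (U.ln x c) ⬝ᵥ w) * P c t) := by
    intro c t
    unfold F
    have hmem : U.ln x c ∈ univ.filter (fun l => U.cls l = c) := by simp [U.cls_ln]
    rw [← Finset.mul_prod_erase _ _ hmem]
    have e1 : U.a (U.ln x c) ⬝ᵥ (U.e x + t • w) = t * (U.a (U.ln x c) ⬝ᵥ w) := by
      rw [dotProduct_add, hx c, dotProduct_smul, zero_add, smul_eq_mul]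
    rw [e1]
    have e2 : ∏ l ∈ (univ.filter (fun l => U.cls l = c)).erase (U.ln x c),
        (U.a l ⬝ᵥ (U.e x + t • w)) = P c t := by
      simp only [hP]
      apply prod_congr rfl
      intro l _
      rw [dotProduct_add, dotProduct_smul, smul_eq_mul]
    rw [e2]
    ring
  have hcont : ∀ c, Continuous (P c) := by
    intro c
    simp only [hP]
    apply continuous_finsetProd
    intro l _
    fun_prop
  have h1 : Continuous (fun t => (U.a (U.ln x j) ⬝ᵥ w) * P j t) :=
    continuous_const.mul (hcont j)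
  have h2 : Continuous (fun t => C * ((U.a (U.ln x k) ⬝ᵥ w) * P k t)) :=
    continuous_const.mul (continuous_const.mul (hcont k))
  have heq : (fun t => (U.a (U.ln x j) ⬝ᵥ w) * P j t) =
      (fun t => C * ((U.a (U.ln x k) ⬝ᵥ w) * P k t)) := by
    apply Continuous.ext_on (dense_compl_singleton (0 : ℂ)) h1 h2
    intro t ht
    have ht0 : t ≠ 0 := by simpa using ht
    have hv : U.a (U.ln x i) ⬝ᵥ (U.e x + t • w) = 0 := by
      rw [dotProduct_add, hx i, dotProduct_smul, hw, smul_zero, add_zero]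
    have h3 := hC (U.ln x i) (U.cls_ln x i) _ hv
    rw [hF, hF] at h3
    simp only
    apply mul_left_cancel₀ ht0
    linear_combination h3
  have h0 := congrFun heq 0
  simp only [hP, zero_mul, add_zero] at h0
  unfold pc
  exact h0

/-- the relation at a base point, up to the factor `e x` -/
lemma kappa_rel (x : X) (i j k : Fin 4) (C : ℂ)
    (hC : ∀ l, U.cls l = i → ∀ v, U.a l ⬝ᵥ v = 0 → F U j v = C * F U k v)
    (κj κk : ℂ) (hj : crossProduct (U.a (U.ln x j)) (U.a (U.ln x i)) = κj • U.e x)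
    (hk : crossProduct (U.a (U.ln x k)) (U.a (U.ln x i)) = κk • U.e x) :
    κj * pc U x j = C * (κk * pc U x k) := by
  set ξ : Fin 3 → ℂ := star (U.e x) with hξ
  have hξ0 : U.e x ⬝ᵥ ξ ≠ 0 := by
    have e1 : U.e x ⬝ᵥ ξ = ((nsq (U.e x) : ℝ) : ℂ) := by
      simp only [hξ, dotProduct, nsq, Pi.star_apply, RCLike.star_def, Complex.mul_conj,
        Complex.ofReal_sum]
    rw [e1]
    have := nsq_pos (U.e_ne x)
    exact_mod_cast this.ne'
  have trip : ∀ u v t : Fin 3 → ℂ, u ⬝ᵥ (crossProduct v t) = (crossProduct u v) ⬝ᵥ t := by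
    intro u v t
    simp only [dotProduct, Fin.sum_univ_three, cross_apply, Matrix.cons_val_zero,
      Matrix.cons_val_one, Matrix.cons_val]
    ring
  have := deriv_rel U x i j k C hC (crossProduct (U.a (U.ln x i)) ξ) (dot_self_cross _ _)
  rw [trip, trip, hj, hk, smul_dotProduct, smul_dotProduct, smul_eq_mul, smul_eq_mul] at this
  apply mul_right_cancel₀ hξ0
  linear_combination this

lemma nsq_kappa {u v e : Fin 3 → ℂ} {κ : ℂ} (h : crossProduct u v = κ • e) :
    nsq (crossProduct u v) = Complex.normSq κ * nsq e := by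
  rw [h, nsq_smul]

lemma nsq_cross_comm (u v : Fin 3 → ℂ) :
    nsq (crossProduct u v) = nsq (crossProduct v u) := by
  rw [lagrange, lagrange, hip_comm, mul_comm]

lemma local_rel (x : X) (i j k l : Fin 4) (C1 C2 : ℂ)
    (h1 : ∀ q, U.cls q = i → ∀ v, U.a q ⬝ᵥ v = 0 → F U j v = C1 * F U k v)
    (h2 : ∀ q, U.cls q = l → ∀ v, U.a q ⬝ᵥ v = 0 → F U j v = C2 * F U k v) :
    Complex.normSq C2 * (nsq (crossProduct (U.a (U.ln x i)) (U.a (U.ln x j))) *
      nsq (crossProduct (U.a (U.ln x k)) (U.a (U.ln x l)))) =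
    Complex.normSq C1 * (nsq (crossProduct (U.a (U.ln x i)) (U.a (U.ln x k))) *
      nsq (crossProduct (U.a (U.ln x j)) (U.a (U.ln x l)))) := by
  have hx : ∀ c, U.a (U.ln x c) ⬝ᵥ U.e x = 0 := fun c =>
    (U.ln_spec x _).2 (by rw [U.cls_ln])
  obtain ⟨κji, hji⟩ := exists_kappa (U.e_ne x) (hx j) (hx i)
  obtain ⟨κki, hki⟩ := exists_kappa (U.e_ne x) (hx k) (hx i)
  obtain ⟨κjl, hjl⟩ := exists_kappa (U.e_ne x) (hx j) (hx l)
  obtain ⟨κkl, hkl⟩ := exists_kappa (U.e_ne x) (hx k) (hx l)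
  have r1 := kappa_rel U x i j k C1 h1 κji κki hji hki
  have r2 := kappa_rel U x l j k C2 h2 κjl κkl hjl hkl
  have pj := pc_ne U x j
  have pk := pc_ne U x k
  have key : C2 * (κji * κkl) = C1 * (κki * κjl) := by
    have hpp : pc U x j * pc U x k ≠ 0 := mul_ne_zero pj pk
    apply mul_right_cancel₀ hpp
    linear_combination (C2 * κkl * pc U x k) * r1 - (C1 * κki * pc U x k) * r2
  have key2 := congrArg Complex.normSq key
  simp only [Complex.normSq_mul] at key2
  rw [nsq_cross_comm (U.a (U.ln x i)) (U.a (U.ln x j)),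
    nsq_cross_comm (U.a (U.ln x i)) (U.a (U.ln x k)),
    nsq_kappa hji, nsq_kappa hki, nsq_kappa hjl, nsq_kappa hkl]
  linear_combination (nsq (U.e x) * nsq (U.e x)) * key2

end PEN_

open PEN_ in
theorem pen_proof : Stmt_PEN := by
  intro L X _ _ U i j k l hij hik hil hjk hjl hkl x y
  obtain ⟨C1, hC1, h1⟩ := exists_const U i j k hij.symm hik.symm
  obtain ⟨C2, hC2, h2⟩ := exists_const U l j k hjl hkl
  have rx := local_rel U x i j k l C1 C2 h1 h2
  have ry := local_rel U y i j k l C1 C2 h1 h2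
  have hN : Complex.normSq C2 ≠ 0 := by
    simpa [Complex.normSq_eq_zero] using hC2
  apply mul_left_cancel₀ hN
  linear_combination (nsq (crossProduct (U.a (U.ln y i)) (U.a (U.ln y k))) *
      nsq (crossProduct (U.a (U.ln y j)) (U.a (U.ln y l)))) * rx -
    (nsq (crossProduct (U.a (U.ln x i)) (U.a (U.ln x k))) *
      nsq (crossProduct (U.a (U.ln x j)) (U.a (U.ln x l)))) * ry

end

end Pool.Agent.MUB
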