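import Mathlib

/-!
# Definitions for the problem MP_51574c_co (4-multinets)

Points and lines of the complex projective plane are both written in homogeneous coordinates, as
elements of `ℙ ℂ (Fin 3 → ℂ)`; the point `P = [v]` lies on the line `H = [a]` if and only if
`v ⬝ a = v 0 * a 0 + v 1 * a 1 + v 2 * a 2 = 0`.
-/

set_option autoImplicit false

open scoped LinearAlgebra.Projectivization Classical
open Finset

namespace Pool.Agent.MUB

noncomputable section

/-- the complex projective plane (used for points and, dually, for lines) -/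
abbrev Plane : Type := ℙ ℂ (Fin 3 → ℂ)

/-- the usual (quotient) topology of the projective plane -/
instance : TopologicalSpace Plane :=
  TopologicalSpace.coinduced
    (fun v : {v : Fin 3 → ℂ // v ≠ 0} => Projectivization.mk ℂ v.1 v.2) inferInstance

/-- the point `P` lies on the line `H` -/
def OnLine (P H : Plane) : Prop := Projectivization.orthogonal P H

/-- `k`-multinets in the complex projective plane -/
structure Multinet (k : ℕ) where
  /-- the classes of lines -/
  A : Fin k → Finset Plane
  /-- the multiplicities of the lines -/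
  m : Plane → ℕ
  /-- the base locus -/
  X : Set Plane
  /-- the common total multiplicity -/
  d : ℕ
  /-- the classes are disjoint -/
  disj : ∀ i j, i ≠ j → Disjoint (A i) (A j)
  /-- the multiplicities are positive -/
  m_pos : ∀ i, ∀ H ∈ A i, 0 < m H
  /-- the base points are intersection points of lines of the arrangement -/
  X_sub : ∀ P ∈ X, ∃ i j, ∃ H ∈ A i, ∃ H' ∈ A j, H ≠ H' ∧ OnLine P H ∧ OnLine P H'
  /-- axiom (1) -/
  sum_m : ∀ i, ∑ H ∈ A i, m H = d
  /-- axiom (2) -/
  meet : ∀ i j, i ≠ j → ∀ H ∈ A i, ∀ H' ∈ A j, ∀ P, OnLine P H → OnLine P H' → P ∈ X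
  /-- axiom (3) -/
  mult : ∀ P ∈ X, ∀ i j, ∑ H ∈ A i with OnLine P H, m H = ∑ H ∈ A j with OnLine P H, m H
  /-- axiom (4) -/
  conn : ∀ i, IsConnected ((⋃ H ∈ A i, {P | OnLine P H}) \ X)

/-- local multinets: all lines pass through one point, one line per class, equal multiplicities
(all equal to `1` after division by a common factor) -/
def Multinet.IsLocal {k : ℕ} (N : Multinet k) : Prop :=
  ∃ P : Plane, N.X = {P} ∧ ∀ i, ∃ H, N.A i = {H} ∧ OnLine P H ∧ N.m H = N.d

/-- two multinets are equivalent if some projective transformation `f` and some renumbering `σ` of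
the classes carries the one to the other, up to common positive factors of the multiplicities.
(The line `H` is carried to the line `H'` if `P` is on `H` exactly when `f P` is on `H'`.) -/
def Multinet.Equivalent {k : ℕ} (N N' : Multinet k) : Prop :=
  ∃ (f : (Fin 3 → ℂ) ≃ₗ[ℂ] (Fin 3 → ℂ)) (σ : Equiv.Perm (Fin k)) (c c' : ℕ), 0 < c ∧ 0 < c' ∧
    (∀ P : Plane, P ∈ N.X ↔ Projectivization.map f.toLinearMap f.injective P ∈ N'.X) ∧
    (∀ H : Plane, ∃ H' : Plane,
      (∀ P : Plane, OnLine P H ↔ OnLine (Projectivization.map f.toLinearMap f.injective P) H') ∧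
      ∀ i, (H ∈ N.A i ↔ H' ∈ N'.A (σ i)) ∧ (H ∈ N.A i → c * N.m H = c' * N'.m H'))

/-- primitive cube root of unity -/
def om : ℂ := Complex.exp (2 * Real.pi * Complex.I / 3)

/-- coefficient vectors of the twelve lines of the Hesse configuration.  Class `3`: the lines
`x = 0`, `y = 0`, `z = 0`; class `c = 0, 1, 2`: the three lines `x + ω^i y + ω^j z = 0` with
`i + j ≡ c mod 3` -/
def hv (c : Fin 4) (j : Fin 3) : Fin 3 → ℂ :=
  if c = 3 then Pi.single j 1 else ![1, om ^ (j : ℕ), om ^ ((c : ℕ) + 2 * (j : ℕ))]

lemma om_ne : om ≠ 0 := Complex.exp_ne_zero _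

lemma hv_ne (c : Fin 4) (j : Fin 3) : hv c j ≠ 0 := by
  unfold hv
  split_ifs with h
  · intro h0
    have := congrFun h0 j
    simp at this
  · intro h0
    have := congrFun h0 0
    simp at this

/-- the lines of the Hesse configuration -/
def hesseLine (c : Fin 4) (j : Fin 3) : Plane := Projectivization.mk ℂ (hv c j) (hv_ne c j)

/-- the classes of the Hesse configuration -/
def hesseClass (c : Fin 4) : Finset Plane := univ.image (hesseLine c)

/-- the nine points of the Hesse configuration: the inflection points of the Fermat cubic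
`x^3 + y^3 + z^3 = 0`, which are its intersection points with its Hessian `x y z = 0` -/
def hessePoints : Set Plane :=
  {P | P.rep 0 ^ 3 + P.rep 1 ^ 3 + P.rep 2 ^ 3 = 0 ∧ P.rep 0 * P.rep 1 * P.rep 2 = 0}

end

end Pool.Agent.MUB
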