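import Pool.Agent.MUB.Basic

/-!
# Statements of the modules of project MUB (MP_51574c_co, 4-multinets)
Paper proof and recipes: MUB blueprint in the team store
-/

set_option autoImplicit false

open scoped Classical Matrix LinearAlgebra.Projectivization
open Finset Matrix

namespace Pool.Agent.MUB

/-- CNT: counting -/
def Stmt_CNT : Prop :=
  ∀ (L X : Type) [Fintype L] [Fintype X] (N : VNet L X),
    (∀ l, ∑ x with N.a l ⬝ᵥ N.e x = 0, N.n x = N.d) ∧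
    (∑ x, N.n x ^ 2 = N.d ^ 2) ∧
    (∀ x, 3 * N.n x ≤ N.d) ∧
    (∑ l, N.m l = 4 * N.d)

/-- WTS: the multiplicities are a positive combination of triples of independent covectors -/
def Stmt_WTS : Prop :=
  ∀ (L X : Type) [Fintype L] [Fintype X] (N : VNet L X),
    ∃ (J : Type) (_ : Fintype J) (_ : Nonempty J) (t : J → Fin 3 → L) (w : J → ℝ) (K : ℝ), 0 < K ∧
      (∀ j, 0 < w j) ∧
      (∀ j, Matrix.det (Matrix.of fun i => N.a (t j i)) ≠ 0) ∧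
      (∀ F : L → ℝ, ∑ j, w j * ∑ i, F (t j i) = K * ∑ l, N.m l * F l) ∧
      (∀ l l', ∃ j j', ∀ F : L → ℝ, F l - F l' = ∑ i, F (t j i) - ∑ i, F (t j' i))

/-- MIN: existence of a minimiser -/
def Stmt_MIN : Prop :=
  ∀ (L J : Type) [Fintype L] [Fintype J] [Nonempty J] (a : L → Fin 3 → ℂ) (m : L → ℝ)
    (t : J → Fin 3 → L) (w : J → ℝ) (K : ℝ),
    (∀ l, 0 < m l) → (∀ l, a l ≠ 0) → 0 < K → (∀ j, 0 < w j) →
    (∀ j, Matrix.det (Matrix.of fun i => a (t j i)) ≠ 0) →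
    (∀ F : L → ℝ, ∑ j, w j * ∑ i, F (t j i) = K * ∑ l, m l * F l) →
    (∀ l l', ∃ j j', ∀ F : L → ℝ, F l - F l' = ∑ i, F (t j i) - ∑ i, F (t j' i)) →
    ∃ g : Matrix (Fin 3) (Fin 3) ℂ, g.det ≠ 0 ∧
      ∀ h : Matrix (Fin 3) (Fin 3) ℂ, h.det ≠ 0 → ff a m g ≤ ff a m h

/-- CRI: a minimiser is balanced -/
def Stmt_CRI : Prop :=
  ∀ (L : Type) [Fintype L] (a : L → Fin 3 → ℂ) (m : L → ℝ) (g : Matrix (Fin 3) (Fin 3) ℂ),
    (∀ l, 0 < m l) → (∀ l, a l ≠ 0) → g.det ≠ 0 →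
    (∀ h : Matrix (Fin 3) (Fin 3) ℂ, h.det ≠ 0 → ff a m g ≤ ff a m h) →
    ∀ v : Fin 3 → ℂ,
      ∑ l, m l * (hip (g *ᵥ a l) v / nsq (g *ᵥ a l)) = (∑ l, m l) / 3 * nsq v

/-- TRA: change of coordinates -/
def Stmt_TRA : Prop :=
  ∀ (L X : Type) [Fintype L] [Fintype X] (N : VNet L X) (g : Matrix (Fin 3) (Fin 3) ℂ),
    g.det ≠ 0 →
    (∀ v : Fin 3 → ℂ, ∑ l, N.m l * (hip (g *ᵥ N.a l) v / nsq (g *ᵥ N.a l)) =
      (∑ l, N.m l) / 3 * nsq v) →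
    ∃ N' : VNet L X, N'.cls = N.cls ∧ N'.m = N.m ∧ N'.n = N.n ∧ N'.d = N.d ∧
      (∀ l x, N'.a l ⬝ᵥ N'.e x = 0 ↔ N.a l ⬝ᵥ N.e x = 0) ∧
      (∀ l, ∃ c : ℂ, c ≠ 0 ∧ N'.a l = c • (g *ᵥ N.a l)) ∧
      (∀ l, nsq (N'.a l) = 1) ∧
      ∀ v, ∑ l, N'.m l * hip (N'.a l) v = 4 * N'.d / 3 * nsq v

/-- WEL: the Welch bound in dimensions 3 and 2, with the case of equality -/
def Stmt_WEL : Prop :=
  ∀ (ι : Type) (S : Finset ι) (b : ι → Fin 3 → ℂ) (w : ι → ℝ), (∀ i ∈ S, nsq (b i) = 1) →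
    ((∑ i ∈ S, w i) ^ 2 / 3 ≤ ∑ i ∈ S, ∑ j ∈ S, w i * w j * hip (b i) (b j)) ∧
    (∑ i ∈ S, ∑ j ∈ S, w i * w j * hip (b i) (b j) = (∑ i ∈ S, w i) ^ 2 / 3 →
      ∀ v, ∑ i ∈ S, w i * hip (b i) v = (∑ i ∈ S, w i) / 3 * nsq v) ∧
    (∀ e : Fin 3 → ℂ, e ≠ 0 → (∀ i ∈ S, b i ⬝ᵥ e = 0) →
      ((∑ i ∈ S, w i) ^ 2 / 2 ≤ ∑ i ∈ S, ∑ j ∈ S, w i * w j * hip (b i) (b j)) ∧
      (∑ i ∈ S, ∑ j ∈ S, w i * w j * hip (b i) (b j) = (∑ i ∈ S, w i) ^ 2 / 2 →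
        ∀ v, v ⬝ᵥ e = 0 → ∑ i ∈ S, w i * hip (b i) v = (∑ i ∈ S, w i) / 2 * nsq v))

/-- EQU: in a balanced metric all the inequalities are equalities -/
def Stmt_EQU : Prop :=
  ∀ (L X : Type) [Fintype L] [Fintype X] (N : VNet L X), (∀ l, nsq (N.a l) = 1) →
    (∀ v, ∑ l, N.m l * hip (N.a l) v = 4 * N.d / 3 * nsq v) →
    (∀ x i, ∃! l, N.cls l = i ∧ N.a l ⬝ᵥ N.e x = 0) ∧
    (∀ l x, N.a l ⬝ᵥ N.e x = 0 → N.m l = N.n x) ∧
    (∀ i v, ∑ l with N.cls l = i, N.m l * hip (N.a l) v = N.d / 3 * nsq v) ∧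
    (∀ x v, v ⬝ᵥ N.e x = 0 → ∑ l with N.a l ⬝ᵥ N.e x = 0, hip (N.a l) v = 2 * nsq v)

/-- UNE: all multiplicities are equal; construction of the net -/
def Stmt_UNE : Prop :=
  ∀ (L X : Type) [Fintype L] [Fintype X] (N : VNet L X), (∀ l, nsq (N.a l) = 1) →
    (∀ x i, ∃! l, N.cls l = i ∧ N.a l ⬝ᵥ N.e x = 0) →
    (∀ l x, N.a l ⬝ᵥ N.e x = 0 → N.m l = N.n x) →
    (∀ i v, ∑ l with N.cls l = i, N.m l * hip (N.a l) v = N.d / 3 * nsq v) →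
    (∀ x v, v ⬝ᵥ N.e x = 0 → ∑ l with N.a l ⬝ᵥ N.e x = 0, hip (N.a l) v = 2 * nsq v) →
    ∃ (U : UNet L X) (m0 : ℝ), U.cls = N.cls ∧ U.a = N.a ∧ U.e = N.e ∧ (∀ l, N.m l = m0) ∧
      N.d = U.N * m0

/-- PEN: the ratios of the products of opposite squared sines are the same at all base points -/
def Stmt_PEN : Prop :=
  ∀ (L X : Type) [Fintype L] [Fintype X] (U : UNet L X) (i j k l : Fin 4),
    i ≠ j → i ≠ k → i ≠ l → j ≠ k → j ≠ l → k ≠ l → ∀ x y : X,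
    (nsq (crossProduct (U.a (U.ln x i)) (U.a (U.ln x j))) *
      nsq (crossProduct (U.a (U.ln x k)) (U.a (U.ln x l)))) *
    (nsq (crossProduct (U.a (U.ln y i)) (U.a (U.ln y k))) *
      nsq (crossProduct (U.a (U.ln y j)) (U.a (U.ln y l)))) =
    (nsq (crossProduct (U.a (U.ln y i)) (U.a (U.ln y j))) *
      nsq (crossProduct (U.a (U.ln y k)) (U.a (U.ln y l)))) *
    (nsq (crossProduct (U.a (U.ln x i)) (U.a (U.ln x k))) *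
      nsq (crossProduct (U.a (U.ln x j)) (U.a (U.ln x l))))

/-- THI: lines of different classes have hip = 1/3 -/
def Stmt_THI : Prop :=
  ∀ (L X : Type) [Fintype L] [Fintype X] (U : UNet L X) (l l' : L), U.cls l ≠ U.cls l' →
    hip (U.a l) (U.a l') = 1 / 3

/-- DIM: three lines in each class -/
def Stmt_DIM : Prop :=
  ∀ (L : Type) [Fintype L] (cls : L → Fin 4) (a : L → Fin 3 → ℂ) (N : ℕ), 2 ≤ N →
    (∀ i, (univ.filter (fun l => cls l = i)).card = N) →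
    (∀ l l', l ≠ l' → crossProduct (a l) (a l') ≠ 0) →
    (∀ l, nsq (a l) = 1) →
    (∀ l l', cls l ≠ cls l' → hip (a l) (a l') = 1 / 3) →
    (∀ i v, ∑ l with cls l = i, hip (a l) v = N / 3 * nsq v) → N = 3

/-- ORT: four mutually unbiased bases -/
def Stmt_ORT : Prop :=
  ∀ (L X : Type) [Fintype L] [Fintype X] (U : UNet L X),
    ∃ lab : Fin 4 → Fin 3 → L, (∀ i, Function.Injective (lab i)) ∧
      (∀ i l, U.cls l = i ↔ ∃ j, lab i j = l) ∧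
      (∀ i a b, star (U.a (lab i a)) ⬝ᵥ U.a (lab i b) = if a = b then 1 else 0) ∧
      (∀ i j a b, i ≠ j →
        Complex.normSq (star (U.a (lab i a)) ⬝ᵥ U.a (lab j b)) = 1 / 3)

/-- MUB: classification of four mutually unbiased bases of `ℂ³` -/
def Stmt_MUB : Prop :=
  ∀ u : Fin 4 → Fin 3 → (Fin 3 → ℂ),
    (∀ i a b, star (u i a) ⬝ᵥ u i b = if a = b then 1 else 0) →
    (∀ i j a b, i ≠ j → Complex.normSq (star (u i a) ⬝ᵥ u j b) = 1 / 3) →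
    ∃ (g : (Fin 3 → ℂ) ≃ₗ[ℂ] (Fin 3 → ℂ)) (σ : Equiv.Perm (Fin 4))
      (τ : Fin 4 → Equiv.Perm (Fin 3)),
      ∀ i a, ∃ t : ℂ, t ≠ 0 ∧ g (u i a) = t • hv (σ i) (τ i a)

/-- CON: if all lines pass through one base point then the multinet is local -/
def Stmt_CON : Prop :=
  ∀ N : Multinet 4, (∃ P ∈ N.X, ∀ i, ∀ H ∈ N.A i, OnLine P H) → N.IsLocal

/-- VNT: vector form of a multinet -/
def Stmt_VNT : Prop :=
  ∀ N : Multinet 4, (¬ ∃ P ∈ N.X, ∀ i, ∀ H ∈ N.A i, OnLine P H) →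
    ∃ (L X : Type) (_ : Fintype L) (_ : Fintype X) (V : VNet L X) (φ : L → Plane)
      (ψ : X → Plane), Function.Injective φ ∧ (∀ l, V.a l = (φ l).rep) ∧
      (∀ x, V.e x = (ψ x).rep) ∧
      (∀ i H, H ∈ N.A i ↔ ∃ l, V.cls l = i ∧ φ l = H) ∧ (∀ P, P ∈ N.X ↔ ∃ x, ψ x = P) ∧
      (∀ l, V.m l = N.m (φ l)) ∧ V.d = N.d

/-- HES: the Hesse configuration is a multinet -/
def Stmt_HES : Prop :=
  ∃ N : Multinet 4, N.A = hesseClass ∧ N.X = hessePoints ∧ (∀ H, N.m H = 1) ∧ N.d = 3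

/-- HPT: the nine points are the intersection points of lines of different classes -/
def Stmt_HPT : Prop :=
  (∀ c, (hesseClass c).card = 3) ∧ (∀ c c', c ≠ c' → Disjoint (hesseClass c) (hesseClass c')) ∧
  (∀ P : Plane, P ∈ hessePoints ↔
    ∃ c c', c ≠ c' ∧ ∃ H ∈ hesseClass c, ∃ H' ∈ hesseClass c', OnLine P H ∧ OnLine P H') ∧
  (∀ P ∈ hessePoints, ∀ c, ∃! H, H ∈ hesseClass c ∧ OnLine P H)

/-- FIN: the final theorem -/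
def Stmt_FIN : Prop :=
  ∃ Hs : Multinet 4, (Hs.A = hesseClass ∧ Hs.X = hessePoints ∧ (∀ H, Hs.m H = 1) ∧ Hs.d = 3) ∧
    ∀ N : Multinet 4, ¬ N.IsLocal → N.Equivalent Hs

end Pool.Agent.MUB
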