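import Pool.Agent.MUB.Stmts

/-!
Module THI: lines of different classes have hip equal to one third.
-/

set_option autoImplicit false

open scoped Classical Matrix LinearAlgebra.Projectivization
open Finset Matrix

namespace Pool.Agent.MUB

namespace THI_

theorem univ_eq : ∀ i j k l : Fin 4, i ≠ j → i ≠ k → i ≠ l → j ≠ k → j ≠ l → k ≠ l →
    (Finset.univ : Finset (Fin 4)) = {i, j, k, l} := by
  decide

theorem sum_four {i j k l : Fin 4} (h1 : i ≠ j) (h2 : i ≠ k) (h3 : i ≠ l) (h4 : j ≠ k)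
    (h5 : j ≠ l) (h6 : k ≠ l) (f : Fin 4 → ℝ) : ∑ t, f t = f i + f j + f k + f l := by
  have hu : ∑ t, f t = ∑ t ∈ ({i, j, k, l} : Finset (Fin 4)), f t := by
    congr 1
    have := univ_eq i j k l h1 h2 h3 h4 h5 h6
    rw [this]
  rw [hu, Finset.sum_insert (by simp [h1, h2, h3]), Finset.sum_insert (by simp [h4, h5]),
    Finset.sum_insert (by simp [h6]), Finset.sum_singleton]
  ring

theorem others : ∀ i j : Fin 4, i ≠ j → ∃ k l : Fin 4, i ≠ k ∧ i ≠ l ∧ j ≠ k ∧ j ≠ l ∧ k ≠ l := by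
  decide

section

variable {L X : Type} [Fintype L] [Fintype X] (U : UNet L X)

/-- squared sine -/
noncomputable def s (x : X) (i j : Fin 4) : ℝ :=
  nsq (crossProduct (U.a (U.ln x i)) (U.a (U.ln x j)))

theorem on_line (x : X) (i : Fin 4) : U.a (U.ln x i) ⬝ᵥ U.e x = 0 := by
  rw [U.ln_spec, U.cls_ln]

theorem s_eq (x : X) (i j : Fin 4) :
    s U x i j = 1 - hip (U.a (U.ln x i)) (U.a (U.ln x j)) := by
  unfold s
  rw [lagrange, U.unit, U.unit, one_mul]

theorem s_symm (x : X) (i j : Fin 4) : s U x i j = s U x j i := by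
  rw [s_eq, s_eq, hip_comm]

theorem s_pos (x : X) {i j : Fin 4} (h : i ≠ j) : 0 < s U x i j := by
  apply nsq_pos
  apply U.a_ne
  intro h0
  apply h
  have h1 := U.cls_ln x i
  have h2 := U.cls_ln x j
  rw [h0] at h1
  rw [← h1, h2]

theorem s_sum (x : X) {i j k l : Fin 4} (h1 : i ≠ j) (h2 : i ≠ k) (h3 : i ≠ l) (h4 : j ≠ k)
    (h5 : j ≠ l) (h6 : k ≠ l) : s U x i j + s U x i k + s U x i l = 2 := by
  have h := U.loc x (U.a (U.ln x i)) (on_line U x i)
  rw [sum_four h1 h2 h3 h4 h5 h6, hip_self, U.unit] at h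
  rw [s_eq, s_eq, s_eq, hip_comm (U.a (U.ln x i)) (U.a (U.ln x j)),
    hip_comm (U.a (U.ln x i)) (U.a (U.ln x k)), hip_comm (U.a (U.ln x i)) (U.a (U.ln x l))]
  linarith

theorem s_opp (x : X) {i j k l : Fin 4} (h1 : i ≠ j) (h2 : i ≠ k) (h3 : i ≠ l) (h4 : j ≠ k)
    (h5 : j ≠ l) (h6 : k ≠ l) : s U x k l = s U x i j := by
  have e1 := s_sum U x h1 h2 h3 h4 h5 h6
  have e2 := s_sum U x h1.symm h4 h5 h2 h3 h6
  have e3 := s_sum U x h2.symm h4.symm h6 h1 h3 h5
  have e4 := s_sum U x h3.symm h5.symm h6.symm h1 h2 h4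
  rw [s_symm U x j i] at e2
  rw [s_symm U x k i, s_symm U x k j] at e3
  rw [s_symm U x l i, s_symm U x l j, s_symm U x l k] at e4
  linarith

theorem ratio {p q p' q' : ℝ} (hp : 0 < p) (hq : 0 < q) (hp' : 0 < p') (hq' : 0 < q')
    (h : (p * p) * (q' * q') = (p' * p') * (q * q)) : p * q' = p' * q := by
  have h1 : (p * q') ^ 2 = (p' * q) ^ 2 := by
    calc (p * q') ^ 2 = (p * p) * (q' * q') := by ring
      _ = (p' * p') * (q * q) := h
      _ = (p' * q) ^ 2 := by ring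
  exact (pow_left_inj₀ (by positivity) (by positivity) (by norm_num)).mp h1

theorem s_const (hP : Stmt_PEN) (x y : X) {i j : Fin 4} (h : i ≠ j) : s U x i j = s U y i j := by
  obtain ⟨k, l, h2, h3, h4, h5, h6⟩ := others i j h
  have p1 := hP L X U i j k l h h2 h3 h4 h5 h6 x y
  have p2 := hP L X U i j l k h h3 h2 h5 h4 h6.symm x y
  change (s U x i j * s U x k l) * (s U y i k * s U y j l) =
    (s U y i j * s U y k l) * (s U x i k * s U x j l) at p1
  change (s U x i j * s U x l k) * (s U y i l * s U y j k) =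
    (s U y i j * s U y l k) * (s U x i l * s U x j k) at p2
  have a1 : ∀ z, s U z k l = s U z i j := fun z => s_opp U z h h2 h3 h4 h5 h6
  have a2 : ∀ z, s U z j l = s U z i k := fun z => s_opp U z h2 h h3 h4.symm h6 h5
  have a3 : ∀ z, s U z j k = s U z i l := fun z => s_opp U z h3 h h2 h5.symm h6.symm h4
  rw [a1, a1, a2, a2] at p1
  rw [s_symm U x l k, s_symm U y l k, a1, a1, a3, a3] at p2
  have q1 := ratio (s_pos U x h) (s_pos U x h2) (s_pos U y h) (s_pos U y h2) p1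
  have q2 := ratio (s_pos U x h) (s_pos U x h3) (s_pos U y h) (s_pos U y h3) p2
  have t1 := s_sum U x h h2 h3 h4 h5 h6
  have t2 := s_sum U y h h2 h3 h4 h5 h6
  have t3 : s U x i j * (s U y i j + s U y i k + s U y i l) =
      s U y i j * (s U x i j + s U x i k + s U x i l) := by
    linear_combination q1 + q2
  rw [t1, t2] at t3
  linarith

theorem meet_pt {l l' : L} (h : U.cls l ≠ U.cls l') :
    ∃ x, U.ln x (U.cls l) = l ∧ U.ln x (U.cls l') = l' := by
  obtain ⟨x, ⟨h1, h2⟩, _⟩ := U.meet l l' h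
  exact ⟨x, (U.ln_spec x l).1 h1, (U.ln_spec x l').1 h2⟩

end

end THI_

open THI_ in
theorem thi_proof (h1 : Stmt_PEN) : Stmt_THI := by
  intro L X _ _ U l l' hl
  obtain ⟨x, hx1, hx2⟩ := meet_pt U hl
  have key : ∀ l'' : L, U.cls l'' = U.cls l' → hip (U.a l'') (U.a l) = hip (U.a l) (U.a l') := by
    intro l'' h''
    have hl'' : U.cls l ≠ U.cls l'' := by rw [h'']; exact hl
    obtain ⟨y, hy1, hy2⟩ := meet_pt U hl''
    have hc := s_const U h1 x y hl
    rw [s_eq, s_eq, hx1, hx2, hy1] at hc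
    rw [h''] at hy2
    rw [hy2] at hc
    rw [hip_comm]
    linarith
  have hb := U.bal (U.cls l') (U.a l)
  rw [U.unit, Finset.sum_congr rfl (fun l'' h'' => key l'' (Finset.mem_filter.mp h'').2),
    Finset.sum_const, U.card_cls, nsmul_eq_mul] at hb
  have hN : (0 : ℝ) < U.N := by
    have := U.N_two
    exact_mod_cast (by omega : 0 < U.N)
  have h3 : (U.N : ℝ) * hip (U.a l) (U.a l') = (U.N : ℝ) * (1 / 3) := by
    rw [hb]; ring
  exact mul_left_cancel₀ hN.ne' h3

end Pool.Agent.MUB
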