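import Pool.Agent.MUB.Stmts

/-!
# TRA: change of coordinates
-/

set_option autoImplicit false

open scoped Classical Matrix LinearAlgebra.Projectivization
open Finset Matrix

namespace Pool.Agent.MUB

namespace TRA_

lemma dot_inv (g : Matrix (Fin 3) (Fin 3) ℂ) (hg : g.det ≠ 0) (u v : Fin 3 → ℂ) :
    (g *ᵥ u) ⬝ᵥ ((g⁻¹)ᵀ *ᵥ v) = u ⬝ᵥ v := by
  have hu : IsUnit g.det := isUnit_iff_ne_zero.2 hg
  rw [dotProduct_mulVec, vecMul_transpose, mulVec_mulVec, nonsing_inv_mul g hu, one_mulVec]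

lemma mulVec_ne (g : Matrix (Fin 3) (Fin 3) ℂ) (hg : g.det ≠ 0) {u : Fin 3 → ℂ} (hu : u ≠ 0) :
    g *ᵥ u ≠ 0 := by
  intro h
  apply hu
  have hU : IsUnit g.det := isUnit_iff_ne_zero.2 hg
  have h2 : g⁻¹ *ᵥ (g *ᵥ u) = 0 := by rw [h, mulVec_zero]
  rwa [mulVec_mulVec, nonsing_inv_mul g hU, one_mulVec] at h2

lemma inv_mulVec_ne (g : Matrix (Fin 3) (Fin 3) ℂ) (hg : g.det ≠ 0) {u : Fin 3 → ℂ}
    (hu : u ≠ 0) : (g⁻¹)ᵀ *ᵥ u ≠ 0 := by
  have hU : IsUnit g.det := isUnit_iff_ne_zero.2 hg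
  apply mulVec_ne _ _ hu
  rw [det_transpose]
  exact (isUnit_nonsing_inv_det g hU).ne_zero

lemma cross_ne (g : Matrix (Fin 3) (Fin 3) ℂ) (hg : g.det ≠ 0) (u v : Fin 3 → ℂ)
    (h : crossProduct u v ≠ 0) (c c' : ℂ) (hc : c ≠ 0) (hc' : c' ≠ 0) :
    crossProduct (c • (g *ᵥ u)) (c' • (g *ᵥ v)) ≠ 0 := by
  rw [LinearMap.map_smul₂, LinearMap.map_smul]
  apply smul_ne_zero hc
  apply smul_ne_zero hc'
  rw [crossProduct_ne_zero_iff_linearIndependent] at h ⊢
  have hinj : Function.Injective (Matrix.toLin' g) := by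
    rw [← LinearMap.ker_eq_bot, LinearMap.ker_eq_bot']
    intro w hw
    by_contra hne
    exact mulVec_ne g hg hne (by simpa using hw)
  have h3 := h.map' (Matrix.toLin' g) (LinearMap.ker_eq_bot.2 hinj)
  have heq : (⇑(Matrix.toLin' g) ∘ ![u, v]) = ![g *ᵥ u, g *ᵥ v] := by
    funext i
    fin_cases i <;> simp
  rw [heq] at h3
  exact h3

end TRA_

open TRA_

theorem tra_proof : Stmt_TRA := by
  intro L X _ _ N g hg hbal
  have hex : ∀ i, ∃ l, N.cls l = i := by
    intro i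
    by_contra hne
    push Not at hne
    have h := N.sum_d i
    have h0 : (univ.filter (fun l => N.cls l = i)) = ∅ := by
      apply Finset.filter_eq_empty_iff.2
      intro l _
      exact hne l
    rw [h0, Finset.sum_empty] at h
    exact absurd h.symm N.d_pos.ne'
  have ha0 : ∀ l, N.a l ≠ 0 := by
    intro l h0
    obtain ⟨l', hl'⟩ := hex (N.cls l + 1)
    have hne : l ≠ l' := by
      rintro rfl
      have : (1 : Fin 4) = 0 := by
        have h1 : N.cls l + 1 = N.cls l + 0 := by rw [add_zero]; exact hl'.symm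
        exact add_left_cancel h1
      exact absurd this (by decide)
    have h2 := N.a_ne l l' hne
    apply h2
    rw [h0]
    simp
  have hs : ∀ l, 0 < nsq (g *ᵥ N.a l) := fun l => nsq_pos (mulVec_ne g hg (ha0 l))
  let c : L → ℂ := fun l => (((Real.sqrt (nsq (g *ᵥ N.a l)))⁻¹ : ℝ) : ℂ)
  have hcr : ∀ l, (Real.sqrt (nsq (g *ᵥ N.a l)))⁻¹ ≠ 0 := fun l =>
    inv_ne_zero (Real.sqrt_pos.2 (hs l)).ne'
  have hc : ∀ l, c l ≠ 0 := fun l => Complex.ofReal_ne_zero.2 (hcr l)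
  have hcn : ∀ l, Complex.normSq (c l) = (nsq (g *ᵥ N.a l))⁻¹ := by
    intro l
    show Complex.normSq ((((Real.sqrt (nsq (g *ᵥ N.a l)))⁻¹ : ℝ) : ℂ)) = _
    rw [Complex.normSq_ofReal, ← mul_inv, Real.mul_self_sqrt (hs l).le]
  have hinc : ∀ l x, (c l • (g *ᵥ N.a l)) ⬝ᵥ ((g⁻¹)ᵀ *ᵥ N.e x) = 0 ↔ N.a l ⬝ᵥ N.e x = 0 := by
    intro l x
    rw [smul_dotProduct, dot_inv g hg, smul_eq_mul, mul_eq_zero]
    simp [hc l]
  have hsum : ∑ l, N.m l = 4 * N.d := by
    have h := Finset.sum_fiberwise (univ : Finset L) N.cls N.m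
    rw [← h, Finset.sum_congr rfl (fun i _ => N.sum_d i)]
    simp
  refine ⟨{ cls := N.cls
            m := N.m
            a := fun l => c l • (g *ᵥ N.a l)
            e := fun x => (g⁻¹)ᵀ *ᵥ N.e x
            n := N.n
            d := N.d
            m_pos := N.m_pos
            n_pos := N.n_pos
            n_lt := N.n_lt
            d_pos := N.d_pos
            a_ne := fun l l' h => cross_ne g hg _ _ (N.a_ne l l' h) _ _ (hc l) (hc l')
            e_ne := fun x => inv_mulVec_ne g hg (N.e_ne x)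
            meet := ?_
            sum_n := ?_
            sum_d := N.sum_d }, rfl, rfl, rfl, rfl, hinc, fun l => ⟨c l, hc l, rfl⟩, ?_, ?_⟩
  · intro l l' h
    have h1 := N.meet l l' h
    simpa only [hinc] using h1
  · intro x i
    rw [← N.sum_n x i]
    apply Finset.sum_congr _ (fun _ _ => rfl)
    ext l
    simp only [Finset.mem_filter, hinc]
  · intro l
    show nsq (c l • (g *ᵥ N.a l)) = 1
    rw [nsq_smul, hcn, inv_mul_cancel₀ (hs l).ne']
  · intro v
    show ∑ l, N.m l * hip (c l • (g *ᵥ N.a l)) v = 4 * N.d / 3 * nsq v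
    rw [← hsum, ← hbal v]
    apply Finset.sum_congr rfl
    intro l _
    rw [hip_smul_left, hcn, div_eq_inv_mul]

end Pool.Agent.MUB
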