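import Pool.Agent.MUB.Stmts

/-!
# MUB, module UNE: all multiplicities are equal; construction of the net
-/

set_option autoImplicit false

open scoped Classical Matrix LinearAlgebra.Projectivization
open Finset Matrix

namespace Pool.Agent.MUB

namespace UNE_

variable {L X : Type} [Fintype L] [Fintype X]

theorem class_nonempty (N : VNet L X) (i : Fin 4) : ∃ l, N.cls l = i := by
  by_contra h
  push Not at h
  have h1 := N.sum_d i
  rw [Finset.filter_false_of_mem (fun l _ => h l), Finset.sum_empty] at h1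
  have := N.d_pos
  linarith

theorem eq_of_ne (N : VNet L X) (hm : ∀ l x, N.a l ⬝ᵥ N.e x = 0 → N.m l = N.n x) {l l' : L}
    (h : N.cls l ≠ N.cls l') : N.m l = N.m l' := by
  obtain ⟨x, ⟨h1, h2⟩, -⟩ := N.meet l l' h
  rw [hm l x h1, hm l' x h2]

theorem exists_ne (i j : Fin 4) : ∃ k : Fin 4, k ≠ i ∧ k ≠ j := by
  revert i j
  decide

theorem eq_all (N : VNet L X) (hm : ∀ l x, N.a l ⬝ᵥ N.e x = 0 → N.m l = N.n x) (l l' : L) :
    N.m l = N.m l' := by
  obtain ⟨k, h1, h2⟩ := exists_ne (N.cls l) (N.cls l')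
  obtain ⟨l'', rfl⟩ := class_nonempty N k
  rw [eq_of_ne N hm h1.symm, eq_of_ne N hm h2]

end UNE_

open UNE_ in
theorem une_proof : Stmt_UNE := by
  intro L X _ _ N hunit hex hm hbal hloc
  obtain ⟨l0, hl0⟩ := class_nonempty N 0
  obtain ⟨l1, hl1⟩ := class_nonempty N 1
  have hall : ∀ l, N.m l = N.m l0 := fun l => eq_all N hm l l0
  have hm0 : 0 < N.m l0 := N.m_pos l0
  have hcard : ∀ i, ((univ.filter (fun l => N.cls l = i)).card : ℝ) * N.m l0 = N.d := by
    intro i
    rw [← N.sum_d i, Finset.sum_congr rfl (fun l _ => hall l), Finset.sum_const, nsmul_eq_mul]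
  set n0 : ℕ := (univ.filter (fun l => N.cls l = 0)).card with hn0
  have hd : N.d = n0 * N.m l0 := (hcard 0).symm
  have hcardi : ∀ i, (univ.filter (fun l => N.cls l = i)).card = n0 := by
    intro i
    have h1 := (hcard i).trans (hcard 0).symm
    have h2 := mul_right_cancel₀ hm0.ne' h1
    exact_mod_cast h2
  have htwo : 2 ≤ n0 := by
    have hne : N.cls l0 ≠ N.cls l1 := by rw [hl0, hl1]; decide
    obtain ⟨x, ⟨h1, -⟩, -⟩ := N.meet l0 l1 hne
    have h2 := N.n_lt x
    rw [← hm l0 x h1, hd] at h2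
    have h3 : (1 : ℝ) < n0 := by
      by_contra h
      push Not at h
      have := mul_le_mul_of_nonneg_right h hm0.le
      linarith
    have h4 : 1 < n0 := by exact_mod_cast h3
    omega
  choose ln hln hun using hex
  refine ⟨{ cls := N.cls, a := N.a, e := N.e, N := n0, ln := ln, N_two := htwo,
            card_cls := hcardi, a_ne := N.a_ne, e_ne := N.e_ne, meet := N.meet,
            cls_ln := fun x i => (hln x i).1, ln_spec := ?_, unit := hunit, bal := ?_,
            loc := ?_ }, N.m l0, rfl, rfl, rfl, hall, hd⟩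
  · intro x l
    constructor
    · intro h
      exact (hun x (N.cls l) l ⟨rfl, h⟩).symm
    · intro h
      have := (hln x (N.cls l)).2
      rwa [h] at this
  · intro i v
    have h1 := hbal i v
    rw [Finset.sum_congr rfl (fun l _ => by rw [hall l]), ← Finset.mul_sum, hd] at h1
    have h2 : N.m l0 * ∑ l with N.cls l = i, hip (N.a l) v =
        N.m l0 * ((n0 : ℝ) / 3 * nsq v) := by
      rw [h1]; ring
    exact mul_left_cancel₀ hm0.ne' h2
  · intro x v hv
    rw [← hloc x v hv]
    refine Finset.sum_bij' (fun i _ => ln x i) (fun l _ => N.cls l) ?_ ?_ ?_ ?_ ?_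
    · intro i _
      exact Finset.mem_filter.2 ⟨mem_univ _, (hln x i).2⟩
    · intro l _
      exact mem_univ _
    · intro i _
      exact (hln x i).1
    · intro l hl
      exact (hun x (N.cls l) l ⟨rfl, (Finset.mem_filter.1 hl).2⟩).symm
    · intro i _
      rfl

end Pool.Agent.MUB
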