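import Pool.Agent.MUB.Stmts

/-!
# VNT (MP_51574c_co): vector form of a multinet
-/

set_option autoImplicit false

open scoped Classical Matrix LinearAlgebra.Projectivization
open Finset Matrix

namespace Pool.Agent.MUB

namespace VNT_

lemma onLine_iff (P H : Plane) : OnLine P H ↔ P.rep ⬝ᵥ H.rep = 0 := by
  conv_lhs => rw [← P.mk_rep, ← H.mk_rep]
  exact Iff.rfl

lemma onLine_iff' (P H : Plane) : OnLine P H ↔ H.rep ⬝ᵥ P.rep = 0 := by
  rw [onLine_iff, dotProduct_comm]

/-- different points of the plane have independent representatives -/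
lemma cross_ne {H H' : Plane} (h : H ≠ H') : crossProduct H.rep H'.rep ≠ 0 := by
  rw [crossProduct_ne_zero_iff_linearIndependent, LinearIndependent.pair_iff' H.rep_nonzero]
  intro a ha
  apply h
  rw [← H.mk_rep, ← H'.mk_rep]
  symm
  rw [Projectivization.mk_eq_mk_iff']
  exact ⟨a, ha⟩

/-- a common zero of two independent linear forms is their cross product, up to a scalar -/
lemma eq_mk_cross {H H' P : Plane} (h : H ≠ H') (h1 : OnLine P H) (h2 : OnLine P H') :
    P = Projectivization.mk ℂ (crossProduct H.rep H'.rep) (cross_ne h) := by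
  rw [onLine_iff'] at h1 h2
  have h3 : crossProduct (crossProduct H.rep H'.rep) P.rep = 0 := by
    rw [cross_cross_eq_smul_sub_smul, h1, h2, zero_smul, zero_smul, sub_zero]
  have h4 : ¬ LinearIndependent ℂ ![crossProduct H.rep H'.rep, P.rep] := by
    rw [← crossProduct_ne_zero_iff_linearIndependent, not_not]
    exact h3
  rw [LinearIndependent.pair_iff' (cross_ne h)] at h4
  push Not at h4
  obtain ⟨a, ha⟩ := h4
  conv_lhs => rw [← P.mk_rep]
  rw [Projectivization.mk_eq_mk_iff']
  exact ⟨a, ha⟩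

/-- two lines meet -/
lemma exists_meet (H H' : Plane) (h : H ≠ H') : ∃ P : Plane, OnLine P H ∧ OnLine P H' := by
  refine ⟨Projectivization.mk ℂ (crossProduct H.rep H'.rep) (cross_ne h), ?_, ?_⟩
  · conv =>
      arg 2
      rw [← H.mk_rep]
    change crossProduct H.rep H'.rep ⬝ᵥ H.rep = 0
    rw [dotProduct_comm, dot_self_cross]
  · conv =>
      arg 2
      rw [← H'.mk_rep]
    change crossProduct H.rep H'.rep ⬝ᵥ H'.rep = 0
    rw [dotProduct_comm, dot_cross_self]

/-- the base locus is finite -/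
lemma finite_X (N : Multinet 4) : N.X.Finite := by
  have hfin : (Set.range (fun p : ↥(univ.biUnion N.A) × ↥(univ.biUnion N.A) =>
      if h : p.1.1 ≠ p.2.1 then
        Projectivization.mk ℂ (crossProduct p.1.1.rep p.2.1.rep) (cross_ne h)
      else p.1.1)).Finite := Set.finite_range _
  refine hfin.subset ?_
  intro P hP
  obtain ⟨i, j, H, hH, H', hH', hne, h1, h2⟩ := N.X_sub P hP
  refine ⟨(⟨H, mem_biUnion.2 ⟨i, mem_univ _, hH⟩⟩, ⟨H', mem_biUnion.2 ⟨j, mem_univ _, hH'⟩⟩), ?_⟩
  simp only []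
  rw [dif_pos hne]
  exact (eq_mk_cross hne h1 h2).symm

/-- the class of a line -/
noncomputable def cl (N : Multinet 4) (l : ↥(univ.biUnion N.A)) : Fin 4 :=
  (mem_biUnion.1 l.2).choose

lemma cl_spec (N : Multinet 4) (l : ↥(univ.biUnion N.A)) : l.1 ∈ N.A (cl N l) :=
  (mem_biUnion.1 l.2).choose_spec.2

lemma cl_eq_iff (N : Multinet 4) (l : ↥(univ.biUnion N.A)) (i : Fin 4) :
    cl N l = i ↔ l.1 ∈ N.A i := by
  constructor
  · rintro rfl
    exact cl_spec N l
  · intro h
    by_contra hne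
    exact (Finset.disjoint_left.1 (N.disj _ _ hne) (cl_spec N l)) h

/-- sums over the subtype -/
lemma sum_sub (N : Multinet 4) (i : Fin 4) (p : Plane → Prop) :
    ∑ l : ↥(univ.biUnion N.A) with (cl N l = i ∧ p l.1), (N.m l.1 : ℝ) =
      ((∑ H ∈ N.A i with p H, N.m H : ℕ) : ℝ) := by
  push_cast
  refine Finset.sum_nbij (fun l => l.1) ?_ ?_ ?_ ?_
  · intro l hl
    rw [mem_filter] at hl ⊢
    exact ⟨(cl_eq_iff N l i).1 hl.2.1, hl.2.2⟩
  · intro l _ l' _ h
    exact Subtype.ext h
  · intro H hH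
    rw [mem_coe, mem_filter] at hH
    refine ⟨⟨H, mem_biUnion.2 ⟨i, mem_univ _, hH.1⟩⟩, ?_, rfl⟩
    rw [mem_coe, mem_filter]
    exact ⟨mem_univ _, (cl_eq_iff N _ i).2 hH.1, hH.2⟩
  · intro l _
    rfl

end VNT_

open VNT_

theorem vnt_proof : Stmt_VNT := by
  intro N hN
  have hXf : Fintype N.X := (finite_X N).fintype
  -- positivity of the local degree
  have hpos : ∀ P ∈ N.X, 0 < ∑ H ∈ N.A 0 with OnLine P H, N.m H := by
    intro P hP
    obtain ⟨i, j, H, hH, H', hH', hne, h1, h2⟩ := N.X_sub P hP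
    rw [N.mult P hP 0 i]
    exact lt_of_lt_of_le (N.m_pos i H hH)
      (Finset.single_le_sum (f := N.m) (fun _ _ => Nat.zero_le _) (mem_filter.2 ⟨hH, h1⟩))
  have hlt : ∀ P ∈ N.X, ∑ H ∈ N.A 0 with OnLine P H, N.m H < N.d := by
    intro P hP
    have hle : ∑ H ∈ N.A 0 with OnLine P H, N.m H ≤ N.d := by
      rw [← N.sum_m 0]
      exact Finset.sum_le_sum_of_subset (filter_subset _ _)
    refine lt_of_le_of_ne hle (fun heq => hN ⟨P, hP, fun i H hH => ?_⟩)
    by_contra hno
    have h1 : ∑ H ∈ N.A i with OnLine P H, N.m H = N.d := by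
      rw [N.mult P hP i 0]
      exact heq
    have h2 := Finset.sum_filter_add_sum_filter_not (N.A i) (fun H => OnLine P H) N.m
    rw [h1, N.sum_m i] at h2
    have h3 : ∑ H ∈ N.A i with ¬ OnLine P H, N.m H = 0 := by omega
    rw [Finset.sum_eq_zero_iff] at h3
    have h4 := h3 H (mem_filter.2 ⟨hH, hno⟩)
    have h5 := N.m_pos i H hH
    omega
  have hd : 0 < N.d := by
    obtain ⟨⟨P, hP⟩, _⟩ := N.conn 0
    have hP' := hP.1
    rw [Set.mem_iUnion₂] at hP'
    obtain ⟨H, hH, _⟩ := hP'
    rw [← N.sum_m 0]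
    exact lt_of_lt_of_le (N.m_pos 0 H hH)
      (Finset.single_le_sum (f := N.m) (fun _ _ => Nat.zero_le _) hH)
  let V : VNet ↥(univ.biUnion N.A) N.X :=
    { cls := cl N
      m := fun l => (N.m l.1 : ℝ)
      a := fun l => l.1.rep
      e := fun x => x.1.rep
      n := fun x => ((∑ H ∈ N.A 0 with OnLine x.1 H, N.m H : ℕ) : ℝ)
      d := (N.d : ℝ)
      m_pos := fun l => by
        exact_mod_cast N.m_pos _ _ (cl_spec N l)
      n_pos := fun x => by
        exact_mod_cast hpos x.1 x.2
      n_lt := fun x => by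
        exact_mod_cast hlt x.1 x.2
      d_pos := by exact_mod_cast hd
      a_ne := fun l l' hne => cross_ne (fun h => hne (Subtype.ext h))
      e_ne := fun x => x.1.rep_nonzero
      meet := fun l l' hne => by
        have hne' : l.1 ≠ l'.1 := by
          intro h
          apply hne
          rw [show l = l' from Subtype.ext h]
        obtain ⟨P, h1, h2⟩ := exists_meet l.1 l'.1 hne'
        refine ⟨⟨P, N.meet _ _ hne l.1 (cl_spec N l) l'.1 (cl_spec N l') P h1 h2⟩, ?_, ?_⟩
        · exact ⟨(onLine_iff' _ _).1 h1, (onLine_iff' _ _).1 h2⟩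
        · rintro x ⟨h3, h4⟩
          apply Subtype.ext
          rw [← onLine_iff'] at h3 h4
          change x.1 = P
          rw [eq_mk_cross hne' h3 h4, eq_mk_cross hne' h1 h2]
      sum_n := fun x i => by
        have h1 := sum_sub N i (fun H => OnLine x.1 H)
        rw [N.mult x.1 x.2 i 0] at h1
        rw [← h1]
        refine Finset.sum_congr ?_ (fun _ _ => rfl)
        ext l
        simp only [mem_filter, onLine_iff']
      sum_d := fun i => by
        have h1 := sum_sub N i (fun _ => True)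
        simp only [and_true, filter_true] at h1
        rw [h1, N.sum_m i] }
  refine ⟨↥(univ.biUnion N.A), N.X, inferInstance, hXf, V, fun l => l.1,
    fun x => x.1, Subtype.val_injective, fun _ => rfl, fun _ => rfl, ?_, ?_, fun _ => rfl, rfl⟩
  · intro i H
    constructor
    · intro hH
      exact ⟨⟨H, mem_biUnion.2 ⟨i, mem_univ _, hH⟩⟩, (cl_eq_iff N _ i).2 hH, rfl⟩
    · rintro ⟨l, h1, h2⟩
      rw [← h2]
      exact (cl_eq_iff N l i).1 h1
  · intro P
    constructor
    · intro hP
      exact ⟨⟨P, hP⟩, rfl⟩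
    · rintro ⟨x, rfl⟩
      exact x.2

end Pool.Agent.MUB
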