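import Pool.Agent.MUB.Stmts

/-!
# WEL: the Welch bound
-/

set_option autoImplicit false

open scoped Classical Matrix ComplexConjugate
open Finset Matrix

namespace Pool.Agent.MUB

namespace WEL_

lemma hip_eq (u v : Fin 3 → ℂ) :
    ((hip u v : ℝ) : ℂ) = (∑ j, u j * conj (v j)) * (∑ k, conj (u k) * v k) := by
  unfold hip
  rw [Complex.normSq_eq_conj_mul_self]
  simp [dotProduct, map_sum]

lemma nsq_eq (u : Fin 3 → ℂ) : ((nsq u : ℝ) : ℂ) = ∑ j, u j * conj (u j) := by
  unfold nsq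
  rw [Complex.ofReal_sum]
  exact Finset.sum_congr rfl fun j _ => (Complex.mul_conj (u j)).symm

section
variable {ι : Type} (S : Finset ι) (b : ι → Fin 3 → ℂ) (w : ι → ℝ)

/-- the frame matrix -/
noncomputable def MM (j k : Fin 3) : ℂ := ∑ i ∈ S, (w i : ℂ) * (b i j * conj (b i k))

lemma sum_hip (v : Fin 3 → ℂ) : ((∑ i ∈ S, w i * hip (b i) v : ℝ) : ℂ) =
    ∑ j, ∑ k, conj (v j) * MM S b w j k * v k := by
  rw [Complex.ofReal_sum]
  have h1 : ∀ i ∈ S, ((w i * hip (b i) v : ℝ) : ℂ) =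
      ∑ j, ∑ k, conj (v j) * ((w i : ℂ) * (b i j * conj (b i k))) * v k := by
    intro i _
    rw [Complex.ofReal_mul, hip_eq, Finset.sum_mul_sum, Finset.mul_sum]
    refine Finset.sum_congr rfl fun j _ => ?_
    rw [Finset.mul_sum]
    refine Finset.sum_congr rfl fun k _ => ?_
    ring
  rw [Finset.sum_congr rfl h1, Finset.sum_comm]
  refine Finset.sum_congr rfl fun j _ => ?_
  rw [Finset.sum_comm]
  refine Finset.sum_congr rfl fun k _ => ?_
  unfold MM
  rw [Finset.mul_sum, Finset.sum_mul]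

lemma sum_sq : ((∑ j, ∑ k, Complex.normSq (MM S b w j k) : ℝ) : ℂ) =
    ((∑ i ∈ S, ∑ j ∈ S, w i * w j * hip (b i) (b j) : ℝ) : ℂ) := by
  have h2 : ((∑ i ∈ S, ∑ j ∈ S, w i * w j * hip (b i) (b j) : ℝ) : ℂ) =
      ∑ l ∈ S, (w l : ℂ) * ∑ j, ∑ k, conj (b l j) * MM S b w j k * b l k := by
    rw [Finset.sum_comm, Complex.ofReal_sum]
    refine Finset.sum_congr rfl fun l _ => ?_
    rw [← sum_hip, ← Complex.ofReal_mul, Finset.mul_sum]
    congr 1
    refine Finset.sum_congr rfl fun i _ => ?_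
    ring
  rw [h2, Complex.ofReal_sum]
  have h3 : ∀ l ∈ S, (w l : ℂ) * ∑ j, ∑ k, conj (b l j) * MM S b w j k * b l k =
      ∑ j, ∑ k, MM S b w j k * conj ((w l : ℂ) * (b l j * conj (b l k))) := by
    intro l _
    rw [Finset.mul_sum]
    refine Finset.sum_congr rfl fun j _ => ?_
    rw [Finset.mul_sum]
    refine Finset.sum_congr rfl fun k _ => ?_
    rw [map_mul, map_mul, Complex.conj_ofReal, Complex.conj_conj]
    ring
  rw [Finset.sum_congr rfl h3, Finset.sum_comm]
  refine Finset.sum_congr rfl fun j _ => ?_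
  rw [Complex.ofReal_sum, Finset.sum_comm]
  refine Finset.sum_congr rfl fun k _ => ?_
  rw [← Finset.mul_sum, ← map_sum, ← Complex.mul_conj]
  rfl

lemma normSq_sub' (x y : ℂ) (c : ℝ) : Complex.normSq (x - c * y) =
    Complex.normSq x - 2 * c * (x * conj y).re + c ^ 2 * Complex.normSq y := by
  simp only [Complex.normSq_apply, Complex.sub_re, Complex.sub_im, Complex.mul_re, Complex.mul_im,
    Complex.ofReal_re, Complex.ofReal_im, Complex.conj_re, Complex.conj_im]
  ring

variable (P : Fin 3 → Fin 3 → ℂ) (r : ℝ)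

lemma key (hb : ∀ i ∈ S, nsq (b i) = 1) (hP : ∀ i ∈ S, ∀ j, ∑ k, P j k * b i k = b i j)
    (hr : ∑ j, ∑ k, Complex.normSq (P j k) = r) (r0 : 0 < r) :
    ∑ j, ∑ k, Complex.normSq (MM S b w j k - (((∑ i ∈ S, w i) / r : ℝ) : ℂ) * P j k) =
      ∑ i ∈ S, ∑ j ∈ S, w i * w j * hip (b i) (b j) - (∑ i ∈ S, w i) ^ 2 / r := by
  have h1 : ∑ j, ∑ k, MM S b w j k * conj (P j k) = ((∑ i ∈ S, w i : ℝ) : ℂ) := by
    have e : ∀ j k, MM S b w j k * conj (P j k) =
        ∑ i ∈ S, (w i : ℂ) * (b i j * conj (b i k) * conj (P j k)) := by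
      intro j k
      unfold MM
      rw [Finset.sum_mul]
      exact Finset.sum_congr rfl fun i _ => by ring
    simp only [e]
    have e2 : ∀ j, ∑ k, ∑ i ∈ S, (w i : ℂ) * (b i j * conj (b i k) * conj (P j k)) =
        ∑ i ∈ S, (w i : ℂ) * (b i j * conj (b i j)) := by
      intro j
      rw [Finset.sum_comm]
      refine Finset.sum_congr rfl fun i hi => ?_
      rw [← Finset.mul_sum]
      congr 1
      have hq : conj (b i j) = ∑ k, conj (P j k) * conj (b i k) := by
        rw [← hP i hi j, map_sum]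
        exact Finset.sum_congr rfl fun k _ => map_mul _ _ _
      rw [hq, Finset.mul_sum]
      refine Finset.sum_congr rfl fun k _ => ?_
      ring
    simp only [e2]
    rw [Finset.sum_comm, Complex.ofReal_sum]
    refine Finset.sum_congr rfl fun i hi => ?_
    rw [← Finset.mul_sum, ← nsq_eq, hb i hi]
    simp
  have h2 : ∑ j, ∑ k, (MM S b w j k * conj (P j k)).re = ∑ i ∈ S, w i := by
    have := congrArg Complex.re h1
    simpa [Complex.re_sum] using this
  have h3 := sum_sq S b w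
  have h4 := Complex.ofReal_injective h3
  simp only [normSq_sub', Finset.sum_add_distrib, Finset.sum_sub_distrib, ← Finset.mul_sum]
  rw [h4, h2, hr]
  field_simp
  ring

lemma eq_case (hb : ∀ i ∈ S, nsq (b i) = 1) (hP : ∀ i ∈ S, ∀ j, ∑ k, P j k * b i k = b i j)
    (hr : ∑ j, ∑ k, Complex.normSq (P j k) = r) (r0 : 0 < r)
    (h : ∑ i ∈ S, ∑ j ∈ S, w i * w j * hip (b i) (b j) = (∑ i ∈ S, w i) ^ 2 / r)
    (v : Fin 3 → ℂ) (hv : ∀ j, ∑ k, P j k * v k = v j) :
    ∑ i ∈ S, w i * hip (b i) v = (∑ i ∈ S, w i) / r * nsq v := by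
  have h0 := key S b w P r hb hP hr r0
  rw [h, sub_self] at h0
  have h1 : ∀ j k, MM S b w j k = (((∑ i ∈ S, w i) / r : ℝ) : ℂ) * P j k := by
    intro j k
    have a1 := (Finset.sum_eq_zero_iff_of_nonneg (fun j _ =>
      Finset.sum_nonneg fun k _ => Complex.normSq_nonneg _)).1 h0 j (Finset.mem_univ _)
    have a2 := (Finset.sum_eq_zero_iff_of_nonneg (fun k _ => Complex.normSq_nonneg _)).1 a1 k
      (Finset.mem_univ _)
    exact sub_eq_zero.1 (Complex.normSq_eq_zero.1 a2)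
  apply Complex.ofReal_injective
  rw [sum_hip, Complex.ofReal_mul, nsq_eq, Finset.mul_sum]
  refine Finset.sum_congr rfl fun j _ => ?_
  simp only [h1]
  have e : ∀ k, conj (v j) * ((((∑ i ∈ S, w i) / r : ℝ) : ℂ) * P j k) * v k =
      (((∑ i ∈ S, w i) / r : ℝ) : ℂ) * conj (v j) * (P j k * v k) := fun k => by ring
  simp only [e]
  rw [← Finset.mul_sum, hv j]
  ring

end

/-- the projector orthogonal to the conjugate of `e` -/
noncomputable def Q (e : Fin 3 → ℂ) (j k : Fin 3) : ℂ :=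
  (if j = k then 1 else 0) - conj (e j) * e k / (nsq e : ℂ)

lemma Q_apply {e v : Fin 3 → ℂ} (hv : v ⬝ᵥ e = 0) (j : Fin 3) : ∑ k, Q e j k * v k = v j := by
  have h1 : ∑ k, e k * v k = 0 := by
    rw [← hv, dotProduct]
    exact Finset.sum_congr rfl fun k _ => mul_comm _ _
  have h2 : ∀ k, Q e j k * v k = (if j = k then v k else 0) -
      conj (e j) / (nsq e : ℂ) * (e k * v k) := by
    intro k
    unfold Q
    split_ifs <;> ring
  simp only [h2]
  rw [Finset.sum_sub_distrib, ← Finset.mul_sum, h1, Finset.sum_ite_eq]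
  simp

lemma Q_norm {e : Fin 3 → ℂ} (he : e ≠ 0) : ∑ j, ∑ k, Complex.normSq (Q e j k) = 2 := by
  have hp := nsq_pos he
  have hp' : (nsq e : ℂ) ≠ 0 := by exact_mod_cast hp.ne'
  apply Complex.ofReal_injective
  rw [Complex.ofReal_sum]
  simp only [Complex.ofReal_sum, ← Complex.mul_conj]
  have hn := nsq_eq e
  rw [Fin.sum_univ_three] at hn
  simp only [Q, Fin.sum_univ_three, map_sub, map_div₀, map_mul, Complex.conj_conj,
    Complex.conj_ofReal]
  simp
  field_simp
  rw [hn]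
  ring

end WEL_

open WEL_ in
theorem wel_proof : Stmt_WEL := by
  intro ι S b w hb
  have hP : ∀ v : Fin 3 → ℂ, ∀ j, ∑ k, (if j = k then (1 : ℂ) else 0) * v k = v j := by
    intro v j
    simp
  have hr : ∑ j : Fin 3, ∑ k : Fin 3, Complex.normSq (if j = k then (1 : ℂ) else 0) = 3 := by
    simp
  refine ⟨?_, ?_, ?_⟩
  · have h := key S b w (fun j k => if j = k then (1 : ℂ) else 0) 3 hb (fun i _ => hP (b i)) hr
      (by norm_num)
    have h2 : 0 ≤ ∑ j, ∑ k, Complex.normSq (MM S b w j k -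
        (((∑ i ∈ S, w i) / 3 : ℝ) : ℂ) * (if j = k then (1 : ℂ) else 0)) :=
      Finset.sum_nonneg fun j _ => Finset.sum_nonneg fun k _ => Complex.normSq_nonneg _
    rw [h] at h2
    linarith
  · intro h v
    exact eq_case S b w (fun j k => if j = k then (1 : ℂ) else 0) 3 hb (fun i _ => hP (b i)) hr
      (by norm_num) h v (hP v)
  · intro e he hbe
    constructor
    · have h := key S b w (Q e) 2 hb (fun i hi => Q_apply (hbe i hi)) (Q_norm he) (by norm_num)
      have h2 : 0 ≤ ∑ j, ∑ k, Complex.normSq (MM S b w j k -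
          (((∑ i ∈ S, w i) / 2 : ℝ) : ℂ) * Q e j k) :=
        Finset.sum_nonneg fun j _ => Finset.sum_nonneg fun k _ => Complex.normSq_nonneg _
      rw [h] at h2
      linarith
    · intro h v hv
      exact eq_case S b w (Q e) 2 hb (fun i hi => Q_apply (hbe i hi)) (Q_norm he)
        (by norm_num) h v (Q_apply hv)

end Pool.Agent.MUB
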