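import Pool.Agent.MUB.Stmts

/-!
# MUB, module WTS: the multiplicities are a positive combination of triples of independent covectors
-/

set_option autoImplicit false

open scoped Classical Matrix LinearAlgebra.Projectivization
open Finset Matrix

namespace Pool.Agent.MUB

namespace WTS_

lemma wedge (a b e : Fin 3 → ℂ) (ha : a ⬝ᵥ e = 0) (hb : b ⬝ᵥ e = 0) (i j : Fin 3) :
    crossProduct a b i * e j = crossProduct a b j * e i := by
  simp only [dotProduct, Fin.sum_univ_three] at ha hb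
  rw [cross_apply]
  fin_cases i <;> fin_cases j <;> simp
  · linear_combination b 2 * ha - a 2 * hb
  · linear_combination a 1 * hb - b 1 * ha
  · linear_combination a 2 * hb - b 2 * ha
  · linear_combination b 0 * ha - a 0 * hb
  · linear_combination b 1 * ha - a 1 * hb
  · linear_combination a 0 * hb - b 0 * ha

/-- independent covectors `a`, `b` through `e` and `c` not through `e` -/
lemma det_ne (t : Fin 3 → Fin 3 → ℂ) (e : Fin 3 → ℂ) (hab : crossProduct (t 0) (t 1) ≠ 0)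
    (h0 : t 0 ⬝ᵥ e = 0) (h1 : t 1 ⬝ᵥ e = 0) (h2 : t 2 ⬝ᵥ e ≠ 0) :
    Matrix.det (Matrix.of fun i => t i) ≠ 0 := by
  intro hdet
  have hw := wedge (t 0) (t 1) e h0 h1
  have hd : t 2 ⬝ᵥ crossProduct (t 0) (t 1) = 0 := by
    rw [Matrix.det_fin_three] at hdet
    simp only [Matrix.of_apply] at hdet
    rw [cross_apply]
    simp only [dotProduct, Fin.sum_univ_three, Matrix.cons_val_zero, Matrix.cons_val_one,
      Matrix.cons_val]
    linear_combination hdet
  obtain ⟨i, hi⟩ : ∃ i, crossProduct (t 0) (t 1) i ≠ 0 := by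
    by_contra h
    push Not at h
    exact hab (funext h)
  have key : crossProduct (t 0) (t 1) i * (t 2 ⬝ᵥ e) =
      (t 2 ⬝ᵥ crossProduct (t 0) (t 1)) * e i := by
    have k0 := hw i 0
    have k1 := hw i 1
    have k2 := hw i 2
    simp only [dotProduct, Fin.sum_univ_three]
    linear_combination t 2 0 * k0 + t 2 1 * k1 + t 2 2 * k2
  rw [hd, zero_mul] at key
  rcases mul_eq_zero.1 key with h | h
  · exact hi h
  · exact h2 h

noncomputable section

variable {L X : Type} [Fintype L] [Fintype X]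

def A (N : VNet L X) (l : L) (x : X) : ℝ := if N.a l ⬝ᵥ N.e x = 0 then 1 else 0

def B (N : VNet L X) (l : L) (x : X) : ℝ := if N.a l ⬝ᵥ N.e x = 0 then 0 else 1

def D (i j : Fin 4) : ℝ := if i ≠ j then 1 else 0

lemma sumA (N : VNet L X) (x : X) (φ : Fin 4 → ℝ) :
    ∑ l, N.m l * A N l x * φ (N.cls l) = N.n x * ∑ i, φ i := by
  rw [← Finset.sum_fiberwise univ N.cls, Finset.mul_sum]
  refine Finset.sum_congr rfl (fun i _ => ?_)
  rw [← N.sum_n x i, Finset.sum_mul, Finset.sum_filter, Finset.sum_filter]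
  refine Finset.sum_congr rfl (fun l _ => ?_)
  by_cases h : N.cls l = i
  · by_cases h2 : N.a l ⬝ᵥ N.e x = 0
    · rw [if_pos h, if_pos ⟨h, h2⟩, A, if_pos h2, h, mul_one]
    · rw [if_pos h, if_neg (fun h' => h2 h'.2), A, if_neg h2, mul_zero, zero_mul]
  · rw [if_neg h, if_neg (fun h' => h h'.1)]

lemma sumB (N : VNet L X) (x : X) (φ : Fin 4 → ℝ) :
    ∑ l, N.m l * B N l x * φ (N.cls l) = (N.d - N.n x) * ∑ i, φ i := by
  have h1 : ∑ l, N.m l * φ (N.cls l) = N.d * ∑ i, φ i := by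
    rw [← Finset.sum_fiberwise univ N.cls, Finset.mul_sum]
    refine Finset.sum_congr rfl (fun i _ => ?_)
    rw [← N.sum_d i, Finset.sum_mul]
    refine Finset.sum_congr rfl (fun l hl => ?_)
    rw [(mem_filter.1 hl).2]
  have h2 := sumA N x φ
  have h3 : ∀ l, N.m l * B N l x * φ (N.cls l) =
      N.m l * φ (N.cls l) - N.m l * A N l x * φ (N.cls l) := by
    intro l
    by_cases h : N.a l ⬝ᵥ N.e x = 0
    · rw [A, B, if_pos h, if_pos h]; ring
    · rw [A, B, if_neg h, if_neg h]; ring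
  rw [Finset.sum_congr rfl (fun l _ => h3 l), Finset.sum_sub_distrib, h1, h2]
  ring

lemma sixN : ∀ i : Fin 4, ∑ j, (if i ≠ j then 1 else 0) *
    ∑ k, (if i ≠ k then 1 else 0) * (if j ≠ k then 1 else 0) = 6 := by
  decide

lemma sixN' : ∀ i : Fin 4, ∑ j, (if j ≠ i then 1 else 0) *
    ∑ k, (if j ≠ k then 1 else 0) * (if k ≠ i then 1 else 0) = 6 := by
  decide

lemma six (i : Fin 4) : ∑ j, D i j * ∑ k, D i k * D j k = 6 := by
  have h := sixN i
  unfold D
  exact_mod_cast h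

lemma six' (i : Fin 4) : ∑ j, D j i * ∑ k, D j k * D k i = 6 := by
  have h := sixN' i
  unfold D
  exact_mod_cast h

/-- the weight of a quadruple -/
def W (N : VNet L X) (x : X) (l m r : L) : ℝ :=
  N.m l * A N l x * (N.m m * A N m x * (N.m r * B N r x *
    (D (N.cls l) (N.cls m) * (D (N.cls l) (N.cls r) * D (N.cls m) (N.cls r)))))

lemma W_swap (N : VNet L X) (x : X) (l m r : L) : W N x l m r = W N x m l r := by
  have h : ∀ i j : Fin 4, D i j = D j i := by
    intro i j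
    unfold D
    by_cases h : i = j
    · rw [h]
    · rw [if_pos h, if_pos (Ne.symm h)]
  unfold W
  rw [h (N.cls l) (N.cls m)]
  ring

lemma part1 (N : VNet L X) (x : X) (F : L → ℝ) :
    ∑ l, ∑ m, ∑ r, W N x l m r * F l =
      6 * N.n x * (N.d - N.n x) * ∑ l, N.m l * A N l x * F l := by
  rw [Finset.mul_sum]
  refine Finset.sum_congr rfl (fun l _ => ?_)
  have h1 : ∀ m, ∑ r, W N x l m r * F l =
      N.m m * A N m x * (N.m l * A N l x * F l * (N.d - N.n x) *
        (D (N.cls l) (N.cls m) * ∑ k, D (N.cls l) k * D (N.cls m) k)) := by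
    intro m
    have h := sumB N x (fun k => D (N.cls l) k * D (N.cls m) k)
    have h' : ∀ r, W N x l m r * F l = (N.m m * A N m x * (N.m l * A N l x * F l *
        D (N.cls l) (N.cls m))) * (N.m r * B N r x * (D (N.cls l) (N.cls r) *
        D (N.cls m) (N.cls r))) := by
      intro r
      unfold W
      ring
    rw [Finset.sum_congr rfl (fun r _ => h' r), ← Finset.mul_sum, h]
    ring
  rw [Finset.sum_congr rfl (fun m _ => h1 m)]
  have h2 := sumA N x (fun j => N.m l * A N l x * F l * (N.d - N.n x) *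
        (D (N.cls l) j * ∑ k, D (N.cls l) k * D j k))
  rw [h2, ← Finset.mul_sum, six]
  ring

lemma part2 (N : VNet L X) (x : X) (F : L → ℝ) :
    ∑ l, ∑ m, ∑ r, W N x l m r * F m =
      6 * N.n x * (N.d - N.n x) * ∑ l, N.m l * A N l x * F l := by
  rw [Finset.sum_comm, ← part1]
  refine Finset.sum_congr rfl (fun l _ => Finset.sum_congr rfl (fun m _ =>
    Finset.sum_congr rfl (fun r _ => ?_)))
  rw [W_swap]

lemma part3 (N : VNet L X) (x : X) (F : L → ℝ) :
    ∑ l, ∑ m, ∑ r, W N x l m r * F r =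
      6 * N.n x ^ 2 * ∑ l, N.m l * B N l x * F l := by
  have h0 : ∑ l, ∑ m, ∑ r, W N x l m r * F r = ∑ r, ∑ l, ∑ m, W N x l m r * F r := by
    rw [Finset.sum_congr rfl (fun l _ => Finset.sum_comm), Finset.sum_comm]
  rw [h0, Finset.mul_sum]
  refine Finset.sum_congr rfl (fun r _ => ?_)
  have h1 : ∀ l, ∑ m, W N x l m r * F r =
      N.m l * A N l x * (N.m r * B N r x * F r * N.n x *
        (D (N.cls l) (N.cls r) * ∑ k, D (N.cls l) k * D k (N.cls r))) := by
    intro l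
    have h := sumA N x (fun k => D (N.cls l) k * D k (N.cls r))
    have h' : ∀ m, W N x l m r * F r = (N.m r * B N r x * (N.m l * A N l x * F r *
        D (N.cls l) (N.cls r))) * (N.m m * A N m x * (D (N.cls l) (N.cls m) *
        D (N.cls m) (N.cls r))) := by
      intro m
      unfold W
      ring
    rw [Finset.sum_congr rfl (fun m _ => h' m), ← Finset.mul_sum, h]
    ring
  rw [Finset.sum_congr rfl (fun l _ => h1 l)]
  have h2 := sumA N x (fun j => N.m r * B N r x * F r * N.n x *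
        (D j (N.cls r) * ∑ k, D j k * D k (N.cls r)))
  rw [h2, ← Finset.mul_sum, six']
  ring

/-- the condition on a quadruple -/
def P (N : VNet L X) (q : X × L × L × L) : Prop :=
  N.a q.2.1 ⬝ᵥ N.e q.1 = 0 ∧ N.a q.2.2.1 ⬝ᵥ N.e q.1 = 0 ∧ N.a q.2.2.2 ⬝ᵥ N.e q.1 ≠ 0 ∧
    N.cls q.2.1 ≠ N.cls q.2.2.1 ∧ N.cls q.2.1 ≠ N.cls q.2.2.2 ∧ N.cls q.2.2.1 ≠ N.cls q.2.2.2

lemma W_eq (N : VNet L X) (x : X) (l m r : L) :
    W N x l m r = if P N (x, l, m, r) then N.m l * N.m m * N.m r else 0 := by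
  unfold W A B D
  by_cases h1 : N.a l ⬝ᵥ N.e x = 0
  · by_cases h2 : N.a m ⬝ᵥ N.e x = 0
    · by_cases h3 : N.a r ⬝ᵥ N.e x = 0
      · rw [if_pos h3, if_neg (fun h : P N (x, l, m, r) => h.2.2.1 h3)]; ring
      · by_cases h4 : N.cls l ≠ N.cls m
        · by_cases h5 : N.cls l ≠ N.cls r
          · by_cases h6 : N.cls m ≠ N.cls r
            · have hP : P N (x, l, m, r) := ⟨h1, h2, h3, h4, h5, h6⟩
              rw [if_pos h1, if_pos h2, if_neg h3, if_pos h4, if_pos h5, if_pos h6, if_pos hP]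
              ring
            · rw [if_neg h6, if_neg (fun h : P N (x, l, m, r) => h6 h.2.2.2.2.2)]; ring
          · rw [if_neg h5, if_neg (fun h : P N (x, l, m, r) => h5 h.2.2.2.2.1)]; ring
        · rw [if_neg h4, if_neg (fun h : P N (x, l, m, r) => h4 h.2.2.2.1)]; ring
    · rw [if_neg h2, if_neg (fun h : P N (x, l, m, r) => h2 h.2.1)]; ring
  · rw [if_neg h1, if_neg (fun h : P N (x, l, m, r) => h1 h.1)]; ring

lemma at_pt (N : VNet L X) (x : X) (F : L → ℝ) :
    ∑ l, ∑ m, ∑ r, W N x l m r * (F l + F m + F r) =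
      6 * (N.n x * (2 * N.d - 3 * N.n x) * (∑ l, N.m l * A N l x * F l) +
        N.n x ^ 2 * ∑ l, N.m l * F l) := by
  have h1 := part1 N x F
  have h2 := part2 N x F
  have h3 := part3 N x F
  have h4 : ∑ l, ∑ m, ∑ r, W N x l m r * (F l + F m + F r) =
      ∑ l, ∑ m, ∑ r, W N x l m r * F l + ∑ l, ∑ m, ∑ r, W N x l m r * F m +
        ∑ l, ∑ m, ∑ r, W N x l m r * F r := by
    rw [← Finset.sum_add_distrib, ← Finset.sum_add_distrib]
    refine Finset.sum_congr rfl (fun l _ => ?_)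
    rw [← Finset.sum_add_distrib, ← Finset.sum_add_distrib]
    refine Finset.sum_congr rfl (fun m _ => ?_)
    rw [← Finset.sum_add_distrib, ← Finset.sum_add_distrib]
    refine Finset.sum_congr rfl (fun r _ => ?_)
    ring
  have h5 : ∑ l, N.m l * B N l x * F l = ∑ l, N.m l * F l - ∑ l, N.m l * A N l x * F l := by
    rw [← Finset.sum_sub_distrib]
    refine Finset.sum_congr rfl (fun l _ => ?_)
    by_cases h : N.a l ⬝ᵥ N.e x = 0
    · rw [A, B, if_pos h, if_pos h]; ring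
    · rw [A, B, if_neg h, if_neg h]; ring
  rw [h4, h1, h2, h3, h5]
  ring

lemma sum_x (N : VNet L X) (hon : ∀ l, ∑ x with N.a l ⬝ᵥ N.e x = 0, N.n x = N.d) (F : L → ℝ) :
    ∑ x, N.n x * ∑ l, N.m l * A N l x * F l = N.d * ∑ l, N.m l * F l := by
  have h1 : ∀ x, N.n x * ∑ l, N.m l * A N l x * F l =
      ∑ l, (N.m l * F l) * (if N.a l ⬝ᵥ N.e x = 0 then N.n x else 0) := by
    intro x
    rw [Finset.mul_sum]
    refine Finset.sum_congr rfl (fun l _ => ?_)
    by_cases h : N.a l ⬝ᵥ N.e x = 0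
    · rw [A, if_pos h, if_pos h]; ring
    · rw [A, if_neg h, if_neg h]; ring
  rw [Finset.sum_congr rfl (fun x _ => h1 x), Finset.sum_comm, Finset.mul_sum]
  refine Finset.sum_congr rfl (fun l _ => ?_)
  rw [← Finset.mul_sum, ← Finset.sum_filter, hon l]
  ring

lemma exists_on (N : VNet L X) (x : X) (i : Fin 4) : ∃ l, N.cls l = i ∧ N.a l ⬝ᵥ N.e x = 0 := by
  by_contra h
  have h0 : univ.filter (fun l => N.cls l = i ∧ N.a l ⬝ᵥ N.e x = 0) = ∅ := by
    rw [Finset.filter_eq_empty_iff]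
    intro l _ hl
    exact h ⟨l, hl⟩
  have h1 := N.sum_n x i
  rw [h0, Finset.sum_empty] at h1
  have h2 := N.n_pos x
  linarith

lemma off_two (N : VNet L X) (hon : ∀ l, ∑ x with N.a l ⬝ᵥ N.e x = 0, N.n x = N.d)
    (hsq : ∑ x, N.n x ^ 2 = N.d ^ 2) (hth : ∀ x, 3 * N.n x ≤ N.d) (l l' : L) :
    ∃ x, N.a l ⬝ᵥ N.e x ≠ 0 ∧ N.a l' ⬝ᵥ N.e x ≠ 0 := by
  by_contra hcon
  push Not at hcon
  have h1 : ∀ x, 3 * N.n x ^ 2 ≤ N.d * ((if N.a l ⬝ᵥ N.e x = 0 then N.n x else 0) +
      (if N.a l' ⬝ᵥ N.e x = 0 then N.n x else 0)) := by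
    intro x
    have hn := N.n_pos x
    have ht := hth x
    have hd := N.d_pos
    by_cases h : N.a l ⬝ᵥ N.e x = 0
    · rw [if_pos h]
      have h0 : 0 ≤ (if N.a l' ⬝ᵥ N.e x = 0 then N.n x else 0) := by
        split_ifs
        · exact hn.le
        · exact le_rfl
      nlinarith
    · rw [if_neg h, if_pos (hcon x h)]
      nlinarith
  have h2 := Finset.sum_le_sum (fun x (_ : x ∈ (univ : Finset X)) => h1 x)
  rw [← Finset.mul_sum, ← Finset.mul_sum, Finset.sum_add_distrib, ← Finset.sum_filter,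
    ← Finset.sum_filter, hon l, hon l', hsq] at h2
  have hd := N.d_pos
  nlinarith

lemma alg (n D S T : ℝ) (h : D ≠ 0) :
    6 * (n * D * S + n ^ 2 * T) / D = 6 * (n * S) + 6 * T * (n ^ 2 / D) := by
  field_simp

lemma two_classes (i j : Fin 4) : ∃ b c : Fin 4, b ≠ c ∧ b ≠ i ∧ b ≠ j ∧ c ≠ i ∧ c ≠ j := by
  revert i j
  decide

end

end WTS_

open WTS_ in
theorem wts_proof (h1 : Stmt_CNT) : Stmt_WTS := by
  intro L X _ _ N
  obtain ⟨hon, hsq, hth, -⟩ := h1 L X N
  have hpos : ∀ x, 0 < 2 * N.d - 3 * N.n x := by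
    intro x
    have := hth x
    have := N.d_pos
    linarith
  have hT : 0 ≤ ∑ x, N.n x ^ 2 / (2 * N.d - 3 * N.n x) :=
    Finset.sum_nonneg (fun x _ => div_nonneg (sq_nonneg _) (hpos x).le)
  have link : ∀ l l', ∃ q q' : {q : X × L × L × L // q ∈ univ.filter (P N)},
      ∀ F : L → ℝ, F l - F l' = ∑ i, F ((![q.1.2.1, q.1.2.2.1, q.1.2.2.2] : Fin 3 → L) i) -
        ∑ i, F ((![q'.1.2.1, q'.1.2.2.1, q'.1.2.2.2] : Fin 3 → L) i) := by
    intro l l'
    obtain ⟨x, hx, hx'⟩ := off_two N hon hsq hth l l'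
    obtain ⟨b, c, hbc, hb, hb', hc, hc'⟩ := two_classes (N.cls l) (N.cls l')
    obtain ⟨m, hm, hmx⟩ := exists_on N x b
    obtain ⟨r, hr, hrx⟩ := exists_on N x c
    refine ⟨⟨(x, m, r, l), mem_filter.2 ⟨mem_univ _, hmx, hrx, hx, ?_, ?_, ?_⟩⟩,
      ⟨(x, m, r, l'), mem_filter.2 ⟨mem_univ _, hmx, hrx, hx', ?_, ?_, ?_⟩⟩, ?_⟩
    · show N.cls m ≠ N.cls r
      rw [hm, hr]; exact hbc
    · show N.cls m ≠ N.cls l
      rw [hm]; exact hb
    · show N.cls r ≠ N.cls l
      rw [hr]; exact hc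
    · show N.cls m ≠ N.cls r
      rw [hm, hr]; exact hbc
    · show N.cls m ≠ N.cls l'
      rw [hm]; exact hb'
    · show N.cls r ≠ N.cls l'
      rw [hr]; exact hc'
    · intro F
      simp only [Fin.sum_univ_three, Matrix.cons_val_zero, Matrix.cons_val_one, Matrix.cons_val]
      ring
  obtain ⟨l0, hl0⟩ : ∃ l, N.cls l = 0 := by
    by_contra h
    have h0 : univ.filter (fun l => N.cls l = 0) = ∅ := by
      rw [Finset.filter_eq_empty_iff]
      intro l _ hl
      exact h ⟨l, hl⟩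
    have h1 := N.sum_d 0
    rw [h0, Finset.sum_empty] at h1
    have h2 := N.d_pos
    linarith
  obtain ⟨q0, -, -⟩ := link l0 l0
  refine ⟨{q : X × L × L × L // q ∈ univ.filter (P N)}, Finset.Subtype.fintype _, ⟨q0⟩,
    fun q => ![q.1.2.1, q.1.2.2.1, q.1.2.2.2],
    fun q => N.m q.1.2.1 * N.m q.1.2.2.1 * N.m q.1.2.2.2 / (2 * N.d - 3 * N.n q.1.1),
    6 * (N.d + ∑ x, N.n x ^ 2 / (2 * N.d - 3 * N.n x)), ?_, ?_, ?_, ?_, link⟩
  · have := N.d_pos
    linarith
  · intro q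
    exact div_pos (mul_pos (mul_pos (N.m_pos _) (N.m_pos _)) (N.m_pos _)) (hpos _)
  · rintro ⟨⟨x, l, m, r⟩, hq⟩
    obtain ⟨hl, hm, hr, hlm, hlr, hmr⟩ := (mem_filter.1 hq).2
    refine det_ne (fun i => N.a ((![l, m, r] : Fin 3 → L) i)) (N.e x) ?_ hl hm hr
    refine N.a_ne l m (fun h => hlm ?_)
    show N.cls l = N.cls m
    rw [h]
  · intro F
    have hs : ∑ q : {q : X × L × L × L // q ∈ univ.filter (P N)},
        N.m q.1.2.1 * N.m q.1.2.2.1 * N.m q.1.2.2.2 / (2 * N.d - 3 * N.n q.1.1) *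
          ∑ i, F ((![q.1.2.1, q.1.2.2.1, q.1.2.2.2] : Fin 3 → L) i) =
        ∑ x, ∑ l, ∑ m, ∑ r, W N x l m r * (F l + F m + F r) / (2 * N.d - 3 * N.n x) := by
      rw [Finset.sum_coe_sort (univ.filter (P N)) (fun q : X × L × L × L =>
        N.m q.2.1 * N.m q.2.2.1 * N.m q.2.2.2 / (2 * N.d - 3 * N.n q.1) *
          ∑ i, F ((![q.2.1, q.2.2.1, q.2.2.2] : Fin 3 → L) i)), Finset.sum_filter,
        Fintype.sum_prod_type]
      refine Finset.sum_congr rfl (fun x _ => ?_)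
      rw [Fintype.sum_prod_type]
      refine Finset.sum_congr rfl (fun l _ => ?_)
      rw [Fintype.sum_prod_type]
      refine Finset.sum_congr rfl (fun m _ => Finset.sum_congr rfl (fun r _ => ?_))
      rw [W_eq]
      by_cases h : P N (x, l, m, r)
      · rw [if_pos h, if_pos h]
        simp only [Fin.sum_univ_three, Matrix.cons_val_zero, Matrix.cons_val_one, Matrix.cons_val]
        ring
      · rw [if_neg h, if_neg h, zero_mul, zero_div]
    show ∑ q : {q : X × L × L × L // q ∈ univ.filter (P N)},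
        N.m q.1.2.1 * N.m q.1.2.2.1 * N.m q.1.2.2.2 / (2 * N.d - 3 * N.n q.1.1) *
          ∑ i, F ((![q.1.2.1, q.1.2.2.1, q.1.2.2.2] : Fin 3 → L) i) = _
    rw [hs]
    have h2 : ∀ x, ∑ l, ∑ m, ∑ r, W N x l m r * (F l + F m + F r) / (2 * N.d - 3 * N.n x) =
        6 * (N.n x * (∑ l, N.m l * A N l x * F l)) +
          6 * (∑ l, N.m l * F l) * (N.n x ^ 2 / (2 * N.d - 3 * N.n x)) := by
      intro x
      have h3 := at_pt N x F
      have h4 : ∑ l, ∑ m, ∑ r, W N x l m r * (F l + F m + F r) / (2 * N.d - 3 * N.n x) =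
          (∑ l, ∑ m, ∑ r, W N x l m r * (F l + F m + F r)) / (2 * N.d - 3 * N.n x) := by
        rw [Finset.sum_div]
        refine Finset.sum_congr rfl (fun l _ => ?_)
        rw [Finset.sum_div]
        refine Finset.sum_congr rfl (fun m _ => ?_)
        rw [Finset.sum_div]
      rw [h4, h3]
      exact alg _ _ _ _ (hpos x).ne'
    rw [Finset.sum_congr rfl (fun x _ => h2 x), Finset.sum_add_distrib, ← Finset.mul_sum,
      ← Finset.mul_sum, sum_x N hon F]
    ring

end Pool.Agent.MUB
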